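import Pool.Agent.Helper97.LogFPP.Gauss

set_option autoImplicit false
set_option maxHeartbeats 400000

open MeasureTheory ProbabilityTheory Set Filter Topology
open scoped NNReal ENNReal

namespace Pool.Agent.Helper97.LogFPP

variable {d : ℕ} {K : Pt d → ℝ} {Ω : Type*} {mΩ : MeasurableSpace Ω} {P : Measure Ω}
  {h : ℕ → Pt d → Ω → ℝ}

/-- the span of the field variables -/
abbrev HS (h : ℕ → Pt d → Ω → ℝ) : Submodule ℝ (Ω → ℝ) := LS (fun p : ℕ × Pt d => h p.1 p.2)

theorem HS_measurable (hh : IsField K P h) {Y : Ω → ℝ} (hY : Y ∈ HS h) : Measurable Y :=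
  LS_measurable (X := fun p : ℕ × Pt d => h p.1 p.2) (fun p => hh.meas p.1 p.2) hY

/-- the band of scales `(2^{-b}, 2^{-a}]` -/
def bnd (h : ℕ → Pt d → Ω → ℝ) (a b : ℕ) (x : Pt d) : Ω → ℝ := fun ω => h b x ω - h a x ω

theorem h_mem (m : ℕ) (x : Pt d) : h m x ∈ HS h := Submodule.subset_span ⟨(m, x), rfl⟩

theorem bnd_mem (a b : ℕ) (x : Pt d) : bnd h a b x ∈ HS h :=
  Submodule.sub_mem _ (h_mem b x) (h_mem a x)

theorem IsField.cov_h_bnd (hh : IsField K P h) (m a b : ℕ) (x y : Pt d) :
    cov[h m x, bnd h a b y; P] = Isc K (min m b) (x - y) - Isc K (min m a) (x - y) := by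
  have := hh.gaussian.isProbabilityMeasure
  unfold bnd
  rw [covariance_fun_sub_right (LS_memLp hh.gaussian (h_mem m x)) (LS_memLp hh.gaussian (h_mem b y))
    (LS_memLp hh.gaussian (h_mem a y)), hh.cov_eq, hh.cov_eq]

theorem IsField.cov_h_bnd_zero (hh : IsField K P h) {m a b : ℕ} (hma : m ≤ a) (hab : a ≤ b)
    (x y : Pt d) : cov[h m x, bnd h a b y; P] = 0 := by
  rw [hh.cov_h_bnd, min_eq_left hma, min_eq_left (hma.trans hab), sub_self]

theorem IsField.cov_bnd (hh : IsField K P h) (a b a' b' : ℕ) (x y : Pt d) :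
    cov[bnd h a b x, bnd h a' b' y; P] =
      (Isc K (min b b') (x - y) - Isc K (min b a') (x - y)) -
      (Isc K (min a b') (x - y) - Isc K (min a a') (x - y)) := by
  have := hh.gaussian.isProbabilityMeasure
  rw [show bnd h a b x = fun ω => h b x ω - h a x ω from rfl]
  rw [covariance_fun_sub_left (LS_memLp hh.gaussian (h_mem b x))
    (LS_memLp hh.gaussian (h_mem a x)) (LS_memLp hh.gaussian (bnd_mem a' b' y)), hh.cov_h_bnd,
    hh.cov_h_bnd]

theorem IsField.cov_bnd_same (hh : IsField K P h) (hK : IsKernel K) {a b : ℕ} (hab : a ≤ b)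
    (x y : Pt d) : cov[bnd h a b x, bnd h a b y; P] = Kb K a b (x - y) := by
  rw [hh.cov_bnd, min_self, min_eq_right hab, min_eq_left hab, min_self, ← Isc_sub hK hab]
  ring

theorem IsField.cov_bnd_zero (hh : IsField K P h) {a b a' b' : ℕ} (h1 : a ≤ b) (h2 : b ≤ a')
    (h3 : a' ≤ b') (x y : Pt d) : cov[bnd h a' b' x, bnd h a b y; P] = 0 := by
  rw [hh.cov_bnd, min_eq_right (h2.trans h3), min_eq_right (h1.trans (h2.trans h3)),
    min_eq_right h2, min_eq_right (h1.trans h2)]
  ring

theorem IsField.var_bnd (hh : IsField K P h) (hK : IsKernel K) {a b : ℕ} (hab : a ≤ b)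
    (x : Pt d) : Var[bnd h a b x; P] = ((b : ℝ) - a) * Real.log 2 := by
  rw [← covariance_self (LS_memLp hh.gaussian (bnd_mem a b x)).aemeasurable,
    hh.cov_bnd_same hK hab, sub_self, Kb_zero hK hab]

/-- index set of the coarse field and of the remainder -/
abbrev PIdx (d a : ℕ) := ({m : ℕ // m ≤ a} × Pt d) ⊕ Pt d

/-- the variables of the past -/
def pastVar (h : ℕ → Pt d → Ω → ℝ) (a N n : ℕ) : PIdx d a → Ω → ℝ :=
  Sum.elim (fun p => h p.1.1 p.2) (fun x => bnd h N n x)

/-- the sigma-algebra generated by the coarse field and the remainder -/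
@[reducible] def past (h : ℕ → Pt d → Ω → ℝ) (a N n : ℕ) : MeasurableSpace Ω :=
  MeasurableSpace.comap (fun ω s => pastVar h a N n s ω) inferInstance

/-- the sigma-algebra generated by a band -/
@[reducible] def bandAlg (h : ℕ → Pt d → Ω → ℝ) (a b : ℕ) : MeasurableSpace Ω :=
  MeasurableSpace.comap (fun ω x => bnd h a b x ω) inferInstance

theorem pastVar_mem (a N n : ℕ) (s : PIdx d a) : pastVar h a N n s ∈ HS h := by
  rcases s with p | x
  · exact h_mem _ _
  · exact bnd_mem _ _ _

theorem meas_past_h {m a N n : ℕ} (hma : m ≤ a) (x : Pt d) :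
    Measurable[past h a N n] (h m x) := by
  have h1 : Measurable[past h a N n] (fun ω s => pastVar h a N n s ω) :=
    Measurable.of_comap_le le_rfl
  have h2 := (measurable_pi_apply (X := fun _ : PIdx d a => ℝ) (Sum.inl (⟨m, hma⟩, x))).comp h1
  exact h2

theorem meas_past_rem {a N n : ℕ} (x : Pt d) :
    Measurable[past h a N n] (bnd h N n x) := by
  have h1 : Measurable[past h a N n] (fun ω s => pastVar h a N n s ω) :=
    Measurable.of_comap_le le_rfl
  have h2 := (measurable_pi_apply (X := fun _ : PIdx d a => ℝ) (Sum.inr x)).comp h1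
  exact h2

theorem meas_past_bnd {i j a N n : ℕ} (hi : i ≤ a) (hj : j ≤ a) (x : Pt d) :
    Measurable[past h a N n] (bnd h i j x) :=
  Measurable.sub (meas_past_h hj x) (meas_past_h hi x)

theorem past_le (hh : IsField K P h) (a N n : ℕ) : past h a N n ≤ mΩ := by
  have h1 : Measurable (fun ω s => pastVar h a N n s ω) :=
    measurable_pi_lambda _ fun s => HS_measurable hh (pastVar_mem a N n s)
  exact h1.comap_le

theorem past_mono {a a' N n : ℕ} (haa : a ≤ a') : past h a N n ≤ past h a' N n := by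
  apply Measurable.comap_le
  apply @measurable_pi_lambda _ _ _ (past h a' N n)
  intro s
  rcases s with p | x
  · exact meas_past_h (p.1.2.trans haa) p.2
  · exact meas_past_rem x

theorem meas_bandAlg (a b : ℕ) (x : Pt d) : Measurable[bandAlg h a b] (bnd h a b x) := by
  have h1 : Measurable[bandAlg h a b] (fun ω x => bnd h a b x ω) :=
    Measurable.of_comap_le le_rfl
  exact (measurable_pi_apply (X := fun _ : Pt d => ℝ) x).comp h1

theorem bandAlg_le (hh : IsField K P h) (a b : ℕ) : bandAlg h a b ≤ mΩ := by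
  have h1 : Measurable (fun ω x => bnd h a b x ω) :=
    measurable_pi_lambda _ fun s => HS_measurable hh (bnd_mem a b s)
  exact h1.comap_le

theorem bandAlg_le_past {a b N n : ℕ} (hab : a ≤ b) : bandAlg h a b ≤ past h b N n := by
  apply Measurable.comap_le
  apply @measurable_pi_lambda _ _ _ (past h b N n)
  intro x
  exact meas_past_bnd hab le_rfl x

theorem past_indep (hh : IsField K P h) {a b N n : ℕ} (hab : a ≤ b) (hbN : b ≤ N) (hNn : N ≤ n) :
    Indep (past h a N n) (bandAlg h a b) P := by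
  have h1 : IndepFun (fun ω s => pastVar h a N n s ω) (fun ω x => bnd h a b x ω) P := by
    apply IsGaussianProcess.indepFun_of_covariance_eq_zero
    · have h2 := (LS_gaussian hh.gaussian).comp_right
        (fun s : PIdx d a ⊕ Pt d => Sum.elim (fun s => (⟨pastVar h a N n s, pastVar_mem a N n s⟩ :
          HS h)) (fun x => ⟨bnd h a b x, bnd_mem a b x⟩) s)
      have h3 : ((fun (Y : HS h) ω => Y.1 ω) ∘ fun s : PIdx d a ⊕ Pt d => Sum.elim
          (fun s => (⟨pastVar h a N n s, pastVar_mem a N n s⟩ : HS h))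
          (fun x => ⟨bnd h a b x, bnd_mem a b x⟩) s) =
          Sum.elim (pastVar h a N n) (bnd h a b) := by
        funext s
        rcases s with s | x <;> rfl
      rw [h3] at h2
      exact h2
    · intro s
      exact (LS_hasGaussianLaw hh.gaussian (pastVar_mem a N n s)).aemeasurable
    · intro x
      exact (LS_hasGaussianLaw hh.gaussian (bnd_mem a b x)).aemeasurable
    · intro s x
      rcases s with p | y
      · exact hh.cov_h_bnd_zero p.1.2 hab _ _
      · exact hh.cov_bnd_zero hab hbN hNn _ _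
  exact (IndepFun_iff_Indep _ _ _).1 h1

/-- the factorization -/
theorem past_mul (hh : IsField K P h) {a b N n : ℕ} (hab : a ≤ b) (hbN : b ≤ N) (hNn : N ≤ n)
    {f g : Ω → ℝ≥0∞} (hf : Measurable[past h a N n] f) (hg : Measurable[bandAlg h a b] g) :
    ∫⁻ ω, f ω * g ω ∂P = (∫⁻ ω, f ω ∂P) * ∫⁻ ω, g ω ∂P :=
  lintegral_mul_eq_lintegral_mul_lintegral_of_independent_measurableSpace (past_le hh a N n)
    (bandAlg_le hh a b) (past_indep hh hab hbN hNn) hf hg

/-- `h` and the bands are jointly measurable -/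
theorem IsField.joint_bnd (hh : IsField K P h) (a b : ℕ) :
    Measurable (fun p : Pt d × Ω => bnd h a b p.1 p.2) := by
  have hc : ∀ ω, Continuous fun x => bnd h a b x ω := fun ω =>
    (hh.smooth b ω).continuous.sub (hh.smooth a ω).continuous
  have hm : ∀ x, Measurable (bnd h a b x) := fun x =>
    HS_measurable hh (bnd_mem a b x)
  exact measurable_uncurry_of_continuous_of_measurable hc hm

theorem IsField.joint_h (hh : IsField K P h) (a : ℕ) :
    Measurable (fun p : Pt d × Ω => h a p.1 p.2) := by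
  have hc : ∀ ω, Continuous fun x => h a x ω := fun ω => (hh.smooth a ω).continuous
  exact measurable_uncurry_of_continuous_of_measurable hc (hh.meas a)

end Pool.Agent.Helper97.LogFPP
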