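import Pool.Agent.Helper97.LogFPP.Step

set_option autoImplicit false
set_option maxHeartbeats 400000

open MeasureTheory ProbabilityTheory Set Filter Topology
open scoped NNReal ENNReal RealInnerProductSpace

namespace Pool.Agent.Helper97.LogFPP

/-- parameters: first scale, number of scales in a band, number of sample points, length scale,
inverse temperature -/
structure Par where
  s : ℕ
  k0 : ℕ
  I : ℕ
  ℓ : ℝ
  ξ : ℝ

/-- the scales -/
def Par.sc (π : Par) (j : ℕ) : ℕ := π.s + j * π.k0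

/-- the units -/
noncomputable def Par.u (π : Par) (j : ℕ) : ℝ := (1 / 2) ^ (π.sc j)

theorem Par.u_pos (π : Par) (j : ℕ) : 0 < π.u j := half_pow_pos _

theorem Par.u_succ (π : Par) (j : ℕ) : π.u (j + 1) = (1 / 2) ^ π.k0 * π.u j := by
  unfold Par.u Par.sc
  rw [← pow_add]; congr 1; ring

variable {d : ℕ} {K : Pt d → ℝ} {Ω : Type*} {mΩ : MeasurableSpace Ω} {P : Measure Ω}
  {h : ℕ → Pt d → Ω → ℝ}

/-- number of pieces -/
noncomputable def Par.q (π : Par) (j : ℕ) (a b : Pt d) : ℕ := ⌊‖b - a‖ / (π.ℓ * π.u j)⌋₊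

/-- direction of a piece -/
noncomputable def Par.v (π : Par) (j : ℕ) (a b : Pt d) : Pt d := ((π.q j a b : ℝ))⁻¹ • (b - a)

/-- start of a piece -/
noncomputable def Par.p (π : Par) (j : ℕ) (a b : Pt d) (i : ℕ) : Pt d :=
  a + (i : ℝ) • π.v j a b

/-- bump vector -/
noncomputable def Par.N (π : Par) (hd : 2 ≤ d) (c : Cst K) (j : ℕ) (a b : Pt d) : Pt d :=
  (c.H * (1 / 2) ^ (π.sc j)) • nrm hd (π.v j a b)

/-- comparison variable of a piece -/
noncomputable def Par.C (π : Par) (hd : 2 ≤ d) (c : Cst K) (h : ℕ → Pt d → Ω → ℝ) (j : ℕ)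
    (a b : Pt d) (i : ℕ) : Ω → ℝ :=
  cmp h (π.sc j) (π.sc (j + 1)) (π.p j a b i) (π.v j a b) (π.N hd c j a b) π.I

/-- new weight: straight option -/
noncomputable def Par.wS (π : Par) (hd : 2 ≤ d) (c : Cst K) (h : ℕ → Pt d → Ω → ℝ) (j : ℕ)
    (a b : Pt d) (i : ℕ) (w : Pt d → Ω → ℝ≥0∞) : Pt d → Ω → ℝ≥0∞ := fun x ω =>
  w x ω * ENNReal.ofReal ((if π.C hd c h j a b i ω ≤ 0 then 1 else 0) *
    Real.exp (π.ξ * bnd h (π.sc j) (π.sc (j + 1)) x ω))

/-- new weight: bump option -/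
noncomputable def Par.wB (π : Par) (hd : 2 ≤ d) (c : Cst K) (h : ℕ → Pt d → Ω → ℝ) (j : ℕ)
    (a b : Pt d) (i : ℕ) (w : Pt d → Ω → ℝ≥0∞) : Pt d → Ω → ℝ≥0∞ := fun x ω =>
  w x ω * ENNReal.ofReal ((if π.C hd c h j a b i ω ≤ 0 then 0 else 1) *
    Real.exp (π.ξ * bnd h (π.sc j) (π.sc (j + 1)) x ω))

/-- cost of the multiscale path with `k` refinements -/
noncomputable def cost (π : Par) (hd : 2 ≤ d) (c : Cst K) (h : ℕ → Pt d → Ω → ℝ) :
    ℕ → ℕ → Pt d → Pt d → (Pt d → Ω → ℝ≥0∞) → Ω → ℝ≥0∞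
  | 0, _, a, b, w => fun ω =>
      ENNReal.ofReal ‖b - a‖ * ∫⁻ t in Icc (0 : ℝ) 1, w (a + t • (b - a)) ω
  | k + 1, j, a, b, w => fun ω => ∑ i ∈ Finset.range (π.q j a b),
      ((cost π hd c h k (j + 1) (π.p j a b i) (π.p j a b i + (1 / 4 : ℝ) • π.v j a b)
          (π.wS hd c h j a b i w) ω +
        cost π hd c h k (j + 1) (π.p j a b i + (1 / 4 : ℝ) • π.v j a b)
          (π.p j a b i + (3 / 4 : ℝ) • π.v j a b) (π.wS hd c h j a b i w) ω +
        cost π hd c h k (j + 1) (π.p j a b i + (3 / 4 : ℝ) • π.v j a b)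
          (π.p j a b i + π.v j a b) (π.wS hd c h j a b i w) ω) +
       (cost π hd c h k (j + 1) (π.p j a b i)
          (π.p j a b i + (1 / 4 : ℝ) • π.v j a b + π.N hd c j a b)
          (π.wB hd c h j a b i w) ω +
        cost π hd c h k (j + 1) (π.p j a b i + (1 / 4 : ℝ) • π.v j a b + π.N hd c j a b)
          (π.p j a b i + (3 / 4 : ℝ) • π.v j a b + π.N hd c j a b) (π.wB hd c h j a b i w) ω +
        cost π hd c h k (j + 1) (π.p j a b i + (3 / 4 : ℝ) • π.v j a b + π.N hd c j a b)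
          (π.p j a b i + π.v j a b) (π.wB hd c h j a b i w) ω))

/-- adapted weights -/
def Ad {d : ℕ} {Ω : Type*} [MeasurableSpace Ω] (h : ℕ → Pt d → Ω → ℝ) (a N n : ℕ)
    (w : Pt d → Ω → ℝ≥0∞) : Prop :=
  (∀ x, Measurable[past h a N n] (w x)) ∧ Measurable (fun p : Pt d × Ω => w p.1 p.2)

theorem Par.C_meas_band (π : Par) (hd : 2 ≤ d) (c : Cst K) (j : ℕ) (a b : Pt d) (i : ℕ) :
    Measurable[bandAlg h (π.sc j) (π.sc (j + 1))] (π.C hd c h j a b i) := by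
  unfold Par.C cmp
  refine Finset.sum_induction _ (fun f => Measurable[bandAlg h (π.sc j) (π.sc (j + 1))] f)
    (fun _ _ h1 h2 => Measurable.add h1 h2) measurable_const fun i _ => ?_
  exact Measurable.sub (meas_bandAlg _ _ _) (meas_bandAlg _ _ _)

theorem ite_meas {α : Type*} {m : MeasurableSpace α} {f : α → ℝ} (hf : Measurable f) (x y : ℝ) :
    Measurable (fun ω => (if f ω ≤ 0 then x else y : ℝ)) :=
  Measurable.ite (measurableSet_le hf measurable_const) measurable_const measurable_const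

theorem Par.facS_meas (π : Par) (hd : 2 ≤ d) (c : Cst K) (j : ℕ) (a b : Pt d) (i : ℕ) (y z : ℝ)
    (x : Pt d) :
    Measurable[bandAlg h (π.sc j) (π.sc (j + 1))] (fun ω =>
      ENNReal.ofReal ((if π.C hd c h j a b i ω ≤ 0 then y else z) *
        Real.exp (π.ξ * bnd h (π.sc j) (π.sc (j + 1)) x ω))) := by
  apply ENNReal.measurable_ofReal.comp
  apply Measurable.mul
  · exact ite_meas (π.C_meas_band hd c j a b i) y z
  · exact Real.measurable_exp.comp ((meas_bandAlg _ _ x).const_mul _)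

theorem Par.fac_joint (π : Par) (hd : 2 ≤ d) (c : Cst K) (hh : IsField K P h) (j : ℕ)
    (a b : Pt d) (i : ℕ) (y z : ℝ) :
    Measurable (fun p : Pt d × Ω =>
      ENNReal.ofReal ((if π.C hd c h j a b i p.2 ≤ 0 then y else z) *
        Real.exp (π.ξ * bnd h (π.sc j) (π.sc (j + 1)) p.1 p.2))) := by
  apply ENNReal.measurable_ofReal.comp
  apply Measurable.mul
  · have h1 : Measurable (π.C hd c h j a b i) :=
      (π.C_meas_band hd c j a b i).mono (bandAlg_le hh _ _) le_rfl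
    exact ite_meas (h1.comp measurable_snd) y z
  · exact Real.measurable_exp.comp ((hh.joint_bnd _ _).const_mul _)

theorem sc_le (π : Par) (j : ℕ) : π.sc j ≤ π.sc (j + 1) := by
  unfold Par.sc
  have : j * π.k0 ≤ (j + 1) * π.k0 := Nat.mul_le_mul_right _ (by omega)
  omega

theorem Ad.wS (π : Par) (hd : 2 ≤ d) (c : Cst K) (hh : IsField K P h) {j N n : ℕ} (a b : Pt d)
    (i : ℕ) {w : Pt d → Ω → ℝ≥0∞} (hw : Ad h (π.sc j) N n w) :
    Ad h (π.sc (j + 1)) N n (π.wS hd c h j a b i w) := by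
  constructor
  · intro x
    apply Measurable.mul
    · exact (hw.1 x).mono (past_mono (sc_le π j)) le_rfl
    · exact (π.facS_meas hd c j a b i 1 0 x).mono (bandAlg_le_past (sc_le π j)) le_rfl
  · exact hw.2.mul (π.fac_joint hd c hh j a b i 1 0)

theorem Ad.wB (π : Par) (hd : 2 ≤ d) (c : Cst K) (hh : IsField K P h) {j N n : ℕ} (a b : Pt d)
    (i : ℕ) {w : Pt d → Ω → ℝ≥0∞} (hw : Ad h (π.sc j) N n w) :
    Ad h (π.sc (j + 1)) N n (π.wB hd c h j a b i w) := by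
  constructor
  · intro x
    apply Measurable.mul
    · exact (hw.1 x).mono (past_mono (sc_le π j)) le_rfl
    · exact (π.facS_meas hd c j a b i 0 1 x).mono (bandAlg_le_past (sc_le π j)) le_rfl
  · exact hw.2.mul (π.fac_joint hd c hh j a b i 0 1)

theorem cost_meas (π : Par) (hd : 2 ≤ d) (c : Cst K) (hh : IsField K P h) (k : ℕ) :
    ∀ (j : ℕ) (a b : Pt d) (w : Pt d → Ω → ℝ≥0∞), Measurable (fun p : Pt d × Ω => w p.1 p.2) →
      Measurable (cost π hd c h k j a b w) := by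
  induction k with
  | zero =>
    intro j a b w hw
    simp only [cost]
    apply Measurable.const_mul
    have h1 : Measurable (fun p : Ω × ℝ => w (a + p.2 • (b - a)) p.1) := by
      have h2 : Measurable (fun p : Ω × ℝ => ((a + p.2 • (b - a), p.1) : Pt d × Ω)) := by
        fun_prop
      exact hw.comp h2
    exact h1.lintegral_prod_right'
  | succ k ih =>
    intro j a b w hw
    simp only [cost]
    apply Finset.measurable_sum
    intro i _
    have hS : Measurable (fun p : Pt d × Ω => π.wS hd c h j a b i w p.1 p.2) :=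
      hw.mul (π.fac_joint hd c hh j a b i 1 0)
    have hB : Measurable (fun p : Pt d × Ω => π.wB hd c h j a b i w p.1 p.2) :=
      hw.mul (π.fac_joint hd c hh j a b i 0 1)
    exact (((ih _ _ _ _ hS).add (ih _ _ _ _ hS)).add (ih _ _ _ _ hS)).add
      (((ih _ _ _ _ hB).add (ih _ _ _ _ hB)).add (ih _ _ _ _ hB))

/-- conditions on the parameters -/
structure Good (π : Par) (c : Cst K) (σ V : ℝ) : Prop where
  hk : 2 ≤ π.k0
  hwid : 2 * c.H * (1 / 2) ^ π.k0 ≤ 1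
  hwidρ : 2 * c.H * (1 / 2) ^ π.k0 ≤ c.ρ / 4
  hℓ : 8 * (c.D + 1) ≤ π.ℓ
  hI0 : 0 < π.I
  hI1 : 4 * π.ℓ / c.ρ ≤ π.I
  hξ : 0 < π.ξ
  hσ0 : 0 ≤ σ
  hσ1 : σ ≤ 1
  hV : (π.I + 1) * (2 * (((π.k0 : ℝ) * Real.log 2) * (4 * c.D * π.I / π.ℓ + 1))) ≤ V
  hσ : σ * √V ≤ π.ξ * (Real.log 2 / 2)

section
variable {π : Par} {c : Cst K} {σ V : ℝ}

theorem Good.ℓ_pos (G : Good π c σ V) : 0 < π.ℓ := by
  have := G.hℓ
  have := c.D_pos
  linarith

theorem Good.q_mul (G : Good π c σ V) (j : ℕ) {a b : Pt d} (hq : 0 < π.q j a b) :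
    (π.q j a b : ℝ) * ‖π.v j a b‖ = ‖b - a‖ := by
  unfold Par.v
  have : (0 : ℝ) < π.q j a b := by exact_mod_cast hq
  rw [norm_smul, Real.norm_of_nonneg (by positivity), ← mul_assoc, mul_inv_cancel₀ this.ne',
    one_mul]

theorem Good.v_ge (G : Good π c σ V) (j : ℕ) {a b : Pt d} (hq : 0 < π.q j a b) :
    π.ℓ * π.u j ≤ ‖π.v j a b‖ := by
  have hq' : (0 : ℝ) < π.q j a b := by exact_mod_cast hq
  have h1 := G.q_mul j hq
  have h0 : 0 < π.ℓ * π.u j := mul_pos G.ℓ_pos (π.u_pos j)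
  have h2 : (π.q j a b : ℝ) ≤ ‖b - a‖ / (π.ℓ * π.u j) :=
    Nat.floor_le (div_nonneg (norm_nonneg _) h0.le)
  rw [le_div_iff₀ h0, ← h1] at h2
  exact le_of_mul_le_mul_left h2 hq'

theorem Good.v_le (G : Good π c σ V) (j : ℕ) {a b : Pt d} (hq : 0 < π.q j a b) :
    ‖π.v j a b‖ ≤ 2 * π.ℓ * π.u j := by
  have hq' : (0 : ℝ) < π.q j a b := by exact_mod_cast hq
  have h1 := G.q_mul j hq
  have h0 : 0 < π.ℓ * π.u j := mul_pos G.ℓ_pos (π.u_pos j)
  have h2 : ‖b - a‖ / (π.ℓ * π.u j) < π.q j a b + 1 := Nat.lt_floor_add_one _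
  rw [div_lt_iff₀ h0, ← h1] at h2
  have h3 : (1 : ℝ) ≤ π.q j a b := by exact_mod_cast hq
  have h4 : (π.q j a b : ℝ) * ‖π.v j a b‖ ≤ π.q j a b * (2 * π.ℓ * π.u j) := by nlinarith
  exact le_of_mul_le_mul_left h4 hq'

theorem Good.piece (G : Good π c σ V) (hd : 2 ≤ d) (j : ℕ) {a b : Pt d} (hq : 0 < π.q j a b)
    (i : ℕ) :
    Piece c (π.sc j) π.ℓ (2 * c.H * (1 / 2) ^ π.k0) π.I (π.p j a b i) (π.v j a b)
      (nrm hd (π.v j a b)) where
  hn := nrm_norm hd _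
  hvn := nrm_inner hd _
  hℓ := G.hℓ
  hw0 := by have := c.H_pos; positivity
  hw1 := G.hwid
  hwρ := G.hwidρ
  hv1 := G.v_ge j hq
  hv2 := G.v_le j hq
  hI0 := G.hI0
  hI1 := G.hI1

theorem Good.sc_lt (G : Good π c σ V) (j : ℕ) : π.sc j + 1 ≤ π.sc (j + 1) := by
  have := G.hk
  unfold Par.sc
  have : (j + 1) * π.k0 = j * π.k0 + π.k0 := by ring
  omega

theorem Good.hu (G : Good π c σ V) (j : ℕ) :
    2 * c.H * π.u (j + 1) = 2 * c.H * (1 / 2) ^ π.k0 * (1 / 2) ^ (π.sc j) := by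
  rw [π.u_succ]; unfold Par.u; ring

theorem Good.half (G : Good π c σ V) (j : ℕ) : 4 * π.u (j + 1) ≤ π.u j := by
  rw [π.u_succ]
  have h1 : (1 / 2 : ℝ) ^ π.k0 ≤ (1 / 2) ^ 2 := half_pow_le G.hk
  have := π.u_pos j
  nlinarith

/-- inclusion of the neighbourhoods -/
theorem Good.nb (G : Good π c σ V) (hd : 2 ≤ d) {j : ℕ} {a b : Pt d} {i : ℕ}
    (hi : i < π.q j a b) {x : Pt d} {t s : ℝ} (ht : t ∈ Icc (0 : ℝ) 1) (hs : s ∈ Icc (0 : ℝ) 1)
    (hx : ‖x - (π.p j a b i + t • π.v j a b + s • π.N hd c j a b)‖ ≤ 2 * c.H * π.u (j + 1)) :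
    x ∈ Nb a b (2 * c.H * π.u j) := by
  have hq : (0 : ℝ) < π.q j a b := by exact_mod_cast (Nat.zero_le i).trans_lt hi
  refine ⟨(i + t) / π.q j a b, ⟨?_, ?_⟩, ?_⟩
  · have := ht.1; positivity
  · rw [div_le_one hq]
    have : (i : ℝ) + 1 ≤ π.q j a b := by exact_mod_cast hi
    have := ht.2
    linarith
  · have h1 : x - (a + ((i + t) / (π.q j a b : ℝ)) • (b - a)) =
        (x - (π.p j a b i + t • π.v j a b + s • π.N hd c j a b)) + s • π.N hd c j a b := by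
      unfold Par.p Par.v
      rw [div_eq_mul_inv]
      module
    rw [h1]
    refine le_trans (norm_add_le _ _) ?_
    have h2 : ‖s • π.N hd c j a b‖ ≤ c.H * π.u j := by
      unfold Par.N
      rw [norm_smul, norm_smul, nrm_norm, mul_one, Real.norm_of_nonneg hs.1,
        Real.norm_of_nonneg (mul_pos c.H_pos (half_pow_pos _)).le]
      have h3 : 0 < c.H * π.u j := mul_pos c.H_pos (π.u_pos j)
      have h4 : c.H * (1 / 2) ^ π.sc j = c.H * π.u j := rfl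
      rw [h4]
      have := hs.2
      nlinarith
    have h5 := G.half j
    have h6 := c.H_pos
    have h7 := π.u_pos (j + 1)
    nlinarith

theorem mul_lintegral_fac (hh : IsField K P h) (hd : 2 ≤ d) {j N n : ℕ}
    (hjN : π.sc (j + 1) ≤ N) (hNn : N ≤ n) (a b : Pt d) (i : ℕ)
    {w : Pt d → Ω → ℝ≥0∞} (hw : Ad h (π.sc j) N n w) (y z : ℝ) (x : Pt d) {B : ℝ≥0∞} {F : ℝ}
    (h1 : ∫⁻ ω, w x ω ∂P ≤ B)
    (h2 : ∫⁻ ω, ENNReal.ofReal ((if π.C hd c h j a b i ω ≤ 0 then y else z) *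
        Real.exp (π.ξ * bnd h (π.sc j) (π.sc (j + 1)) x ω)) ∂P ≤ ENNReal.ofReal F) :
    ∫⁻ ω, w x ω * ENNReal.ofReal ((if π.C hd c h j a b i ω ≤ 0 then y else z) *
        Real.exp (π.ξ * bnd h (π.sc j) (π.sc (j + 1)) x ω)) ∂P ≤ B * ENNReal.ofReal F := by
  rw [past_mul hh (sc_le π j) hjN hNn (hw.1 x) (π.facS_meas hd c j a b i y z x)]
  gcongr

end

end Pool.Agent.Helper97.LogFPP
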