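import Pool.Agent.Helper97.LogFPP.Defs

set_option autoImplicit false

open MeasureTheory ProbabilityTheory Set Filter Topology

namespace Pool.Agent.Helper97.LogFPP

variable {d : ℕ}

/-- autocorrelation of the kernel -/
noncomputable def acf (K : Pt d → ℝ) (z : Pt d) : ℝ := ∫ v, K v * K (v + z)

theorem IsKernel.hasCompactSupport {K : Pt d → ℝ} (hK : IsKernel K) : HasCompactSupport K := by
  obtain ⟨r, hr, h⟩ := hK.support
  have hc : IsCompact (Metric.closedBall (0 : Pt d) (r * √d)) := isCompact_closedBall _ _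
  apply HasCompactSupport.intro hc
  intro x hx
  apply h
  intro hx'
  apply hx
  rw [mem_closedBall_zero_iff, EuclideanSpace.norm_eq]
  have h1 : ∑ i, ‖x i‖ ^ 2 ≤ ∑ _i : Fin d, r ^ 2 := by
    apply Finset.sum_le_sum
    intro i _
    have := hx' i
    simp only [PiLp.zero_apply, sub_zero] at this
    rw [Real.norm_eq_abs]
    exact pow_le_pow_left₀ (abs_nonneg _) this.le 2
  rw [Finset.sum_const, Finset.card_univ, Fintype.card_fin, nsmul_eq_mul] at h1
  calc √(∑ i, ‖x i‖ ^ 2) ≤ √((d : ℝ) * r ^ 2) := Real.sqrt_le_sqrt h1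
    _ = r * √d := by
      rw [mul_comm, Real.sqrt_mul (sq_nonneg r), Real.sqrt_sq hr.le]

theorem IsKernel.continuous {K : Pt d → ℝ} (hK : IsKernel K) : Continuous K := hK.smooth.continuous

theorem IsKernel.integrable_sq {K : Pt d → ℝ} (hK : IsKernel K) : Integrable (fun x => K x ^ 2) := by
  have h : Continuous (fun x => K x ^ 2) := hK.continuous.pow 2
  apply h.integrable_of_hasCompactSupport
  have := hK.hasCompactSupport
  apply this.mono
  intro x hx
  simp only [Function.mem_support, ne_eq] at hx ⊢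
  intro h0
  exact hx (by rw [h0]; ring)

theorem IsKernel.integrable_prod {K : Pt d → ℝ} (hK : IsKernel K) (z : Pt d) :
    Integrable (fun v => K v * K (v + z)) := by
  have h : Continuous (fun v => K v * K (v + z)) :=
    hK.continuous.mul (hK.continuous.comp (continuous_id.add continuous_const))
  apply h.integrable_of_hasCompactSupport
  exact hK.hasCompactSupport.mul_right

theorem acf_nonneg {K : Pt d → ℝ} (hK : IsKernel K) (z : Pt d) : 0 ≤ acf K z :=
  integral_nonneg fun _ => mul_nonneg (hK.nonneg _) (hK.nonneg _)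

theorem acf_zero {K : Pt d → ℝ} (hK : IsKernel K) : acf K 0 = 1 := by
  rw [← hK.norm, acf]
  congr 1
  funext v
  rw [add_zero]; ring

theorem acf_le_one {K : Pt d → ℝ} (hK : IsKernel K) (z : Pt d) : acf K z ≤ 1 := by
  have h1 : acf K z ≤ ∫ v, (K v ^ 2 + K (v + z) ^ 2) / 2 := by
    apply integral_mono (hK.integrable_prod z)
    · exact (hK.integrable_sq.add (hK.integrable_sq.comp_add_right z)).div_const 2
    · intro v
      have := sq_nonneg (K v - K (v + z))
      simp only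
      nlinarith
  rw [integral_div, integral_add hK.integrable_sq (hK.integrable_sq.comp_add_right z),
    integral_add_right_eq_self (fun v => K v ^ 2) z, hK.norm] at h1
  linarith

theorem acf_support {K : Pt d → ℝ} (hK : IsKernel K) :
    ∃ D : ℝ, 0 < D ∧ ∀ z, D ≤ ‖z‖ → acf K z = 0 := by
  have hc := hK.hasCompactSupport
  obtain ⟨R, hR⟩ := hc.isCompact.isBounded.subset_closedBall (0 : Pt d)
  refine ⟨2 * |R| + 1, by positivity, fun z hz => ?_⟩
  unfold acf
  have : ∀ v, K v * K (v + z) = 0 := by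
    intro v
    by_contra h
    have h1 : K v ≠ 0 := fun h0 => h (by rw [h0, zero_mul])
    have h2 : K (v + z) ≠ 0 := fun h0 => h (by rw [h0, mul_zero])
    have h3 : ‖v‖ ≤ R := by
      have := hR (subset_tsupport _ (Function.mem_support.2 h1))
      rwa [mem_closedBall_zero_iff] at this
    have h4 : ‖v + z‖ ≤ R := by
      have := hR (subset_tsupport _ (Function.mem_support.2 h2))
      rwa [mem_closedBall_zero_iff] at this
    have h5 : ‖z‖ ≤ ‖v + z‖ + ‖v‖ := by
      have : z = (v + z) - v := by abel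
      calc ‖z‖ = ‖(v + z) - v‖ := by rw [← this]
        _ ≤ _ := norm_sub_le _ _
    have := le_abs_self R
    linarith
  simp [this]

theorem acf_continuous {K : Pt d → ℝ} (hK : IsKernel K) : Continuous (acf K) := by
  have hc := hK.hasCompactSupport
  obtain ⟨M, hM⟩ := hc.exists_bound_of_continuous hK.continuous
  unfold acf
  apply continuous_of_dominated (bound := fun v => K v * M)
  · intro z
    exact (hK.integrable_prod z).aestronglyMeasurable
  · intro z
    refine ae_of_all _ fun v => ?_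
    rw [norm_mul, Real.norm_of_nonneg (hK.nonneg v)]
    exact mul_le_mul_of_nonneg_left (hM _) (hK.nonneg v)
  · have : Integrable K := hK.continuous.integrable_of_hasCompactSupport hc
    exact this.mul_const M
  · refine ae_of_all _ fun v => ?_
    have := hK.continuous
    fun_prop

theorem acf_near {K : Pt d → ℝ} (hK : IsKernel K) :
    ∃ ρ : ℝ, 0 < ρ ∧ ∀ z, ‖z‖ ≤ ρ → 1 / 2 ≤ acf K z := by
  have h1 := (acf_continuous hK).continuousAt (x := 0)
  have h2 : ∀ᶠ z in 𝓝 (0 : Pt d), 1 / 2 < acf K z := by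
    apply h1.eventually (lt_mem_nhds _)
    rw [acf_zero hK]; norm_num
  obtain ⟨ρ, hρ, h3⟩ := Metric.eventually_nhds_iff.1 h2
  refine ⟨ρ / 2, by positivity, fun z hz => (h3 ?_).le⟩
  rw [dist_zero_right]; linarith

theorem inner_integral {K : Pt d → ℝ} (x y : Pt d) {t : ℝ} (ht : 0 < t) :
    ∫ u : Pt d, K (t⁻¹ • (u - x)) * K (t⁻¹ • (u - y)) * (t ^ (d + 1))⁻¹ =
      t⁻¹ * acf K (t⁻¹ • (x - y)) := by
  have h1 : ∀ u : Pt d, K (t⁻¹ • (u - x)) * K (t⁻¹ • (u - y)) * (t ^ (d + 1))⁻¹ =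
      (t ^ (d + 1))⁻¹ * (fun v => K (t⁻¹ • v) * K (t⁻¹ • v + t⁻¹ • (x - y))) (u - x) := by
    intro u
    simp only
    rw [← smul_add]
    have : u - x + (x - y) = u - y := by abel
    rw [this]; ring
  simp_rw [h1]
  rw [integral_const_mul, integral_sub_right_eq_self
    (fun v => K (t⁻¹ • v) * K (t⁻¹ • v + t⁻¹ • (x - y))) x]
  have h2 := Measure.integral_comp_smul (volume : Measure (Pt d))
    (fun v => K v * K (v + t⁻¹ • (x - y))) t⁻¹
  rw [h2, finrank_euclideanSpace, Fintype.card_fin, smul_eq_mul]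
  unfold acf
  rw [inv_pow, inv_inv, abs_of_nonneg (by positivity)]
  have : t ≠ 0 := ht.ne'
  rw [pow_succ]
  field_simp

/-- the integral over the scales `(2^{-n}, 1]` -/
noncomputable def Isc (K : Pt d → ℝ) (n : ℕ) (z : Pt d) : ℝ :=
  ∫ t in Ioc ((1 / 2 : ℝ) ^ n) 1, t⁻¹ * acf K (t⁻¹ • z)

theorem half_pow_pos (n : ℕ) : (0 : ℝ) < (1 / 2) ^ n := by positivity

theorem IsField.cov_eq {K : Pt d → ℝ} {Ω : Type*} [MeasurableSpace Ω] {P : Measure Ω}
    {h : ℕ → Pt d → Ω → ℝ} (hh : IsField K P h) (m n : ℕ) (x y : Pt d) :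
    cov[h m x, h n y; P] = Isc K (min m n) (x - y) := by
  rw [hh.covar, Isc]
  apply setIntegral_congr_fun measurableSet_Ioc
  intro t ht
  exact inner_integral x y (lt_trans (half_pow_pos _) ht.1)

theorem integrableOn_scale {K : Pt d → ℝ} (hK : IsKernel K) (z : Pt d) {a b : ℝ} (ha : 0 < a) :
    IntegrableOn (fun t => t⁻¹ * acf K (t⁻¹ • z)) (Ioc a b) := by
  have hc : ContinuousOn (fun t : ℝ => t⁻¹ * acf K (t⁻¹ • z)) (Icc a b) := by
    have h1 : ContinuousOn (fun t : ℝ => t⁻¹) (Icc a b) :=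
      continuousOn_inv₀.mono fun t ht => (lt_of_lt_of_le ha ht.1).ne'
    apply h1.mul
    apply (acf_continuous hK).comp_continuousOn
    exact h1.smul continuousOn_const
  exact (hc.integrableOn_Icc).mono_set Ioc_subset_Icc_self

/-- covariance of the band of scales `(2^{-b}, 2^{-a}]` -/
noncomputable def Kb (K : Pt d → ℝ) (a b : ℕ) (z : Pt d) : ℝ :=
  ∫ t in Ioc ((1 / 2 : ℝ) ^ b) ((1 / 2) ^ a), t⁻¹ * acf K (t⁻¹ • z)

theorem half_pow_le {a b : ℕ} (h : a ≤ b) : (1 / 2 : ℝ) ^ b ≤ (1 / 2) ^ a :=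
  pow_le_pow_of_le_one (by norm_num) (by norm_num) h

theorem Isc_sub {K : Pt d → ℝ} (hK : IsKernel K) {a b : ℕ} (h : a ≤ b) (z : Pt d) :
    Isc K b z - Isc K a z = Kb K a b z := by
  unfold Isc Kb
  have h1 : Ioc ((1 / 2 : ℝ) ^ b) 1 = Ioc ((1 / 2 : ℝ) ^ b) ((1 / 2) ^ a) ∪
      Ioc ((1 / 2 : ℝ) ^ a) 1 :=
    (Ioc_union_Ioc_eq_Ioc (half_pow_le h) (pow_le_one₀ (by norm_num) (by norm_num))).symm
  rw [h1, setIntegral_union (Ioc_disjoint_Ioc_of_le le_rfl) measurableSet_Ioc
    (integrableOn_scale hK z (half_pow_pos b)) (integrableOn_scale hK z (half_pow_pos a))]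
  ring

theorem Kb_nonneg {K : Pt d → ℝ} (hK : IsKernel K) (a b : ℕ) (z : Pt d) : 0 ≤ Kb K a b z := by
  apply setIntegral_nonneg measurableSet_Ioc
  intro t ht
  exact mul_nonneg (inv_nonneg.2 (lt_trans (half_pow_pos _) ht.1).le) (acf_nonneg hK _)

theorem Kb_far {K : Pt d → ℝ} {D : ℝ} (hD : ∀ z, D ≤ ‖z‖ → acf K z = 0)
    (a b : ℕ) {z : Pt d} (hz : D * (1 / 2) ^ a ≤ ‖z‖) : Kb K a b z = 0 := by
  unfold Kb
  rw [setIntegral_congr_fun (g := fun _ => 0) measurableSet_Ioc]
  · simp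
  · intro t ht
    have ht0 : 0 < t := lt_trans (half_pow_pos _) ht.1
    simp only
    rw [hD, mul_zero]
    rw [norm_smul, Real.norm_of_nonneg (inv_nonneg.2 ht0.le), inv_mul_eq_div, le_div_iff₀ ht0]
    by_cases hD0 : 0 ≤ D
    · exact le_trans (mul_le_mul_of_nonneg_left ht.2 hD0) hz
    · push Not at hD0
      have : D * t ≤ 0 := by nlinarith
      linarith [norm_nonneg z]

theorem integral_inv_Ioc {a b : ℝ} (ha : 0 < a) (hab : a ≤ b) :
    ∫ t in Ioc a b, t⁻¹ = Real.log (b / a) := by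
  rw [← intervalIntegral.integral_of_le hab, integral_inv_of_pos ha (lt_of_lt_of_le ha hab)]

theorem integral_inv_scale {a b : ℕ} (h : a ≤ b) :
    ∫ t in Ioc ((1 / 2 : ℝ) ^ b) ((1 / 2) ^ a), t⁻¹ = ((b : ℝ) - a) * Real.log 2 := by
  rw [integral_inv_Ioc (half_pow_pos b) (half_pow_le h), Real.log_div (half_pow_pos a).ne'
    (half_pow_pos b).ne', Real.log_pow, Real.log_pow, Real.log_div one_ne_zero two_ne_zero,
    Real.log_one]
  ring

theorem integrableOn_inv {a b : ℝ} (ha : 0 < a) : IntegrableOn (fun t : ℝ => t⁻¹) (Ioc a b) := by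
  have h1 : ContinuousOn (fun t : ℝ => t⁻¹) (Icc a b) :=
      continuousOn_inv₀.mono fun t ht => (lt_of_lt_of_le ha ht.1).ne'
  exact (h1.integrableOn_Icc).mono_set Ioc_subset_Icc_self

theorem Kb_le {K : Pt d → ℝ} (hK : IsKernel K) {a b : ℕ} (h : a ≤ b) (z : Pt d) :
    Kb K a b z ≤ ((b : ℝ) - a) * Real.log 2 := by
  rw [← integral_inv_scale h]
  unfold Kb
  apply setIntegral_mono_on (integrableOn_scale hK z (half_pow_pos b))
    (integrableOn_inv (half_pow_pos b)) measurableSet_Ioc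
  intro t ht
  have ht0 : 0 < t := lt_trans (half_pow_pos _) ht.1
  exact mul_le_of_le_one_right (inv_nonneg.2 ht0.le) (acf_le_one hK _)

theorem Kb_zero {K : Pt d → ℝ} (hK : IsKernel K) {a b : ℕ} (h : a ≤ b) :
    Kb K a b 0 = ((b : ℝ) - a) * Real.log 2 := by
  rw [← integral_inv_scale h]
  unfold Kb
  simp [acf_zero hK]

theorem Kb_near {K : Pt d → ℝ} (hK : IsKernel K) {ρ : ℝ} (hρ : ∀ z, ‖z‖ ≤ ρ → 1 / 2 ≤ acf K z)
    {a b : ℕ} (h : a + 1 ≤ b) {z : Pt d} (hz : ‖z‖ ≤ ρ / 2 * (1 / 2) ^ a) :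
    Real.log 2 / 2 ≤ Kb K a b z := by
  have h1 : ∫ t in Ioc ((1 / 2 : ℝ) ^ (a + 1)) ((1 / 2) ^ a), t⁻¹ * acf K (t⁻¹ • z) ≤
      Kb K a b z := by
    unfold Kb
    apply setIntegral_mono_set (integrableOn_scale hK z (half_pow_pos b))
    · refine (ae_restrict_iff' measurableSet_Ioc).2 (ae_of_all _ fun t ht => ?_)
      exact mul_nonneg (inv_nonneg.2 (lt_trans (half_pow_pos _) ht.1).le) (acf_nonneg hK _)
    · exact (Ioc_subset_Ioc_left (half_pow_le h)).eventuallyLE
  refine le_trans ?_ h1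
  have h2 : ∫ t in Ioc ((1 / 2 : ℝ) ^ (a + 1)) ((1 / 2) ^ a), t⁻¹ * (1 / 2) = Real.log 2 / 2 := by
    rw [integral_mul_const, integral_inv_scale (Nat.le_succ a)]
    push_cast; ring
  rw [← h2]
  apply setIntegral_mono_on ((integrableOn_inv (half_pow_pos _)).mul_const _)
    (integrableOn_scale hK z (half_pow_pos _)) measurableSet_Ioc
  intro t ht
  have ht0 : 0 < t := lt_trans (half_pow_pos _) ht.1
  apply mul_le_mul_of_nonneg_left _ (inv_nonneg.2 ht0.le)
  apply hρ
  rw [norm_smul, Real.norm_of_nonneg (inv_nonneg.2 ht0.le), inv_mul_eq_div, div_le_iff₀ ht0]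
  have h3 : (1 / 2 : ℝ) ^ a ≤ 2 * t := by
    have := ht.1
    rw [pow_succ] at this
    linarith
  have hρ0 : 0 ≤ ρ := by
    by_contra hneg
    push Not at hneg
    have h4 : 0 < (1 / 2 : ℝ) ^ a := half_pow_pos a
    nlinarith [norm_nonneg z]
  nlinarith

end Pool.Agent.Helper97.LogFPP
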