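import Mathlib

/-!
# First passage percolation in a log-correlated Gaussian field: definitions

The field `h_n`, the lengths of paths and the distances `D_n` of the problem.
-/

set_option autoImplicit false

open MeasureTheory ProbabilityTheory Set Filter Topology

namespace Pool.Agent.Helper97.LogFPP

/-- `ℝ^d` with its Euclidean norm. -/
abbrev Pt (d : ℕ) := EuclideanSpace ℝ (Fin d)

/-- The open cube `B_r(x) = x + (-r, r)^d`. -/
def Box {d : ℕ} (r : ℝ) (x : Pt d) : Set (Pt d) := {y | ∀ i, |y i - x i| < r}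

/-- Admissible kernels: smooth, nonnegative, radially symmetric, supported in some cube `B_r(0)`,
with square integral one. -/
structure IsKernel {d : ℕ} (K : Pt d → ℝ) : Prop where
  smooth : ContDiff ℝ ((⊤ : ℕ∞) : WithTop ℕ∞) K
  nonneg : ∀ x, 0 ≤ K x
  radial : ∀ x y, ‖x‖ = ‖y‖ → K x = K y
  support : ∃ r : ℝ, 0 < r ∧ ∀ x, x ∉ Box r 0 → K x = 0
  norm : ∫ x, K x ^ 2 = 1

/-- `h n x` (`n ∈ ℕ`, `x ∈ ℝ^d`) are the white noise integrals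
`∫ ∫_{2^{-n} < t ≤ 1} K ((u - x) / t) t^{-(d+1)/2} W(du, dt)`: a centred Gaussian family with
`E (h m x * h n y) = ∫_{2^{-min(m,n)} < t ≤ 1} ∫ K ((u - x) / t) K ((u - y) / t) t^{-(d+1)} du dt`,
and `x ↦ h n x` is smooth. -/
structure IsField {d : ℕ} (K : Pt d → ℝ) {Ω : Type*} [MeasurableSpace Ω] (P : Measure Ω)
    (h : ℕ → Pt d → Ω → ℝ) : Prop where
  meas : ∀ n x, Measurable (h n x)
  gaussian : IsGaussianProcess (fun p : ℕ × Pt d => h p.1 p.2) P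
  mean : ∀ n x, ∫ ω, h n x ω ∂P = 0
  covar : ∀ m n x y, cov[h m x, h n y; P] =
    ∫ t in Ioc ((1 / 2 : ℝ) ^ (min m n)) 1,
      ∫ u : Pt d, K (t⁻¹ • (u - x)) * K (t⁻¹ • (u - y)) * (t ^ (d + 1))⁻¹
  smooth : ∀ n ω, ContDiff ℝ ((⊤ : ℕ∞) : WithTop ℕ∞) (fun x => h n x ω)

/-- `γ` restricted to `[0,1]` is a piecewise continuously differentiable path in `U` from `z` to
`w`. -/
structure IsPath {d : ℕ} (U : Set (Pt d)) (z w : Pt d) (γ : ℝ → Pt d) : Prop where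
  cont : ContinuousOn γ (Icc 0 1)
  piecewise : ∃ (N : ℕ) (t : ℕ → ℝ), t 0 = 0 ∧ t N = 1 ∧ (∀ i < N, t i < t (i + 1)) ∧
    ∀ i < N, ContDiffOn ℝ 1 γ (Icc (t i) (t (i + 1)))
  mem : ∀ s ∈ Icc (0 : ℝ) 1, γ s ∈ U
  start : γ 0 = z
  finish : γ 1 = w

/-- The length `∫_0^1 e^{ξ f(γ(s))} |γ'(s)| ds` of a path. -/
noncomputable def len {d : ℕ} (ξ : ℝ) (f : Pt d → ℝ) (γ : ℝ → Pt d) : ℝ :=
  ∫ s in (0 : ℝ)..1, Real.exp (ξ * f (γ s)) * ‖deriv γ s‖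

/-- The distance of `z` and `w` in `U`: the infimum of the lengths of the paths in `U` from `z` to
`w`. -/
noncomputable def fdist {d : ℕ} (ξ : ℝ) (f : Pt d → ℝ) (U : Set (Pt d)) (z w : Pt d) : ℝ :=
  sInf {c | ∃ γ, IsPath U z w γ ∧ c = len ξ f γ}

/-- The first standard basis vector. -/
noncomputable def e1 (d : ℕ) [NeZero d] : Pt d := EuclideanSpace.single 0 1

/-- `m` is a median of `X`. -/
def IsMedian {Ω : Type*} [MeasurableSpace Ω] (P : Measure Ω) (X : Ω → ℝ) (m : ℝ) : Prop :=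
  1 / 2 ≤ P {ω | X ω ≤ m} ∧ 1 / 2 ≤ P {ω | m ≤ X ω}

/-- `Q` is the exponent of the field at the parameter `ξ`: the medians `λ_n` (`n ≥ 1`) of
`D_n(0, e_1; B_2(0))` satisfy `λ_n = 2^{-(1 - ξ Q) n + o(n)}`. -/
def IsExponent {d : ℕ} [NeZero d] {Ω : Type*} [MeasurableSpace Ω] (P : Measure Ω)
    (h : ℕ → Pt d → Ω → ℝ) (ξ Q : ℝ) : Prop :=
  ∃ lam : ℕ → ℝ, (∀ n, 1 ≤ n →
      IsMedian P (fun ω => fdist ξ (fun x => h n x ω) (Box 2 0) 0 (e1 d)) (lam n)) ∧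
    ∃ o : ℕ → ℝ, Tendsto (fun n => o n / n) atTop (𝓝 0) ∧
      ∀ n : ℕ, 1 ≤ n → lam n = (2 : ℝ) ^ (-(1 - ξ * Q) * n + o n)

end Pool.Agent.Helper97.LogFPP
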