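import Pool.Agent.Helper97.LogFPP.Cost

set_option autoImplicit false
set_option maxHeartbeats 400000

open MeasureTheory ProbabilityTheory Set Filter Topology
open scoped NNReal ENNReal RealInnerProductSpace

namespace Pool.Agent.Helper97.LogFPP

variable {d : ℕ} {K : Pt d → ℝ} {Ω : Type*} {mΩ : MeasurableSpace Ω} {P : Measure Ω}
  {h : ℕ → Pt d → Ω → ℝ} {π : Par} {c : Cst K} {σ V : ℝ}

/-- the exponential moment of a band -/
noncomputable def Par.E (π : Par) : ℝ := Real.exp (π.ξ ^ 2 * (π.k0 * Real.log 2) / 2)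

theorem Par.E_pos (π : Par) : 0 < π.E := Real.exp_pos _

theorem Par.sc_sub (π : Par) (j : ℕ) : ((π.sc (j + 1) : ℝ) - π.sc j) = π.k0 := by
  unfold Par.sc; push_cast; ring

theorem Good.var_V (G : Good π c σ V) (hh : IsField K P h) (hK : IsKernel K) (hd : 2 ≤ d)
    (j : ℕ) {a b : Pt d} (hq : 0 < π.q j a b) (i : ℕ) :
    σ * √(Var[π.C hd c h j a b i; P]) ≤ π.ξ * (Real.log 2 / 2) := by
  refine le_trans ?_ G.hσ
  apply mul_le_mul_of_nonneg_left _ G.hσ0
  apply Real.sqrt_le_sqrt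
  refine le_trans ?_ G.hV
  have h1 := (G.piece hd j hq i).var_le hh hK (sc_le π j) (π.N hd c j a b)
  rw [π.sc_sub] at h1
  exact h1

theorem Good.F_line (G : Good π c σ V) (hh : IsField K P h) (hK : IsKernel K) (hd : 2 ≤ d)
    (j : ℕ) {a b : Pt d} (hq : 0 < π.q j a b) (i : ℕ) {x : Pt d} {t : ℝ}
    (hx : ‖x - (π.p j a b i + t • π.v j a b)‖ ≤ 2 * c.H * π.u (j + 1)) :
    ∫⁻ ω, ENNReal.ofReal ((if π.C hd c h j a b i ω ≤ 0 then 1 else 0) *
        Real.exp (π.ξ * bnd h (π.sc j) (π.sc (j + 1)) x ω)) ∂P ≤ ENNReal.ofReal (π.E * (1 / 2)) := by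
  have hP := G.piece hd j hq i
  rw [G.hu] at hx
  have h1 := hP.cc_line (b := π.sc (j + 1)) hK hx
  have h2 := hP.fac_straight hh hK (G.sc_lt j) G.hξ.le le_rfl zero_le_one (x := x)
    (by rw [zero_mul]; exact mul_nonneg G.hξ.le h1) h1
  rw [π.sc_sub, mul_zero, sub_zero] at h2
  exact h2

theorem Good.F_mid (G : Good π c σ V) (hh : IsField K P h) (hK : IsKernel K) (hd : 2 ≤ d)
    (j : ℕ) {a b : Pt d} (hq : 0 < π.q j a b) (i : ℕ) {x : Pt d} {t : ℝ} (ht : t ∈ Icc (0 : ℝ) 1)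
    (hx : ‖x - (π.p j a b i + (1 / 4 : ℝ) • π.v j a b + t • ((1 / 2 : ℝ) • π.v j a b))‖ ≤
      2 * c.H * π.u (j + 1)) :
    ∫⁻ ω, ENNReal.ofReal ((if π.C hd c h j a b i ω ≤ 0 then 1 else 0) *
        Real.exp (π.ξ * bnd h (π.sc j) (π.sc (j + 1)) x ω)) ∂P ≤
      ENNReal.ofReal (π.E * ((1 - p1 * σ) / 2)) := by
  have hP := G.piece hd j hq i
  rw [G.hu] at hx
  have h1 := hP.cc_mid (b := π.sc (j + 1)) hK (G.sc_lt j) ht hx
  have hlog : 0 < Real.log 2 := Real.log_pos (by norm_num)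
  have h3 := G.var_V hh hK hd j hq i
  have h2 := hP.fac_straight hh hK (G.sc_lt j) G.hξ.le G.hσ0 G.hσ1 (x := x)
    (h3.trans (mul_le_mul_of_nonneg_left h1 G.hξ.le)) (by linarith)
  rw [π.sc_sub] at h2
  exact h2

theorem Good.F_top (G : Good π c σ V) (hh : IsField K P h) (hK : IsKernel K) (hd : 2 ≤ d)
    (j : ℕ) {a b : Pt d} (hq : 0 < π.q j a b) (i : ℕ) {x : Pt d} {t : ℝ} (ht : t ∈ Icc (0 : ℝ) 1)
    (hx : ‖x - (π.p j a b i + (1 / 4 : ℝ) • π.v j a b + t • ((1 / 2 : ℝ) • π.v j a b) +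
      π.N hd c j a b)‖ ≤ 2 * c.H * π.u (j + 1)) :
    ∫⁻ ω, ENNReal.ofReal ((if π.C hd c h j a b i ω ≤ 0 then 0 else 1) *
        Real.exp (π.ξ * bnd h (π.sc j) (π.sc (j + 1)) x ω)) ∂P ≤
      ENNReal.ofReal (π.E * ((1 - p1 * σ) / 2)) := by
  have hP := G.piece hd j hq i
  rw [G.hu] at hx
  have h1 := hP.cc_top (b := π.sc (j + 1)) hK (G.sc_lt j) ht hx
  have hlog : 0 < Real.log 2 := Real.log_pos (by norm_num)
  have h3 := G.var_V hh hK hd j hq i
  have h1' : Real.log 2 / 2 ≤ -cc K (π.sc j) (π.sc (j + 1)) (π.p j a b i) (π.v j a b)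
      ((c.H * (1 / 2) ^ (π.sc j)) • nrm hd (π.v j a b)) π.I x := by linarith
  have h2 := hP.fac_bump hh hK (G.sc_lt j) G.hξ.le G.hσ0 G.hσ1 (x := x)
    (h3.trans (mul_le_mul_of_nonneg_left h1' G.hξ.le)) (by linarith)
  rw [π.sc_sub] at h2
  exact h2

theorem Good.F_ramp1 (G : Good π c σ V) (hh : IsField K P h) (hK : IsKernel K) (hd : 2 ≤ d)
    (j : ℕ) {a b : Pt d} (hq : 0 < π.q j a b) (i : ℕ) {x : Pt d} {t : ℝ} (ht : t ∈ Icc (0 : ℝ) 1)
    (hx : ‖x - (π.p j a b i + t • ((1 / 4 : ℝ) • π.v j a b + π.N hd c j a b))‖ ≤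
      2 * c.H * π.u (j + 1)) :
    ∫⁻ ω, ENNReal.ofReal ((if π.C hd c h j a b i ω ≤ 0 then 0 else 1) *
        Real.exp (π.ξ * bnd h (π.sc j) (π.sc (j + 1)) x ω)) ∂P ≤
      ENNReal.ofReal (π.E * (1 / 2)) := by
  have hP := G.piece hd j hq i
  rw [G.hu] at hx
  have h1 := hP.cc_ramp1 (b := π.sc (j + 1)) hK ht hx
  have h2 := hP.fac_bump hh hK (G.sc_lt j) G.hξ.le le_rfl zero_le_one (x := x)
    (by rw [zero_mul]; exact mul_nonneg G.hξ.le (neg_nonneg.2 h1)) h1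
  rw [π.sc_sub, mul_zero, sub_zero] at h2
  exact h2

theorem Good.F_ramp2 (G : Good π c σ V) (hh : IsField K P h) (hK : IsKernel K) (hd : 2 ≤ d)
    (j : ℕ) {a b : Pt d} (hq : 0 < π.q j a b) (i : ℕ) {x : Pt d} {t : ℝ} (ht : t ∈ Icc (0 : ℝ) 1)
    (hx : ‖x - (π.p j a b i + (3 / 4 : ℝ) • π.v j a b + π.N hd c j a b +
      t • ((1 / 4 : ℝ) • π.v j a b - π.N hd c j a b))‖ ≤ 2 * c.H * π.u (j + 1)) :
    ∫⁻ ω, ENNReal.ofReal ((if π.C hd c h j a b i ω ≤ 0 then 0 else 1) *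
        Real.exp (π.ξ * bnd h (π.sc j) (π.sc (j + 1)) x ω)) ∂P ≤
      ENNReal.ofReal (π.E * (1 / 2)) := by
  have hP := G.piece hd j hq i
  rw [G.hu] at hx
  have h1 := hP.cc_ramp2 (b := π.sc (j + 1)) hK ht hx
  have h2 := hP.fac_bump hh hK (G.sc_lt j) G.hξ.le le_rfl zero_le_one (x := x)
    (by rw [zero_mul]; exact mul_nonneg G.hξ.le (neg_nonneg.2 h1)) h1
  rw [π.sc_sub, mul_zero, sub_zero] at h2
  exact h2

/-- the contraction factor of one band -/
noncomputable def Par.Θ (π : Par) (H σ : ℝ) : ℝ :=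
  π.E * (1 - p1 * σ / 2 + 2 * (H / π.ℓ) ^ 2)

theorem Good.ramp_norm (G : Good π c σ V) (hd : 2 ≤ d) (j : ℕ) {a b : Pt d}
    (hq : 0 < π.q j a b) (ε : ℝ) (hε : ε ^ 2 = 1) :
    ‖(1 / 4 : ℝ) • π.v j a b + ε • π.N hd c j a b‖ ≤
      (1 / 4 + 2 * (c.H / π.ℓ) ^ 2) * ‖π.v j a b‖ := by
  have h1 := G.v_ge j hq
  have hℓ := G.ℓ_pos
  have hH := c.H_pos
  have hu := π.u_pos j
  set v := π.v j a b with hv
  have h2 : ‖(1 / 4 : ℝ) • v + ε • π.N hd c j a b‖ ^ 2 = (1 / 4 * ‖v‖) ^ 2 + (c.H * π.u j) ^ 2 := by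
    rw [norm_add_sq_real, norm_smul, norm_smul, inner_smul_left, inner_smul_right]
    have h3 : ⟪v, π.N hd c j a b⟫ = 0 := by
      unfold Par.N
      rw [inner_smul_right, nrm_inner, mul_zero]
    rw [h3]
    have h4 : ‖π.N hd c j a b‖ = c.H * π.u j := by
      unfold Par.N
      rw [norm_smul, nrm_norm, mul_one, Real.norm_of_nonneg (mul_pos hH (half_pow_pos _)).le]
      rfl
    rw [h4, mul_pow ‖ε‖, Real.norm_eq_abs ε, sq_abs, hε]
    rw [Real.norm_of_nonneg (by norm_num : (0:ℝ) ≤ 1 / 4)]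
    ring
  apply (sq_le_sq₀ (norm_nonneg _) (by positivity)).1
  rw [h2]
  have h5 : (c.H * π.u j) ^ 2 ≤ (c.H / π.ℓ) ^ 2 * ‖v‖ ^ 2 := by
    have h6 : c.H * π.u j = c.H / π.ℓ * (π.ℓ * π.u j) := by field_simp
    rw [h6, mul_pow]
    apply mul_le_mul_of_nonneg_left _ (sq_nonneg _)
    exact pow_le_pow_left₀ (mul_pos hℓ hu).le h1 2
  have h7 : 0 ≤ ((c.H / π.ℓ) ^ 2) ^ 2 * ‖v‖ ^ 2 := by positivity
  nlinarith

theorem Good.piece_total (G : Good π c σ V) (hd : 2 ≤ d) (j : ℕ) {a b : Pt d}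
    (hq : 0 < π.q j a b) (A : ℝ≥0∞) {T1 T2 T3 T4 T5 T6 : ℝ≥0∞}
    (h1 : T1 ≤ A * ENNReal.ofReal (π.E * (1 / 2)) * ENNReal.ofReal (1 / 4 * ‖π.v j a b‖))
    (h2 : T2 ≤ A * ENNReal.ofReal (π.E * ((1 - p1 * σ) / 2)) *
      ENNReal.ofReal (1 / 2 * ‖π.v j a b‖))
    (h3 : T3 ≤ A * ENNReal.ofReal (π.E * (1 / 2)) * ENNReal.ofReal (1 / 4 * ‖π.v j a b‖))
    (h4 : T4 ≤ A * ENNReal.ofReal (π.E * (1 / 2)) *
      ENNReal.ofReal ((1 / 4 + 2 * (c.H / π.ℓ) ^ 2) * ‖π.v j a b‖))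
    (h5 : T5 ≤ A * ENNReal.ofReal (π.E * ((1 - p1 * σ) / 2)) *
      ENNReal.ofReal (1 / 2 * ‖π.v j a b‖))
    (h6 : T6 ≤ A * ENNReal.ofReal (π.E * (1 / 2)) *
      ENNReal.ofReal ((1 / 4 + 2 * (c.H / π.ℓ) ^ 2) * ‖π.v j a b‖)) :
    (T1 + T2 + T3) + (T4 + T5 + T6) ≤
      A * ENNReal.ofReal (π.Θ c.H σ) * ENNReal.ofReal ‖π.v j a b‖ := by
  have hE := π.E_pos
  have hp : 0 ≤ 1 - p1 * σ := by
    have := p1_le
    have := p1_pos
    have := G.hσ0
    have := G.hσ1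
    nlinarith
  have hv := norm_nonneg (π.v j a b)
  have hΘ : π.Θ c.H σ * ‖π.v j a b‖ =
      (π.E * (1 / 2) * (1 / 4 * ‖π.v j a b‖) + π.E * ((1 - p1 * σ) / 2) * (1 / 2 * ‖π.v j a b‖) +
      π.E * (1 / 2) * (1 / 4 * ‖π.v j a b‖)) +
      (π.E * (1 / 2) * ((1 / 4 + 2 * (c.H / π.ℓ) ^ 2) * ‖π.v j a b‖) +
      π.E * ((1 - p1 * σ) / 2) * (1 / 2 * ‖π.v j a b‖) +
      π.E * (1 / 2) * ((1 / 4 + 2 * (c.H / π.ℓ) ^ 2) * ‖π.v j a b‖)) := by
    unfold Par.Θ; ring
  have hΘ0 : 0 ≤ π.Θ c.H σ := by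
    unfold Par.Θ
    apply mul_nonneg hE.le
    have : 0 ≤ 2 * (c.H / π.ℓ) ^ 2 := by positivity
    linarith
  rw [mul_assoc, ← ENNReal.ofReal_mul hΘ0, hΘ]
  rw [ENNReal.ofReal_add (by positivity) (by positivity),
    ENNReal.ofReal_add (by positivity) (by positivity),
    ENNReal.ofReal_add (by positivity) (by positivity),
    ENNReal.ofReal_add (by positivity) (by positivity),
    ENNReal.ofReal_add (by positivity) (by positivity)]
  simp only [mul_add]
  have e1 : ∀ x y : ℝ, 0 ≤ x → A * ENNReal.ofReal x * ENNReal.ofReal y =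
      A * ENNReal.ofReal (x * y) := by
    intro x y hx
    rw [mul_assoc, ENNReal.ofReal_mul hx]
  rw [e1 _ _ (by positivity)] at h1 h2 h3 h4 h5 h6
  gcongr

theorem lintegral_six {Ω : Type*} {mΩ : MeasurableSpace Ω} {P : Measure Ω}
    {f1 f2 f3 f4 f5 f6 : Ω → ℝ≥0∞} (h1 : Measurable f1)
    (h2 : Measurable f2) (h3 : Measurable f3) (h4 : Measurable f4) (h5 : Measurable f5) :
    ∫⁻ ω, ((f1 ω + f2 ω + f3 ω) + (f4 ω + f5 ω + f6 ω)) ∂P =
      (∫⁻ ω, f1 ω ∂P + ∫⁻ ω, f2 ω ∂P + ∫⁻ ω, f3 ω ∂P) +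
      (∫⁻ ω, f4 ω ∂P + ∫⁻ ω, f5 ω ∂P + ∫⁻ ω, f6 ω ∂P) := by
  have e1 := lintegral_add_left (μ := P) (f := fun ω => f1 ω + f2 ω + f3 ω) ((h1.add h2).add h3)
    (fun ω => f4 ω + f5 ω + f6 ω)
  have e2 := lintegral_add_left (μ := P) (f := fun ω => f1 ω + f2 ω) (h1.add h2) f3
  have e3 := lintegral_add_left (μ := P) (f := f1) h1 f2
  have e4 := lintegral_add_left (μ := P) (f := fun ω => f4 ω + f5 ω) (h4.add h5) f6
  have e5 := lintegral_add_left (μ := P) (f := f4) h4 f5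
  rw [e1, e2, e3, e4, e5]

theorem cost_exp (G : Good π c σ V) (hh : IsField K P h) (hK : IsKernel K) (hd : 2 ≤ d)
    {N n : ℕ} (hNn : N ≤ n) (k : ℕ) :
    ∀ (j : ℕ) (a b : Pt d) (w : Pt d → Ω → ℝ≥0∞) (B : ℝ≥0∞), π.sc (j + k) ≤ N →
      Ad h (π.sc j) N n w → (∀ x ∈ Nb a b (2 * c.H * π.u j), ∫⁻ ω, w x ω ∂P ≤ B) →
      ∫⁻ ω, cost π hd c h k j a b w ω ∂P ≤
        ENNReal.ofReal (π.Θ c.H σ) ^ k * B * ENNReal.ofReal ‖b - a‖ := by
  have := hh.gaussian.isProbabilityMeasure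
  have hH := c.H_pos
  induction k with
  | zero =>
    intro j a b w B _ hw hB
    simp only [cost, pow_zero, one_mul]
    have hm : Measurable (fun p : Ω × ℝ => w (a + p.2 • (b - a)) p.1) := by
      have h2 : Measurable (fun p : Ω × ℝ => ((a + p.2 • (b - a), p.1) : Pt d × Ω)) := by
        fun_prop
      exact hw.2.comp h2
    rw [lintegral_const_mul _ hm.lintegral_prod_right']
    rw [lintegral_lintegral_swap hm.aemeasurable, mul_comm]
    gcongr
    have h1 : ∫⁻ t in Icc (0 : ℝ) 1, ∫⁻ ω, w (a + t • (b - a)) ω ∂P ≤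
        ∫⁻ _t in Icc (0 : ℝ) 1, B := by
      apply setLIntegral_mono measurable_const
      intro t ht
      apply hB
      refine ⟨t, ht, ?_⟩
      rw [sub_self, norm_zero]
      have := π.u_pos j
      positivity
    refine h1.trans ?_
    rw [setLIntegral_const, Real.volume_Icc]
    simp
  | succ k ih =>
    intro j a b w B hN hw hB
    have hN1 : π.sc (j + 1) ≤ N := by
      refine le_trans ?_ hN
      unfold Par.sc
      have : (j + 1) * π.k0 ≤ (j + (k + 1)) * π.k0 := Nat.mul_le_mul_right _ (by omega)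
      omega
    have hN2 : π.sc (j + 1 + k) ≤ N := by
      have : j + 1 + k = j + (k + 1) := by ring
      rw [this]; exact hN
    rcases Nat.eq_zero_or_pos (π.q j a b) with hq | hq
    · simp [cost, hq]
    have hadS := fun i => Ad.wS π hd c hh a b i hw
    have hadB := fun i => Ad.wB π hd c hh a b i hw
    have mS := fun i x y => cost_meas π hd c hh k (j + 1) x y (π.wS hd c h j a b i w) (hadS i).2
    have mB := fun i x y => cost_meas π hd c hh k (j + 1) x y (π.wB hd c h j a b i w) (hadB i).2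
    simp only [cost]
    rw [lintegral_finsetSum]
    swap
    · intro i _
      exact (((mS _ _ _).add (mS _ _ _)).add (mS _ _ _)).add
        (((mB _ _ _).add (mB _ _ _)).add (mB _ _ _))
    have key : ∀ i ∈ Finset.range (π.q j a b), ∫⁻ ω,
        ((cost π hd c h k (j + 1) (π.p j a b i) (π.p j a b i + (1 / 4 : ℝ) • π.v j a b)
          (π.wS hd c h j a b i w) ω +
        cost π hd c h k (j + 1) (π.p j a b i + (1 / 4 : ℝ) • π.v j a b)
          (π.p j a b i + (3 / 4 : ℝ) • π.v j a b) (π.wS hd c h j a b i w) ω +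
        cost π hd c h k (j + 1) (π.p j a b i + (3 / 4 : ℝ) • π.v j a b)
          (π.p j a b i + π.v j a b) (π.wS hd c h j a b i w) ω) +
       (cost π hd c h k (j + 1) (π.p j a b i)
          (π.p j a b i + (1 / 4 : ℝ) • π.v j a b + π.N hd c j a b)
          (π.wB hd c h j a b i w) ω +
        cost π hd c h k (j + 1) (π.p j a b i + (1 / 4 : ℝ) • π.v j a b + π.N hd c j a b)
          (π.p j a b i + (3 / 4 : ℝ) • π.v j a b + π.N hd c j a b) (π.wB hd c h j a b i w) ω +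
        cost π hd c h k (j + 1) (π.p j a b i + (3 / 4 : ℝ) • π.v j a b + π.N hd c j a b)
          (π.p j a b i + π.v j a b) (π.wB hd c h j a b i w) ω)) ∂P ≤
        (ENNReal.ofReal (π.Θ c.H σ) ^ k * B) * ENNReal.ofReal (π.Θ c.H σ) *
          ENNReal.ofReal ‖π.v j a b‖ := by
      intro i hi
      have hi' := Finset.mem_range.1 hi
      rw [lintegral_six (mS _ _ _) (mS _ _ _) (mS _ _ _) (mB _ _ _) (mB _ _ _)]
      have nv : ∀ r : ℝ, 0 ≤ r → ‖r • π.v j a b‖ = r * ‖π.v j a b‖ := fun r hr => by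
        rw [norm_smul, Real.norm_of_nonneg hr]
      apply G.piece_total hd j hq
      · have e : (π.p j a b i + (1 / 4 : ℝ) • π.v j a b) - π.p j a b i = (1 / 4 : ℝ) • π.v j a b := by
          module
        refine (ih (j + 1) _ _ _ (B * ENNReal.ofReal (π.E * (1 / 2))) hN2 (hadS i) ?_).trans ?_
        · rintro x ⟨t, ht, hx⟩
          rw [e] at hx
          have hx' : ‖x - (π.p j a b i + (t / 4) • π.v j a b)‖ ≤ 2 * c.H * π.u (j + 1) := by
            convert hx using 3; module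
          have ht' : t / 4 ∈ Icc (0 : ℝ) 1 := ⟨by linarith [ht.1], by linarith [ht.2]⟩
          have hx2 : ‖x - (π.p j a b i + (t / 4) • π.v j a b + (0 : ℝ) • π.N hd c j a b)‖ ≤
              2 * c.H * π.u (j + 1) := by
            rwa [zero_smul, add_zero]
          exact mul_lintegral_fac hh hd hN1 hNn a b i hw 1 0 x
            (hB x (G.nb hd hi' ht' ⟨le_rfl, zero_le_one⟩ hx2)) (G.F_line hh hK hd j hq i hx')
        · rw [e, nv _ (by norm_num), ← mul_assoc]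
      · have e : (π.p j a b i + (3 / 4 : ℝ) • π.v j a b) - (π.p j a b i + (1 / 4 : ℝ) • π.v j a b) =
            (1 / 2 : ℝ) • π.v j a b := by module
        refine (ih (j + 1) _ _ _ (B * ENNReal.ofReal (π.E * ((1 - p1 * σ) / 2))) hN2
          (hadS i) ?_).trans ?_
        · rintro x ⟨t, ht, hx⟩
          rw [e] at hx
          have hx2 : ‖x - (π.p j a b i + (1 / 4 + t / 2) • π.v j a b +
              (0 : ℝ) • π.N hd c j a b)‖ ≤ 2 * c.H * π.u (j + 1) := by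
            convert hx using 3; module
          have ht' : 1 / 4 + t / 2 ∈ Icc (0 : ℝ) 1 := ⟨by linarith [ht.1], by linarith [ht.2]⟩
          exact mul_lintegral_fac hh hd hN1 hNn a b i hw 1 0 x
            (hB x (G.nb hd hi' ht' ⟨le_rfl, zero_le_one⟩ hx2)) (G.F_mid hh hK hd j hq i ht hx)
        · rw [e, nv _ (by norm_num), ← mul_assoc]
      · have e : (π.p j a b i + π.v j a b) - (π.p j a b i + (3 / 4 : ℝ) • π.v j a b) =
            (1 / 4 : ℝ) • π.v j a b := by module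
        refine (ih (j + 1) _ _ _ (B * ENNReal.ofReal (π.E * (1 / 2))) hN2 (hadS i) ?_).trans ?_
        · rintro x ⟨t, ht, hx⟩
          rw [e] at hx
          have hx' : ‖x - (π.p j a b i + (3 / 4 + t / 4) • π.v j a b)‖ ≤
              2 * c.H * π.u (j + 1) := by
            convert hx using 3; module
          have hx2 : ‖x - (π.p j a b i + (3 / 4 + t / 4) • π.v j a b +
              (0 : ℝ) • π.N hd c j a b)‖ ≤ 2 * c.H * π.u (j + 1) := by
            rwa [zero_smul, add_zero]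
          have ht' : 3 / 4 + t / 4 ∈ Icc (0 : ℝ) 1 := ⟨by linarith [ht.1], by linarith [ht.2]⟩
          exact mul_lintegral_fac hh hd hN1 hNn a b i hw 1 0 x
            (hB x (G.nb hd hi' ht' ⟨le_rfl, zero_le_one⟩ hx2)) (G.F_line hh hK hd j hq i hx')
        · rw [e, nv _ (by norm_num), ← mul_assoc]
      · have e : (π.p j a b i + (1 / 4 : ℝ) • π.v j a b + π.N hd c j a b) - π.p j a b i =
            (1 / 4 : ℝ) • π.v j a b + π.N hd c j a b := by module
        refine (ih (j + 1) _ _ _ (B * ENNReal.ofReal (π.E * (1 / 2))) hN2 (hadB i) ?_).trans ?_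
        · rintro x ⟨t, ht, hx⟩
          rw [e] at hx
          have hx2 : ‖x - (π.p j a b i + (t / 4) • π.v j a b + t • π.N hd c j a b)‖ ≤
              2 * c.H * π.u (j + 1) := by
            convert hx using 3; module
          have ht' : t / 4 ∈ Icc (0 : ℝ) 1 := ⟨by linarith [ht.1], by linarith [ht.2]⟩
          exact mul_lintegral_fac hh hd hN1 hNn a b i hw 0 1 x
            (hB x (G.nb hd hi' ht' ht hx2)) (G.F_ramp1 hh hK hd j hq i ht hx)
        · rw [e, ← mul_assoc]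
          have h9 := G.ramp_norm hd j hq 1 (by norm_num)
          rw [one_smul] at h9
          gcongr
      · have e : (π.p j a b i + (3 / 4 : ℝ) • π.v j a b + π.N hd c j a b) -
            (π.p j a b i + (1 / 4 : ℝ) • π.v j a b + π.N hd c j a b) =
            (1 / 2 : ℝ) • π.v j a b := by module
        refine (ih (j + 1) _ _ _ (B * ENNReal.ofReal (π.E * ((1 - p1 * σ) / 2))) hN2
          (hadB i) ?_).trans ?_
        · rintro x ⟨t, ht, hx⟩
          rw [e] at hx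
          have hx2 : ‖x - (π.p j a b i + (1 / 4 + t / 2) • π.v j a b +
              (1 : ℝ) • π.N hd c j a b)‖ ≤ 2 * c.H * π.u (j + 1) := by
            convert hx using 3; module
          have hx3 : ‖x - (π.p j a b i + (1 / 4 : ℝ) • π.v j a b + t • ((1 / 2 : ℝ) • π.v j a b) +
              π.N hd c j a b)‖ ≤ 2 * c.H * π.u (j + 1) := by
            convert hx using 3; module
          have ht' : 1 / 4 + t / 2 ∈ Icc (0 : ℝ) 1 := ⟨by linarith [ht.1], by linarith [ht.2]⟩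
          exact mul_lintegral_fac hh hd hN1 hNn a b i hw 0 1 x
            (hB x (G.nb hd hi' ht' ⟨zero_le_one, le_rfl⟩ hx2)) (G.F_top hh hK hd j hq i ht hx3)
        · rw [e, nv _ (by norm_num), ← mul_assoc]
      · have e : (π.p j a b i + π.v j a b) -
            (π.p j a b i + (3 / 4 : ℝ) • π.v j a b + π.N hd c j a b) =
            (1 / 4 : ℝ) • π.v j a b - π.N hd c j a b := by module
        refine (ih (j + 1) _ _ _ (B * ENNReal.ofReal (π.E * (1 / 2))) hN2 (hadB i) ?_).trans ?_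
        · rintro x ⟨t, ht, hx⟩
          rw [e] at hx
          have hx2 : ‖x - (π.p j a b i + (3 / 4 + t / 4) • π.v j a b +
              (1 - t) • π.N hd c j a b)‖ ≤ 2 * c.H * π.u (j + 1) := by
            convert hx using 3; module
          have ht' : 3 / 4 + t / 4 ∈ Icc (0 : ℝ) 1 := ⟨by linarith [ht.1], by linarith [ht.2]⟩
          have ht2 : 1 - t ∈ Icc (0 : ℝ) 1 := ⟨by linarith [ht.2], by linarith [ht.1]⟩
          exact mul_lintegral_fac hh hd hN1 hNn a b i hw 0 1 x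
            (hB x (G.nb hd hi' ht' ht2 hx2)) (G.F_ramp2 hh hK hd j hq i ht hx)
        · rw [e, ← mul_assoc]
          have h9 := G.ramp_norm hd j hq (-1) (by norm_num)
          rw [neg_one_smul, ← sub_eq_add_neg] at h9
          gcongr
    refine (Finset.sum_le_sum key).trans ?_
    rw [Finset.sum_const, Finset.card_range, nsmul_eq_mul]
    have h10 : ENNReal.ofReal ‖b - a‖ = (π.q j a b : ℝ≥0∞) * ENNReal.ofReal ‖π.v j a b‖ := by
      rw [← G.q_mul j hq, ENNReal.ofReal_mul (by positivity), ENNReal.ofReal_natCast]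
    rw [h10, pow_succ]
    apply le_of_eq
    ring

end Pool.Agent.Helper97.LogFPP
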