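import Pool.Agent.Helper97.LogFPP.Cov

set_option autoImplicit false

open MeasureTheory ProbabilityTheory Set Filter Topology
open scoped NNReal ENNReal

namespace Pool.Agent.Helper97.LogFPP

section Span
variable {Ω : Type*} [MeasurableSpace Ω] {P : Measure Ω} {T : Type*} {X : T → Ω → ℝ}

/-- linear span of a family of variables -/
abbrev LS (X : T → Ω → ℝ) : Submodule ℝ (Ω → ℝ) := Submodule.span ℝ (Set.range X)

theorem LS_gaussian (hX : IsGaussianProcess X P) :
    IsGaussianProcess (fun (Y : LS X) ω => Y.1 ω) P := by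
  apply hX.of_isGaussianProcess
  intro Y
  obtain ⟨c, hc⟩ := (Finsupp.mem_span_range_iff_exists_finsupp).1 Y.2
  refine ⟨c.support, ∑ i : c.support, (c i.1) • ContinuousLinearMap.proj i, fun ω => ?_⟩
  rw [← hc]
  simp only [Finsupp.sum, Finset.sum_apply, Pi.smul_apply, smul_eq_mul]
  rw [_root_.sum_apply]
  simp only [_root_.smul_apply, ContinuousLinearMap.proj_apply, smul_eq_mul,
    Finset.restrict_def]
  rw [Finset.sum_coe_sort c.support (fun i => c i * X i ω)]

theorem LS_measurable (hm : ∀ t, Measurable (X t)) {Y : Ω → ℝ} (hY : Y ∈ LS X) : Measurable Y := by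
  induction hY using Submodule.span_induction with
  | mem x hx => obtain ⟨t, rfl⟩ := hx; exact hm t
  | zero => exact measurable_const
  | add x y _ _ hx hy => exact hx.add hy
  | smul a x _ hx => exact hx.const_smul a

theorem LS_hasGaussianLaw (hX : IsGaussianProcess X P) {Y : Ω → ℝ} (hY : Y ∈ LS X) :
    HasGaussianLaw Y P :=
  (LS_gaussian hX).hasGaussianLaw_eval (⟨Y, hY⟩ : LS X)

theorem LS_memLp (hX : IsGaussianProcess X P) {Y : Ω → ℝ} (hY : Y ∈ LS X) :
    MemLp Y 2 P :=
  (LS_hasGaussianLaw hX hY).memLp_two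

theorem LS_pair (hX : IsGaussianProcess X P) {Y Z : Ω → ℝ} (hY : Y ∈ LS X) (hZ : Z ∈ LS X) :
    HasGaussianLaw (fun ω => (Y ω, Z ω)) P :=
  (LS_gaussian hX).hasGaussianLaw_prodMk (s := (⟨Y, hY⟩ : LS X)) (t := (⟨Z, hZ⟩ : LS X))

theorem LS_mean (hX : IsGaussianProcess X P) (h0 : ∀ t, ∫ ω, X t ω ∂P = 0)
    {Y : Ω → ℝ} (hY : Y ∈ LS X) : ∫ ω, Y ω ∂P = 0 := by
  induction hY using Submodule.span_induction with
  | mem x hx => obtain ⟨t, rfl⟩ := hx; exact h0 t
  | zero => simp
  | add x y hx' hy' hx hy =>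
    have := hX.isProbabilityMeasure
    have i1 : Integrable x P := (LS_memLp hX hx').integrable one_le_two
    have i2 : Integrable y P := (LS_memLp hX hy').integrable one_le_two
    simp only [Pi.add_apply]
    rw [integral_add i1 i2, hx, hy, add_zero]
  | smul a x _ hx =>
    simp only [Pi.smul_apply, smul_eq_mul]
    rw [integral_const_mul, hx, mul_zero]

/-- law of an element of the span -/
theorem LS_map (hX : IsGaussianProcess X P) (h0 : ∀ t, ∫ ω, X t ω ∂P = 0)
    {Y : Ω → ℝ} (hY : Y ∈ LS X) : P.map Y = gaussianReal 0 Var[Y; P].toNNReal := by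
  rw [(LS_hasGaussianLaw hX hY).map_eq_gaussianReal, LS_mean hX h0 hY]

theorem LS_exp (hX : IsGaussianProcess X P) (h0 : ∀ t, ∫ ω, X t ω ∂P = 0)
    {Y : Ω → ℝ} (hY : Y ∈ LS X) (ξ : ℝ) :
    ∫ ω, Real.exp (ξ * Y ω) ∂P = Real.exp (ξ ^ 2 * Var[Y; P] / 2) := by
  have h1 := mgf_gaussianReal (LS_map hX h0 hY) ξ
  unfold mgf at h1
  rw [h1, Real.coe_toNNReal _ (variance_nonneg _ _)]
  congr 1; ring

theorem LS_exp_integrable (hX : IsGaussianProcess X P) (h0 : ∀ t, ∫ ω, X t ω ∂P = 0)
    {Y : Ω → ℝ} (hY : Y ∈ LS X) (ξ : ℝ) :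
    Integrable (fun ω => Real.exp (ξ * Y ω)) P := by
  have h2 := integrable_exp_mul_gaussianReal (μ := 0) (v := Var[Y; P].toNNReal) ξ
  rw [← LS_map hX h0 hY] at h2
  exact h2.comp_aemeasurable (LS_hasGaussianLaw hX hY).aemeasurable

theorem LS_lexp (hX : IsGaussianProcess X P) (h0 : ∀ t, ∫ ω, X t ω ∂P = 0)
    {Y : Ω → ℝ} (hY : Y ∈ LS X) (ξ : ℝ) :
    ∫⁻ ω, ENNReal.ofReal (Real.exp (ξ * Y ω)) ∂P =
      ENNReal.ofReal (Real.exp (ξ ^ 2 * Var[Y; P] / 2)) := by
  rw [← LS_exp hX h0 hY ξ, ofReal_integral_eq_lintegral_ofReal (LS_exp_integrable hX h0 hY ξ)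
    (ae_of_all _ fun _ => (Real.exp_pos _).le)]

end Span

/-- `P (N ≤ -1)` -/
noncomputable def p1 : ℝ := (gaussianReal 0 1).real (Iic (-1))

theorem p1_pos : 0 < p1 := by
  unfold p1
  rw [measureReal_def]
  apply ENNReal.toReal_pos
  · intro h
    have := (gaussianReal_absolutelyContinuous' 0 (v := 1) one_ne_zero) h
    rw [Real.volume_Iic] at this
    exact absurd this (by simp)
  · exact measure_ne_top _ _

theorem p1_le : p1 ≤ 1 := by
  unfold p1
  exact measureReal_le_one

theorem gaussian_Iic_zero {v : ℝ≥0} (hv : v ≠ 0) : (gaussianReal 0 v).real (Iic 0) = 1 / 2 := by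
  have h1 : (gaussianReal 0 v).real (Iic 0) = (gaussianReal 0 v).real (Ici 0) := by
    have h2 : (gaussianReal 0 v).map (fun x => -x) = gaussianReal 0 v := by
      rw [gaussianReal_map_neg, neg_zero]
    conv_lhs => rw [← h2]
    rw [map_measureReal_apply measurable_neg measurableSet_Iic]
    congr 1
    ext x; simp
  have := nullSingletonClass_gaussianReal (μ := 0) hv
  have h3 : (gaussianReal 0 v).real (Ici 0) = (gaussianReal 0 v).real (Ioi 0) := by
    rw [measureReal_def, measureReal_def, measure_congr Ioi_ae_eq_Ici]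
  have h4 : (gaussianReal 0 v).real (Iic 0) + (gaussianReal 0 v).real (Iic 0)ᶜ = 1 := by
    rw [← measureReal_union disjoint_compl_right measurableSet_Iic.compl, union_compl_self]
    simp
  rw [compl_Iic] at h4
  linarith

theorem gaussian_Iic_sd {v : ℝ≥0} : (gaussianReal 0 v).real (Iic (-√v)) ≥ p1 := by
  have h2 := gaussianReal_map_const_mul (μ := 0) (v := 1) (√v)
  have h3 : gaussianReal (√(v : ℝ) * 0) (NNReal.mk (√(v : ℝ) ^ 2) (sq_nonneg _) * 1) =
      gaussianReal 0 v := by
    congr 1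
    · ring
    · apply NNReal.eq
      rw [mul_one]
      exact Real.sq_sqrt v.2
  rw [h3] at h2
  rw [← h2, map_measureReal_apply (by fun_prop) measurableSet_Iic]
  unfold p1
  apply measureReal_mono
  · intro x hx
    simp only [mem_Iic, mem_preimage] at *
    have := Real.sqrt_nonneg (v : ℝ)
    nlinarith
  · exact measure_ne_top _ _

theorem exp_neg_le_half {s : ℝ} (h0 : 0 ≤ s) (h1 : s ≤ 1) : Real.exp (-s) ≤ 1 - s / 2 := by
  have h := Real.add_one_le_exp s
  rw [Real.exp_neg]
  rw [inv_le_comm₀ (Real.exp_pos _) (by linarith)]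
  refine le_trans ?_ h
  rw [inv_le_comm₀ (by linarith) (by linarith), ← one_div, div_le_iff₀ (by linarith)]
  nlinarith

theorem gauss_one {v : ℝ≥0} (hv : v ≠ 0) {θ s : ℝ} (hs0 : 0 ≤ s) (hs1 : s ≤ 1) (hθ : 0 ≤ θ)
    (hs : s ≤ θ * √v) :
    ∫ x in Iic 0, Real.exp (θ * x) ∂(gaussianReal 0 v) ≤ (1 - p1 * s) / 2 := by
  have h1 : ∫ x in Iic 0, Real.exp (θ * x) ∂(gaussianReal 0 v) ≤
      ∫ x in Iic 0, (1 - (s / 2) * (Iic (-√(v : ℝ))).indicator (fun _ => (1 : ℝ)) x) ∂(gaussianReal 0 v) := by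
    apply setIntegral_mono_on
    · apply Measure.integrableOn_of_bounded (M := 1) (measure_ne_top _ _)
      · exact (by fun_prop : Continuous fun x : ℝ => Real.exp (θ * x)).aestronglyMeasurable
      · refine (ae_restrict_iff' measurableSet_Iic).2 (ae_of_all _ fun x hx => ?_)
        rw [Real.norm_of_nonneg (Real.exp_pos _).le, Real.exp_le_one_iff]
        exact mul_nonpos_of_nonneg_of_nonpos hθ hx
    · apply Integrable.sub (integrable_const _)
      apply Integrable.const_mul
      exact (integrable_const (1 : ℝ)).indicator measurableSet_Iic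
    · exact measurableSet_Iic
    · intro x hx
      simp only [mem_Iic] at hx
      by_cases hx' : x ∈ Iic (-√(v : ℝ))
      · rw [indicator_of_mem hx', mul_one]
        refine le_trans (Real.exp_le_exp.2 ?_) (exp_neg_le_half hs0 hs1)
        simp only [mem_Iic] at hx'
        nlinarith
      · rw [indicator_of_notMem hx', mul_zero, sub_zero, Real.exp_le_one_iff]
        exact mul_nonpos_of_nonneg_of_nonpos hθ hx
  refine le_trans h1 ?_
  rw [integral_sub (integrable_const _)
    (((integrable_const (1 : ℝ)).indicator measurableSet_Iic).const_mul _),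
    integral_const_mul, setIntegral_indicator measurableSet_Iic]
  simp only [integral_const, smul_eq_mul, mul_one, measureReal_restrict_apply_univ]
  rw [gaussian_Iic_zero hv]
  have h5 : Iic (0 : ℝ) ∩ Iic (-√(v : ℝ)) = Iic (-√(v : ℝ)) := by
    rw [inter_eq_right]
    apply Iic_subset_Iic.2
    have := Real.sqrt_nonneg (v : ℝ)
    linarith
  rw [h5]
  have h6 := @gaussian_Iic_sd v
  nlinarith

section Pair
variable {Ω : Type*} [MeasurableSpace Ω] {P : Measure Ω} {T : Type*} {X : T → Ω → ℝ}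

theorem gauss_two (hX : IsGaussianProcess X P) (h0 : ∀ t, ∫ ω, X t ω ∂P = 0)
    (hm : ∀ t, Measurable (X t))
    {C Y : Ω → ℝ} (hC : C ∈ LS X) (hY : Y ∈ LS X) (hvar : 0 < Var[C; P])
    (hcov : 0 ≤ cov[C, Y; P]) {ξ s : ℝ} (hξ : 0 ≤ ξ) (hs0 : 0 ≤ s) (hs1 : s ≤ 1)
    (hs : s * √(Var[C; P]) ≤ ξ * cov[C, Y; P]) :
    ∫⁻ ω, ENNReal.ofReal ((if C ω ≤ 0 then 1 else 0) * Real.exp (ξ * Y ω)) ∂P ≤
      ENNReal.ofReal (Real.exp (ξ ^ 2 * Var[Y; P] / 2) * ((1 - p1 * s) / 2)) := by
  have := hX.isProbabilityMeasure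
  set v := Var[C; P] with hv
  set ρ := cov[C, Y; P] with hρ
  set Z : Ω → ℝ := Y - (ρ / v) • C with hZdef
  have hZ : Z ∈ LS X := Submodule.sub_mem _ hY (Submodule.smul_mem _ _ hC)
  have mC := LS_memLp hX hC
  have mY := LS_memLp hX hY
  have mZ := LS_memLp hX hZ
  have covCZ : cov[C, Z; P] = 0 := by
    rw [hZdef, covariance_sub_right mC mY (mC.const_smul _), covariance_smul_right,
      covariance_self mC.aemeasurable, ← hv, ← hρ]
    field_simp
    ring
  have hind : IndepFun C Z P := (LS_pair hX hC hZ).indepFun_of_covariance_eq_zero covCZ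
  have varZ : Var[Z; P] ≤ Var[Y; P] := by
    have h1 : Var[Y; P] = Var[Z; P] + (ρ / v) ^ 2 * v := by
      have h2 : Y = Z + (ρ / v) • C := by rw [hZdef]; abel
      rw [h2, variance_add mZ (mC.const_smul _), variance_smul, covariance_smul_right,
        covariance_comm, covCZ, ← hv]
      ring
    rw [h1]
    have : 0 ≤ (ρ / v) ^ 2 * v := by positivity
    linarith
  have hmC := LS_measurable hm hC
  have hmZ := LS_measurable hm hZ
  set θ := ξ * (ρ / v) with hθ
  have hθ0 : 0 ≤ θ := by positivity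
  have key : ∀ ω, ENNReal.ofReal ((if C ω ≤ 0 then 1 else 0) * Real.exp (ξ * Y ω)) =
      ENNReal.ofReal ((Iic (0 : ℝ)).indicator (fun x => Real.exp (θ * x)) (C ω)) *
      ENNReal.ofReal (Real.exp (ξ * Z ω)) := by
    intro ω
    have hYω : Y ω = Z ω + (ρ / v) * C ω := by
      simp [hZdef]
    rw [← ENNReal.ofReal_mul' (Real.exp_pos _).le]
    congr 1
    by_cases hc : C ω ≤ 0
    · rw [if_pos hc, indicator_of_mem (by exact hc), one_mul, ← Real.exp_add, hYω, hθ]
      congr 1; ring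
    · rw [if_neg hc, indicator_of_notMem (by exact hc), zero_mul, zero_mul]
  simp_rw [key]
  have hf : Measurable (fun x : ℝ => ENNReal.ofReal ((Iic (0 : ℝ)).indicator
      (fun x => Real.exp (θ * x)) x)) := by
    apply ENNReal.measurable_ofReal.comp
    apply Measurable.indicator _ measurableSet_Iic
    fun_prop
  have hg : Measurable (fun x : ℝ => ENNReal.ofReal (Real.exp (ξ * x))) := by fun_prop
  have hind2 := hind.comp hf hg
  have h3 := lintegral_mul_eq_lintegral_mul_lintegral_of_indepFun (hf.comp hmC) (hg.comp hmZ) hind2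
  simp only [Function.comp_def, Pi.mul_apply] at h3
  rw [h3, LS_lexp hX h0 hZ]
  have h4 : ∫⁻ ω, ENNReal.ofReal ((Iic (0 : ℝ)).indicator (fun x => Real.exp (θ * x)) (C ω)) ∂P ≤
      ENNReal.ofReal ((1 - p1 * s) / 2) := by
    rw [← lintegral_map (f := fun x : ℝ => ENNReal.ofReal ((Iic (0 : ℝ)).indicator
      (fun x => Real.exp (θ * x)) x)) hf hmC, LS_map hX h0 hC]
    rw [← ofReal_integral_eq_lintegral_ofReal]
    · apply ENNReal.ofReal_le_ofReal
      rw [integral_indicator measurableSet_Iic]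
      have hvne : Var[C; P].toNNReal ≠ 0 := by
        rw [← hv]
        simp [hvar]
      have hvc : ((Var[C; P].toNNReal : ℝ≥0) : ℝ) = v := Real.coe_toNNReal _ hvar.le
      apply gauss_one hvne hs0 hs1 hθ0
      rw [hvc, hθ]
      have hsv : 0 < √v := Real.sqrt_pos.2 hvar
      have h5 : ξ * (ρ / v) * √v = ξ * ρ / √v := by
        have : v = √v * √v := (Real.mul_self_sqrt hvar.le).symm
        rw [mul_div_assoc]
        nth_rewrite 1 [this]
        field_simp
      rw [h5, le_div_iff₀ hsv]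
      exact hs
    · rw [integrable_indicator_iff measurableSet_Iic]
      apply Measure.integrableOn_of_bounded (M := 1) (measure_ne_top _ _)
      · exact (by fun_prop : Continuous fun x : ℝ => Real.exp (θ * x)).aestronglyMeasurable
      · refine (ae_restrict_iff' measurableSet_Iic).2 (ae_of_all _ fun x hx => ?_)
        rw [Real.norm_of_nonneg (Real.exp_pos _).le, Real.exp_le_one_iff]
        exact mul_nonpos_of_nonneg_of_nonpos hθ0 hx
    · exact ae_of_all _ fun x => indicator_nonneg (fun _ _ => (Real.exp_pos _).le) _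
  calc _ ≤ ENNReal.ofReal ((1 - p1 * s) / 2) * ENNReal.ofReal (Real.exp (ξ ^ 2 * Var[Y; P] / 2)) := by
        gcongr
    _ = _ := by
        rw [mul_comm, ← ENNReal.ofReal_mul (Real.exp_pos _).le]

end Pair

end Pool.Agent.Helper97.LogFPP
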