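import Pool.Agent.Helper97.LogFPP.Band

set_option autoImplicit false
set_option maxHeartbeats 400000

open MeasureTheory ProbabilityTheory Set Filter Topology
open scoped NNReal ENNReal RealInnerProductSpace

namespace Pool.Agent.Helper97.LogFPP

variable {d : ℕ}

/-- thickened segment -/
def Nb (a b : Pt d) (r : ℝ) : Set (Pt d) := {x | ∃ t ∈ Icc (0:ℝ) 1, ‖x - (a + t • (b - a))‖ ≤ r}

theorem exists_normal (hd : 2 ≤ d) (v : Pt d) : ∃ n : Pt d, ‖n‖ = 1 ∧ ⟪v, n⟫ = 0 := by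
  by_contra hcon
  push Not at hcon
  have h1 : (ℝ ∙ v)ᗮ = ⊥ := by
    rw [Submodule.eq_bot_iff]
    intro x hx
    by_contra hx0
    have hxn : ‖x‖ ≠ 0 := norm_ne_zero_iff.2 hx0
    apply hcon (‖x‖⁻¹ • x)
    · rw [norm_smul, norm_inv, norm_norm, inv_mul_cancel₀ hxn]
    · rw [inner_smul_right]
      rw [Submodule.mem_orthogonal_singleton_iff_inner_right.1 hx, mul_zero]
  have h2 := Submodule.finrank_add_finrank_orthogonal (𝕜 := ℝ) (ℝ ∙ v)
  rw [h1, finrank_bot, add_zero, finrank_euclideanSpace, Fintype.card_fin] at h2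
  have h3 : Module.finrank ℝ (ℝ ∙ v) ≤ 1 := by
    have := finrank_span_le_card (R := ℝ) ({v} : Set (Pt d))
    simpa using this
  omega

/-- a unit normal -/
noncomputable def nrm (hd : 2 ≤ d) (v : Pt d) : Pt d := (exists_normal hd v).choose

theorem nrm_norm (hd : 2 ≤ d) (v : Pt d) : ‖nrm hd v‖ = 1 := (exists_normal hd v).choose_spec.1

theorem nrm_inner (hd : 2 ≤ d) (v : Pt d) : ⟪v, nrm hd v⟫ = 0 := (exists_normal hd v).choose_spec.2

/-- sample points on the middle half -/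
noncomputable def pt (p v : Pt d) (I : ℕ) (i : ℕ) : Pt d :=
  p + (1 / 4 : ℝ) • v + ((i : ℝ) / I) • ((1 / 2 : ℝ) • v)

/-- covariance of the comparison variable and a field value -/
noncomputable def cc (K : Pt d → ℝ) (a b : ℕ) (p v N : Pt d) (I : ℕ) (x : Pt d) : ℝ :=
  ∑ i ∈ Finset.range (I + 1), (Kb K a b (pt p v I i - x) - Kb K a b (pt p v I i + N - x))

theorem abs_inner_le_of_unit {z n : Pt d} (hn : ‖n‖ = 1) : |⟪z, n⟫| ≤ ‖z‖ := by
  have := abs_real_inner_le_norm z n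
  rwa [hn, mul_one] at this

theorem pt_sub (p v : Pt d) (I i j : ℕ) :
    pt p v I i - pt p v I j = (((i : ℝ) - j) / I / 2) • v := by
  unfold pt
  module

theorem card_close (T : Finset ℕ) {R : ℝ} (hR : 0 ≤ R)
    (h : ∀ i ∈ T, ∀ j ∈ T, (i : ℝ) - j ≤ R) : (T.card : ℝ) ≤ R + 1 := by
  rcases T.eq_empty_or_nonempty with rfl | hne
  · simp; positivity
  have h1 : T ⊆ Finset.Icc (T.min' hne) (T.max' hne) := fun i hi =>
    Finset.mem_Icc.2 ⟨T.min'_le i hi, T.le_max' i hi⟩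
  have h2 := Finset.card_le_card h1
  rw [Nat.card_Icc] at h2
  have h3 := h _ (T.max'_mem hne) _ (T.min'_mem hne)
  have h4 : T.min' hne ≤ T.max' hne := T.min'_le _ (T.max'_mem hne)
  have h5 : (T.card : ℝ) ≤ (T.max' hne : ℝ) + 1 - T.min' hne := by
    have h6 : T.card + T.min' hne ≤ T.max' hne + 1 := by omega
    have h7 : (T.card : ℝ) + T.min' hne ≤ T.max' hne + 1 := by exact_mod_cast h6
    linarith
  linarith

/-- the constants of the kernel -/
structure Cst (K : Pt d → ℝ) where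
  D : ℝ
  ρ : ℝ
  D_pos : 0 < D
  ρ_pos : 0 < ρ
  far : ∀ z, D ≤ ‖z‖ → acf K z = 0
  near : ∀ z, ‖z‖ ≤ ρ → 1 / 2 ≤ acf K z

theorem exists_cst {K : Pt d → ℝ} (hK : IsKernel K) : Nonempty (Cst K) := by
  obtain ⟨D, hD, h1⟩ := acf_support hK
  obtain ⟨ρ, hρ, h2⟩ := acf_near hK
  exact ⟨⟨D, ρ, hD, hρ, h1, h2⟩⟩

/-- height of the bumps -/
noncomputable def Cst.H {K : Pt d → ℝ} (c : Cst K) : ℝ := 2 * (c.D + 1)

theorem Cst.H_pos {K : Pt d → ℝ} (c : Cst K) : 0 < c.H := by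
  have := c.D_pos
  unfold Cst.H; linarith

/-- geometric data of a piece: `u` the unit, `ℓ` the length scale -/
structure Piece {K : Pt d → ℝ} (c : Cst K) (a : ℕ) (ℓ w : ℝ) (I : ℕ) (p v n : Pt d) : Prop where
  hn : ‖n‖ = 1
  hvn : ⟪v, n⟫ = 0
  hℓ : 8 * (c.D + 1) ≤ ℓ
  hw0 : 0 ≤ w
  hw1 : w ≤ 1
  hwρ : w ≤ c.ρ / 4
  hv1 : ℓ * (1 / 2) ^ a ≤ ‖v‖
  hv2 : ‖v‖ ≤ 2 * ℓ * (1 / 2) ^ a
  hI0 : 0 < I
  hI1 : 4 * ℓ / c.ρ ≤ I

section
variable {K : Pt d → ℝ} {c : Cst K} {a b : ℕ} {ℓ w : ℝ} {I : ℕ} {p v n : Pt d}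

theorem Piece.ℓ_pos (hP : Piece c a ℓ w I p v n) : 0 < ℓ := by
  have := hP.hℓ
  have := c.D_pos
  linarith

/-- far: points above versus points near the line -/
theorem Piece.far_above (hP : Piece c a ℓ w I p v n) {x : Pt d} {t : ℝ}
    (hx : ‖x - (p + t • v)‖ ≤ w * (1 / 2) ^ a) (i : ℕ) :
    Kb K a b (pt p v I i + (c.H * (1 / 2) ^ a) • n - x) = 0 := by
  apply Kb_far c.far
  set u : ℝ := (1 / 2 : ℝ) ^ a with hu
  have hu0 : 0 < u := half_pow_pos a
  set z := pt p v I i + (c.H * u) • n - x with hz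
  have h1 : ⟪z, n⟫ = c.H * u - ⟪x - (p + t • v), n⟫ := by
    have h2 : z = (1 / 4 + (i : ℝ) / I / 2 - t) • v + (c.H * u) • n - (x - (p + t • v)) := by
      rw [hz]; unfold pt; module
    rw [h2, inner_sub_left, inner_add_left, inner_smul_left, inner_smul_left, hP.hvn,
      real_inner_self_eq_norm_sq, hP.hn]
    simp
  have h3 := abs_inner_le_of_unit (z := z) hP.hn
  have h4 := abs_inner_le_of_unit (z := x - (p + t • v)) hP.hn
  have h5 := le_abs_self ⟪z, n⟫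
  have h6 := le_abs_self ⟪x - (p + t • v), n⟫
  have h7 : w * u ≤ 1 * u := mul_le_mul_of_nonneg_right hP.hw1 hu0.le
  have h8 : c.H * u = 2 * (c.D * u) + 2 * u := by unfold Cst.H; ring
  have h9 : 0 < c.D * u := mul_pos c.D_pos hu0
  linarith

theorem Piece.far_below (hP : Piece c a ℓ w I p v n) {x : Pt d} {t : ℝ} {η : ℝ} (hη : 1 / 2 ≤ η)
    (hx : ‖x - (p + t • v + (η * (c.H * (1 / 2) ^ a)) • n)‖ ≤ w * (1 / 2) ^ a) (i : ℕ) :
    Kb K a b (pt p v I i - x) = 0 := by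
  apply Kb_far c.far
  set u : ℝ := (1 / 2 : ℝ) ^ a with hu
  have hu0 : 0 < u := half_pow_pos a
  set z := pt p v I i - x with hz
  set y := x - (p + t • v + (η * (c.H * u)) • n) with hy
  have h1 : ⟪z, n⟫ = -(η * (c.H * u)) - ⟪y, n⟫ := by
    have h2 : z = (1 / 4 + (i : ℝ) / I / 2 - t) • v - (η * (c.H * u)) • n - y := by
      rw [hz, hy]; unfold pt; module
    rw [h2, inner_sub_left, inner_sub_left, inner_smul_left, inner_smul_left, hP.hvn,
      real_inner_self_eq_norm_sq, hP.hn]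
    simp
  have h3 := abs_inner_le_of_unit (z := z) hP.hn
  have h4 := abs_inner_le_of_unit (z := y) hP.hn
  have h5 := neg_abs_le ⟪z, n⟫
  have h6 := neg_abs_le ⟪y, n⟫
  have h7 : w * u ≤ 1 * u := mul_le_mul_of_nonneg_right hP.hw1 hu0.le
  have h8 : c.H * u = 2 * (c.D * u) + 2 * u := by unfold Cst.H; ring
  have h9 : 0 < c.D * u := mul_pos c.D_pos hu0
  have h10 : 1 / 2 * (c.H * u) ≤ η * (c.H * u) :=
    mul_le_mul_of_nonneg_right hη (mul_pos c.H_pos hu0).le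
  linarith

/-- points near the middle are near a sample point -/
theorem Piece.near (hP : Piece c a ℓ w I p v n) (hK : IsKernel K) (hab : a + 1 ≤ b)
    {x : Pt d} {t : ℝ} (ht : t ∈ Icc (0 : ℝ) 1) {m : Pt d}
    (hx : ‖x - (p + (1 / 4 : ℝ) • v + t • ((1 / 2 : ℝ) • v) + m)‖ ≤ w * (1 / 2) ^ a) :
    ∃ i ∈ Finset.range (I + 1), Real.log 2 / 2 ≤ Kb K a b (pt p v I i + m - x) := by
  have hI : (0 : ℝ) < I := by exact_mod_cast hP.hI0
  refine ⟨⌊t * I⌋₊, ?_, ?_⟩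
  · rw [Finset.mem_range]
    have : ⌊t * I⌋₊ ≤ I := by
      apply Nat.floor_le_of_le
      have := ht.2
      nlinarith
    omega
  · apply Kb_near hK c.near hab
    set u : ℝ := (1 / 2 : ℝ) ^ a with hu
    have hu0 : 0 < u := half_pow_pos a
    set i := ⌊t * I⌋₊ with hi
    have h1 : pt p v I i + m - x = (((i : ℝ) / I - t) / 2) • v -
        (x - (p + (1 / 4 : ℝ) • v + t • ((1 / 2 : ℝ) • v) + m)) := by
      unfold pt; module
    rw [h1]
    refine le_trans (norm_sub_le _ _) ?_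
    rw [norm_smul, Real.norm_eq_abs]
    have h2 : (i : ℝ) ≤ t * I := Nat.floor_le (mul_nonneg ht.1 hI.le)
    have h3 : t * I < i + 1 := Nat.lt_floor_add_one _
    have h4 : |((i : ℝ) / I - t) / 2| ≤ 1 / I / 2 := by
      rw [abs_div, abs_of_pos (by norm_num : (0:ℝ) < 2)]
      apply div_le_div_of_nonneg_right _ (by norm_num)
      rw [abs_sub_comm, abs_of_nonneg]
      · rw [sub_le_iff_le_add, ← add_div, le_div_iff₀ hI]; linarith
      · rw [sub_nonneg, div_le_iff₀ hI]; exact h2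
    have h5 : 1 / (I : ℝ) / 2 * ‖v‖ ≤ c.ρ / 4 * u := by
      have h6 : 1 / (I : ℝ) / 2 * ‖v‖ ≤ 1 / (I : ℝ) / 2 * (2 * ℓ * u) := by
        apply mul_le_mul_of_nonneg_left hP.hv2; positivity
      refine le_trans h6 ?_
      have h7 := hP.hI1
      rw [div_le_iff₀ c.ρ_pos] at h7
      have h8 : 1 / (I : ℝ) / 2 * (2 * ℓ * u) = ℓ / I * u := by field_simp
      rw [h8]
      apply mul_le_mul_of_nonneg_right _ hu0.le
      rw [div_le_iff₀ hI]; linarith
    have h9 : |((i : ℝ) / I - t) / 2| * ‖v‖ ≤ 1 / (I : ℝ) / 2 * ‖v‖ :=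
      mul_le_mul_of_nonneg_right h4 (norm_nonneg _)
    have h10 : w * u ≤ c.ρ / 4 * u := mul_le_mul_of_nonneg_right hP.hwρ hu0.le
    linarith

/-- straight pieces -/
theorem Piece.cc_line (hP : Piece c a ℓ w I p v n) (hK : IsKernel K) {x : Pt d} {t : ℝ}
    (hx : ‖x - (p + t • v)‖ ≤ w * (1 / 2) ^ a) :
    0 ≤ cc K a b p v ((c.H * (1 / 2) ^ a) • n) I x := by
  apply Finset.sum_nonneg
  intro i _
  rw [hP.far_above hx, sub_zero]
  exact Kb_nonneg hK _ _ _

theorem Piece.cc_mid (hP : Piece c a ℓ w I p v n) (hK : IsKernel K) (hab : a + 1 ≤ b)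
    {x : Pt d} {t : ℝ} (ht : t ∈ Icc (0 : ℝ) 1)
    (hx : ‖x - (p + (1 / 4 : ℝ) • v + t • ((1 / 2 : ℝ) • v))‖ ≤ w * (1 / 2) ^ a) :
    Real.log 2 / 2 ≤ cc K a b p v ((c.H * (1 / 2) ^ a) • n) I x := by
  have hx2 : ‖x - (p + (1 / 4 : ℝ) • v + t • ((1 / 2 : ℝ) • v) + 0)‖ ≤ w * (1 / 2) ^ a := by
    rwa [add_zero]
  obtain ⟨i, hi, h1⟩ := hP.near hK hab ht hx2
  rw [add_zero] at h1
  have hx3 : ‖x - (p + (1 / 4 + t / 2) • v)‖ ≤ w * (1 / 2) ^ a := by
    convert hx using 3; module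
  refine le_trans h1 ?_
  unfold cc
  refine le_trans ?_ (Finset.single_le_sum (f := fun i => (Kb K a b (pt p v I i - x) -
    Kb K a b (pt p v I i + (c.H * (1 / 2) ^ a) • n - x))) ?_ hi)
  · rw [hP.far_above hx3, sub_zero]
  · intro i _
    rw [hP.far_above hx3, sub_zero]
    exact Kb_nonneg hK _ _ _

/-- bump: the top -/
theorem Piece.cc_top (hP : Piece c a ℓ w I p v n) (hK : IsKernel K) (hab : a + 1 ≤ b)
    {x : Pt d} {t : ℝ} (ht : t ∈ Icc (0 : ℝ) 1)
    (hx : ‖x - (p + (1 / 4 : ℝ) • v + t • ((1 / 2 : ℝ) • v) + (c.H * (1 / 2) ^ a) • n)‖ ≤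
      w * (1 / 2) ^ a) :
    cc K a b p v ((c.H * (1 / 2) ^ a) • n) I x ≤ -(Real.log 2 / 2) := by
  obtain ⟨i, hi, h1⟩ := hP.near hK hab ht hx
  have hx3 : ‖x - (p + (1 / 4 + t / 2) • v + ((1 : ℝ) * (c.H * (1 / 2) ^ a)) • n)‖ ≤
      w * (1 / 2) ^ a := by
    convert hx using 3; module
  rw [le_neg]
  refine le_trans h1 ?_
  unfold cc
  rw [← Finset.sum_neg_distrib]
  refine le_trans ?_ (Finset.single_le_sum (f := fun i => -(Kb K a b (pt p v I i - x) -
    Kb K a b (pt p v I i + (c.H * (1 / 2) ^ a) • n - x))) ?_ hi)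
  · rw [hP.far_below (by norm_num) hx3]
    simp
  · intro i _
    rw [hP.far_below (by norm_num) hx3, zero_sub, neg_neg]
    exact Kb_nonneg hK _ _ _

/-- bump: the ramps -/
theorem Piece.cc_ramp1 (hP : Piece c a ℓ w I p v n) (hK : IsKernel K)
    {x : Pt d} {t : ℝ} (ht : t ∈ Icc (0 : ℝ) 1)
    (hx : ‖x - (p + t • ((1 / 4 : ℝ) • v + (c.H * (1 / 2) ^ a) • n))‖ ≤ w * (1 / 2) ^ a) :
    cc K a b p v ((c.H * (1 / 2) ^ a) • n) I x ≤ 0 := by
  apply Finset.sum_nonpos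
  intro i hi
  have h0 : Kb K a b (pt p v I i - x) = 0 := by
    rcases le_total (1 / 2) t with h | h
    · apply hP.far_below (t := t / 4) h
      convert hx using 3; module
    · apply Kb_far c.far
      set u : ℝ := (1 / 2 : ℝ) ^ a with hu
      have hu0 : 0 < u := half_pow_pos a
      set y := x - (p + t • ((1 / 4 : ℝ) • v + (c.H * u) • n)) with hy
      have hv0 : 0 < ‖v‖ := lt_of_lt_of_le (mul_pos hP.ℓ_pos hu0) hP.hv1
      have h1 : ⟪pt p v I i - x, v⟫ = (1 / 4 + (i : ℝ) / I / 2 - t / 4) * ‖v‖ ^ 2 - ⟪y, v⟫ := by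
        have h2 : pt p v I i - x = (1 / 4 + (i : ℝ) / I / 2 - t / 4) • v -
            (t * (c.H * u)) • n - y := by
          rw [hy]; unfold pt; module
        have h3 : ⟪n, v⟫ = 0 := by rw [real_inner_comm]; exact hP.hvn
        rw [h2, inner_sub_left, inner_sub_left, inner_smul_left, inner_smul_left, h3,
          real_inner_self_eq_norm_sq]
        simp
      have h4 := real_inner_le_norm (pt p v I i - x) v
      have h5 := real_inner_le_norm y v
      have h6 : 1 / 8 ≤ 1 / 4 + (i : ℝ) / I / 2 - t / 4 := by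
        have : (0 : ℝ) ≤ (i : ℝ) / I / 2 := by positivity
        linarith
      have h7 : 1 / 8 * ‖v‖ ^ 2 ≤ (1 / 4 + (i : ℝ) / I / 2 - t / 4) * ‖v‖ ^ 2 :=
        mul_le_mul_of_nonneg_right h6 (sq_nonneg _)
      have h8 : ‖v‖ / 8 ≤ ‖pt p v I i - x‖ + ‖y‖ := by
        have : ‖v‖ / 8 * ‖v‖ ≤ (‖pt p v I i - x‖ + ‖y‖) * ‖v‖ := by nlinarith
        exact le_of_mul_le_mul_right this hv0
      have h9 : w * u ≤ 1 * u := mul_le_mul_of_nonneg_right hP.hw1 hu0.le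
      have h10 : 8 * (c.D + 1) * u ≤ ℓ * u := mul_le_mul_of_nonneg_right hP.hℓ hu0.le
      have h11 := hP.hv1
      linarith
  rw [h0, zero_sub]
  exact neg_nonpos.2 (Kb_nonneg hK _ _ _)

theorem Piece.cc_ramp2 (hP : Piece c a ℓ w I p v n) (hK : IsKernel K)
    {x : Pt d} {t : ℝ} (ht : t ∈ Icc (0 : ℝ) 1)
    (hx : ‖x - (p + (3 / 4 : ℝ) • v + (c.H * (1 / 2) ^ a) • n +
      t • ((1 / 4 : ℝ) • v - (c.H * (1 / 2) ^ a) • n))‖ ≤ w * (1 / 2) ^ a) :
    cc K a b p v ((c.H * (1 / 2) ^ a) • n) I x ≤ 0 := by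
  apply Finset.sum_nonpos
  intro i hi
  have h0 : Kb K a b (pt p v I i - x) = 0 := by
    rcases le_total t (1 / 2) with h | h
    · apply hP.far_below (t := 3 / 4 + t / 4) (η := 1 - t) (by linarith)
      convert hx using 3; module
    · apply Kb_far c.far
      set u : ℝ := (1 / 2 : ℝ) ^ a with hu
      have hu0 : 0 < u := half_pow_pos a
      have hI : (0 : ℝ) < I := by exact_mod_cast hP.hI0
      set y := x - (p + (3 / 4 : ℝ) • v + (c.H * u) • n +
        t • ((1 / 4 : ℝ) • v - (c.H * u) • n)) with hy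
      have hv0 : 0 < ‖v‖ := lt_of_lt_of_le (mul_pos hP.ℓ_pos hu0) hP.hv1
      have h1 : ⟪x - pt p v I i, v⟫ = (1 / 2 + t / 4 - (i : ℝ) / I / 2) * ‖v‖ ^ 2 + ⟪y, v⟫ := by
        have h2 : x - pt p v I i = (1 / 2 + t / 4 - (i : ℝ) / I / 2) • v +
            ((1 - t) * (c.H * u)) • n + y := by
          rw [hy]; unfold pt; module
        have h3 : ⟪n, v⟫ = 0 := by rw [real_inner_comm]; exact hP.hvn
        rw [h2, inner_add_left, inner_add_left, inner_smul_left, inner_smul_left, h3,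
          real_inner_self_eq_norm_sq]
        simp
      have h4 := real_inner_le_norm (x - pt p v I i) v
      rw [norm_sub_rev] at h4
      have h5 := real_inner_le_norm (-y) v
      rw [inner_neg_left, norm_neg] at h5
      have h6 : 1 / 8 ≤ 1 / 2 + t / 4 - (i : ℝ) / I / 2 := by
        have : (i : ℝ) / I ≤ 1 := by
          rw [div_le_one hI]
          have := Finset.mem_range.1 hi
          exact_mod_cast Nat.lt_succ_iff.1 this
        linarith
      have h7 : 1 / 8 * ‖v‖ ^ 2 ≤ (1 / 2 + t / 4 - (i : ℝ) / I / 2) * ‖v‖ ^ 2 :=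
        mul_le_mul_of_nonneg_right h6 (sq_nonneg _)
      have h8 : ‖v‖ / 8 ≤ ‖pt p v I i - x‖ + ‖y‖ := by
        have : ‖v‖ / 8 * ‖v‖ ≤ (‖pt p v I i - x‖ + ‖y‖) * ‖v‖ := by nlinarith
        exact le_of_mul_le_mul_right this hv0
      have h9 : w * u ≤ 1 * u := mul_le_mul_of_nonneg_right hP.hw1 hu0.le
      have h10 : 8 * (c.D + 1) * u ≤ ℓ * u := mul_le_mul_of_nonneg_right hP.hℓ hu0.le
      have h11 := hP.hv1
      linarith
  rw [h0, zero_sub]
  exact neg_nonpos.2 (Kb_nonneg hK _ _ _)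

/-- a crude bound of the sums over sample points -/
theorem Piece.sum_le (hP : Piece c a ℓ w I p v n) (hK : IsKernel K) (hab : a ≤ b) (x : Pt d) :
    ∑ i ∈ Finset.range (I + 1), Kb K a b (pt p v I i - x) ≤
      (((b : ℝ) - a) * Real.log 2) * (4 * c.D * I / ℓ + 1) := by
  classical
  set u : ℝ := (1 / 2 : ℝ) ^ a with hu
  have hu0 : 0 < u := half_pow_pos a
  have hI : (0 : ℝ) < I := by exact_mod_cast hP.hI0
  have hℓ := hP.ℓ_pos
  set T := (Finset.range (I + 1)).filter (fun i => ‖pt p v I i - x‖ < c.D * u) with hT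
  have hb : 0 ≤ ((b : ℝ) - a) * Real.log 2 := by
    have : (a : ℝ) ≤ b := by exact_mod_cast hab
    have := Real.log_nonneg (by norm_num : (1 : ℝ) ≤ 2)
    apply mul_nonneg _ this
    linarith
  have h1 : ∑ i ∈ Finset.range (I + 1), Kb K a b (pt p v I i - x) =
      ∑ i ∈ T, Kb K a b (pt p v I i - x) := by
    rw [hT, Finset.sum_filter]
    apply Finset.sum_congr rfl
    intro i _
    split_ifs with h
    · rfl
    · exact Kb_far c.far a b (not_lt.1 h)
  rw [h1]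
  have h2 : ∑ i ∈ T, Kb K a b (pt p v I i - x) ≤ ∑ _i ∈ T, ((b : ℝ) - a) * Real.log 2 :=
    Finset.sum_le_sum fun i _ => Kb_le hK hab _
  refine le_trans h2 ?_
  rw [Finset.sum_const, nsmul_eq_mul, mul_comm]
  apply mul_le_mul_of_nonneg_left _ hb
  apply card_close T
  · have := c.D_pos; positivity
  · intro i hi j hj
    have hi' := (Finset.mem_filter.1 hi).2
    have hj' := (Finset.mem_filter.1 hj).2
    have h3 : ‖pt p v I i - pt p v I j‖ ≤ ‖pt p v I i - x‖ + ‖pt p v I j - x‖ := by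
      have : pt p v I i - pt p v I j = (pt p v I i - x) - (pt p v I j - x) := by abel
      rw [this]; exact norm_sub_le _ _
    rw [pt_sub, norm_smul, Real.norm_eq_abs] at h3
    have h4 : ((i : ℝ) - j) / I / 2 * ‖v‖ ≤ |((i : ℝ) - j) / I / 2| * ‖v‖ :=
      mul_le_mul_of_nonneg_right (le_abs_self _) (norm_nonneg _)
    have h5 : ((i : ℝ) - j) / I / 2 * ‖v‖ ≤ 2 * (c.D * u) := by linarith
    rcases le_total ((i : ℝ) - j) 0 with h6 | h6
    · refine le_trans h6 ?_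
      have := c.D_pos; positivity
    · have h7 : ((i : ℝ) - j) / I / 2 * (ℓ * u) ≤ ((i : ℝ) - j) / I / 2 * ‖v‖ :=
        mul_le_mul_of_nonneg_left hP.hv1 (by positivity)
      have h8 : ((i : ℝ) - j) / I / 2 * ℓ * u ≤ 2 * c.D * u := by linarith
      have h9 : ((i : ℝ) - j) / I / 2 * ℓ ≤ 2 * c.D := le_of_mul_le_mul_right h8 hu0
      rw [le_div_iff₀ hℓ]
      have h10 : ((i : ℝ) - j) / I / 2 * ℓ = ((i : ℝ) - j) * ℓ / (2 * I) := by field_simp
      rw [h10, div_le_iff₀ (by positivity)] at h9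
      linarith

end

end Pool.Agent.Helper97.LogFPP
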