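import Pool.Agent.Helper97.LogFPP.Median

set_option autoImplicit false
set_option maxHeartbeats 1000000

open MeasureTheory ProbabilityTheory Set Filter Topology
open scoped NNReal ENNReal RealInnerProductSpace

namespace Pool.Agent.Helper97.LogFPP

variable {d : ℕ} {K : Pt d → ℝ}

theorem exists_half_pow_lt {ε : ℝ} (hε : 0 < ε) : ∃ n : ℕ, ∀ m, n ≤ m → (1 / 2 : ℝ) ^ m ≤ ε := by
  obtain ⟨n, hn⟩ := exists_pow_lt_of_lt_one hε (by norm_num : (1 / 2 : ℝ) < 1)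
  exact ⟨n, fun m hm => (half_pow_le hm).trans hn.le⟩

/-- the exponential decay of the medians -/
theorem decay (hd : 2 ≤ d) [NeZero d] (hK : IsKernel K) :
    ∃ c4 : ℝ, 0 < c4 ∧ ∃ δ : ℝ, 0 < δ ∧ ∀ y : ℝ, 0 < y → y ^ 2 < δ → ∃ (C : ℝ) (s : ℕ),
      ∀ {Ω : Type*} [MeasurableSpace Ω] (P : Measure Ω) (h : ℕ → Pt d → Ω → ℝ), IsField K P h →
      ∀ n, s ≤ n → ∀ m, IsMedian P (fun ω => fdist (y ^ 3) (fun x => h n x ω) (Box 2 0) 0 (e1 d)) m →
        m ≤ Real.exp (C - c4 * y ^ 4 * n) := by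
  obtain ⟨c⟩ := exists_cst hK
  have hlog : 0 < Real.log 2 := Real.log_pos (by norm_num)
  have hD := c.D_pos
  have hρ := c.ρ_pos
  have hH := c.H_pos
  have hp := p1_pos
  obtain ⟨k1, hk1⟩ := exists_half_pow_lt (ε := min 1 (c.ρ / 4) / (2 * c.H)) (by positivity)
  set k0 := max 2 k1 with hk0
  have hk0b := hk1 k0 (le_max_right _ _)
  have hk02 : 2 ≤ k0 := le_max_left _ _
  have hk0r : (0 : ℝ) < k0 := by
    have : (2 : ℝ) ≤ k0 := by exact_mod_cast hk02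
    linarith
  rw [le_div_iff₀ (by positivity)] at hk0b
  set C1 : ℝ := 6 / c.ρ * (2 * ((k0 * Real.log 2) * (20 * c.D / c.ρ + 1))) with hC1
  have hC1p : 0 < C1 := by positivity
  have hsC1 : 0 < √C1 := Real.sqrt_pos.2 hC1p
  set B : ℝ := max 1 (16 * c.H ^ 2 * √C1 / (p1 * Real.log 2)) with hB
  have hB1 : 1 ≤ B := le_max_left _ _
  have hB2 : 16 * c.H ^ 2 * √C1 / (p1 * Real.log 2) ≤ B := le_max_right _ _
  have hB0 : 0 < B := by linarith
  set c2 : ℝ := Real.log 2 / 2 / (√C1 * B) with hc2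
  have hc2p : 0 < c2 := by positivity
  set c3 : ℝ := p1 * c2 / 4 with hc3
  have hc3p : 0 < c3 := by positivity
  have hkey : 2 * c.H ^ 2 / B ^ 4 ≤ c3 := by
    rw [div_le_iff₀ (by positivity)]
    have h1 : B ≤ B ^ 3 := by nlinarith [sq_nonneg B]
    rw [div_le_iff₀ (by positivity)] at hB2
    have h2 : c3 * B ^ 4 = (p1 * Real.log 2) * B ^ 3 / (8 * √C1) := by
      rw [hc3, hc2]; field_simp; ring
    rw [h2, le_div_iff₀ (by positivity)]
    have h3 : B * (p1 * Real.log 2) ≤ B ^ 3 * (p1 * Real.log 2) :=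
      mul_le_mul_of_nonneg_right h1 (by positivity)
    linarith
  set δ : ℝ := min (min 1 (B ^ 2 / (8 * (c.D + 1) + c.ρ))) (min (c3 / (k0 * Real.log 2)) (1 / c2))
    with hδ
  have hδp : 0 < δ := by positivity
  refine ⟨c3 / (2 * k0), by positivity, δ, hδp, fun y hy hyδ => ?_⟩
  have hy1 : y ^ 2 < 1 := lt_of_lt_of_le hyδ ((min_le_left _ _).trans (min_le_left _ _))
  have hy2 : y ^ 2 < B ^ 2 / (8 * (c.D + 1) + c.ρ) :=
    lt_of_lt_of_le hyδ ((min_le_left _ _).trans (min_le_right _ _))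
  have hy3 : y ^ 2 < c3 / (k0 * Real.log 2) :=
    lt_of_lt_of_le hyδ ((min_le_right _ _).trans (min_le_left _ _))
  have hy4 : y ^ 2 < 1 / c2 :=
    lt_of_lt_of_le hyδ ((min_le_right _ _).trans (min_le_right _ _))
  have hy20 : 0 < y ^ 2 := by positivity
  rw [lt_div_iff₀ (by positivity)] at hy2 hy3 hy4
  set ℓ : ℝ := B ^ 2 / y ^ 2 with hℓ
  have hℓp : 0 < ℓ := by positivity
  have hℓ1 : 8 * (c.D + 1) + c.ρ ≤ ℓ := by
    rw [hℓ, le_div_iff₀ hy20]; linarith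
  set I : ℕ := ⌈4 * ℓ / c.ρ⌉₊ with hI
  have hI1 : 4 * ℓ / c.ρ ≤ I := Nat.le_ceil _
  have hI2 : (I : ℝ) < 4 * ℓ / c.ρ + 1 := Nat.ceil_lt_add_one (by positivity)
  have hI0 : 0 < I := by
    have : (0 : ℝ) < I := lt_of_lt_of_le (by positivity) hI1
    exact_mod_cast this
  have hℓρ : 1 ≤ ℓ / c.ρ := by rw [le_div_iff₀ hρ]; linarith
  have hI3 : (I : ℝ) ≤ 5 * (ℓ / c.ρ) := by
    have : 4 * ℓ / c.ρ = 4 * (ℓ / c.ρ) := by ring
    linarith
  set ξ := y ^ 3 with hξ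
  have hξp : 0 < ξ := by positivity
  obtain ⟨s1, hs1⟩ := exists_half_pow_lt (ε := min (1 / (4 * c.H)) (1 / ℓ)) (by positivity)
  set π : Par := ⟨s1, k0, I, ℓ, ξ⟩ with hπ
  set σ : ℝ := c2 * y ^ 4 with hσ
  have hy4' : y ^ 4 = y ^ 2 * y ^ 2 := by ring
  have G : Good π c σ (C1 * ℓ) := by
    refine ⟨hk02, ?_, ?_, ?_, hI0, hI1, hξp, by positivity, ?_, ?_, ?_⟩
    · have := min_le_left 1 (c.ρ / 4)
      change 2 * c.H * (1 / 2) ^ k0 ≤ 1
      linarith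
    · have := min_le_right 1 (c.ρ / 4)
      change 2 * c.H * (1 / 2) ^ k0 ≤ c.ρ / 4
      linarith
    · change 8 * (c.D + 1) ≤ ℓ
      linarith
    · rw [hσ, hy4']
      have : y ^ 2 * y ^ 2 ≤ y ^ 2 * 1 := mul_le_mul_of_nonneg_left hy1.le hy20.le
      nlinarith
    · change ((I : ℝ) + 1) * (2 * ((k0 * Real.log 2) * (4 * c.D * I / ℓ + 1))) ≤ C1 * ℓ
      have h1 : (I : ℝ) + 1 ≤ 6 * (ℓ / c.ρ) := by linarith
      have h2 : 4 * c.D * I / ℓ ≤ 20 * c.D / c.ρ := by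
        rw [div_le_iff₀ hℓp]
        have : 20 * c.D / c.ρ * ℓ = 4 * c.D * (5 * (ℓ / c.ρ)) := by ring
        rw [this]
        exact mul_le_mul_of_nonneg_left hI3 (by positivity)
      calc ((I : ℝ) + 1) * (2 * ((k0 * Real.log 2) * (4 * c.D * I / ℓ + 1))) ≤
          (6 * (ℓ / c.ρ)) * (2 * ((k0 * Real.log 2) * (20 * c.D / c.ρ + 1))) := by gcongr
        _ = C1 * ℓ := by rw [hC1]; ring
    · change c2 * y ^ 4 * √(C1 * ℓ) ≤ ξ * (Real.log 2 / 2)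
      have h1 : √(C1 * ℓ) = √C1 * B / y := by
        rw [Real.sqrt_mul hC1p.le, hℓ, Real.sqrt_div (sq_nonneg _), Real.sqrt_sq hB0.le,
          Real.sqrt_sq hy.le]
        ring
      rw [h1, hc2, hξ]
      apply le_of_eq
      field_simp
  have hu0 : π.u 0 = (1 / 2) ^ s1 := by unfold Par.u Par.sc; simp [hπ]
  have hs1' := hs1 s1 le_rfl
  have hg1 : 2 * c.H * π.u 0 ≤ 1 / 2 := by
    rw [hu0]
    have h1 := hs1'.trans (min_le_left _ _)
    rw [le_div_iff₀ (by positivity)] at h1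
    linarith
  have hg2 : π.ℓ * π.u 0 ≤ 1 := by
    rw [hu0]
    have h1 := hs1'.trans (min_le_right _ _)
    rw [le_div_iff₀ hℓp] at h1
    change ℓ * (1 / 2) ^ s1 ≤ 1
    linarith
  have hΘ0 : 0 ≤ π.Θ c.H σ := by
    unfold Par.Θ
    apply mul_nonneg π.E_pos.le
    have h1 : 0 ≤ 2 * (c.H / π.ℓ) ^ 2 := by positivity
    have := p1_le
    have := G.hσ0
    have := G.hσ1
    nlinarith
  have hΘ : π.Θ c.H σ ≤ Real.exp (-(c3 / 2 * y ^ 4)) := by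
    unfold Par.Θ Par.E
    change Real.exp (ξ ^ 2 * (k0 * Real.log 2) / 2) * (1 - p1 * σ / 2 + 2 * (c.H / ℓ) ^ 2) ≤ _
    have h1 : 2 * (c.H / ℓ) ^ 2 ≤ c3 * y ^ 4 := by
      have : 2 * (c.H / ℓ) ^ 2 = 2 * c.H ^ 2 / B ^ 4 * y ^ 4 := by
        rw [hℓ]; field_simp
      rw [this]
      exact mul_le_mul_of_nonneg_right hkey (by positivity)
    have h2 : 1 - p1 * σ / 2 + 2 * (c.H / ℓ) ^ 2 ≤ 1 - c3 * y ^ 4 := by
      have : p1 * σ / 2 = 2 * c3 * y ^ 4 := by rw [hσ, hc3]; ring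
      rw [this]; linarith
    have h3 : 1 - c3 * y ^ 4 ≤ Real.exp (-(c3 * y ^ 4)) := by
      have := Real.add_one_le_exp (-(c3 * y ^ 4))
      linarith
    have h4 : ξ ^ 2 * (k0 * Real.log 2) / 2 ≤ c3 / 2 * y ^ 4 := by
      have h5 : ξ ^ 2 * (k0 * Real.log 2) / 2 = (y ^ 2 * (k0 * Real.log 2)) * (y ^ 4 / 2) := by
        rw [hξ]; ring
      rw [h5]
      have := mul_le_mul_of_nonneg_right hy3.le (by positivity : 0 ≤ y ^ 4 / 2)
      linarith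
    calc Real.exp (ξ ^ 2 * (k0 * Real.log 2) / 2) * (1 - p1 * σ / 2 + 2 * (c.H / ℓ) ^ 2) ≤
        Real.exp (c3 / 2 * y ^ 4) * Real.exp (-(c3 * y ^ 4)) := by
          apply mul_le_mul (Real.exp_le_exp.2 h4) (h2.trans h3) _ (Real.exp_pos _).le
          have : 0 ≤ 2 * (c.H / ℓ) ^ 2 := by positivity
          have := p1_le
          have := G.hσ0
          have := G.hσ1
          nlinarith
      _ = Real.exp (-(c3 / 2 * y ^ 4)) := by rw [← Real.exp_add]; congr 1; ring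
  refine ⟨Real.log 2 + ξ ^ 2 * ((s1 + k0) * Real.log 2) / 2 + c3 / 2 * y ^ 4 * (s1 / k0 + 1), s1,
    fun P h hh n hn m hm => ?_⟩
  set J := (n - s1) / k0 with hJ
  have hJ1 : π.sc J ≤ n := by
    change s1 + (n - s1) / k0 * k0 ≤ n
    have := Nat.div_mul_le_self (n - s1) k0
    omega
  have hJ2 : n ≤ π.sc J + π.k0 := by
    change n ≤ s1 + (n - s1) / k0 * k0 + k0
    have := Nat.lt_div_mul_add (a := n - s1) (by omega : 0 < k0)
    omega
  have h1 := median_le G hh hK hd hg1 hg2 hJ1 hJ2 hm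
  refine h1.trans ?_
  have h2 : π.Θ c.H σ ^ J ≤ Real.exp (-(c3 / 2 * y ^ 4)) ^ J := pow_le_pow_left₀ hΘ0 hΘ J
  have h3 : Real.exp (-(c3 / 2 * y ^ 4)) ^ J = Real.exp (-(c3 / 2 * y ^ 4) * J) := by
    rw [← Real.exp_nat_mul]; congr 1; ring
  have h4 : (n : ℝ) / k0 - s1 / k0 - 1 ≤ J := by
    have h5 : (n : ℝ) ≤ s1 + J * k0 + k0 := by
      have : n ≤ s1 + J * k0 + k0 := hJ2
      exact_mod_cast this
    have h6 : (n : ℝ) / k0 ≤ (s1 + J * k0 + k0) / k0 := div_le_div_of_nonneg_right h5 hk0r.le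
    have h7 : (s1 + J * k0 + k0 : ℝ) / k0 = s1 / k0 + J + 1 := by field_simp
    linarith
  change 2 * (π.Θ c.H σ ^ J * Real.exp (ξ ^ 2 * ((s1 + k0) * Real.log 2) / 2)) ≤ _
  calc 2 * (π.Θ c.H σ ^ J * Real.exp (ξ ^ 2 * ((s1 + k0) * Real.log 2) / 2)) ≤
      Real.exp (Real.log 2) * (Real.exp (-(c3 / 2 * y ^ 4) * J) *
        Real.exp (ξ ^ 2 * ((s1 + k0) * Real.log 2) / 2)) := by
        rw [Real.exp_log (by norm_num), ← h3]
        gcongr
    _ = Real.exp (Real.log 2 + (-(c3 / 2 * y ^ 4) * J +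
        ξ ^ 2 * ((s1 + k0) * Real.log 2) / 2)) := by
        rw [← Real.exp_add, ← Real.exp_add]
    _ ≤ _ := by
        apply Real.exp_le_exp.2
        have h8 : c3 / 2 * y ^ 4 * ((n : ℝ) / k0 - s1 / k0 - 1) ≤ c3 / 2 * y ^ 4 * J :=
          mul_le_mul_of_nonneg_left h4 (by positivity)
        have h9 : c3 / (2 * k0) * y ^ 4 * n = c3 / 2 * y ^ 4 * ((n : ℝ) / k0) := by
          field_simp
        rw [h9]
        linarith

/-- **lower bound** -/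
theorem lower (hd : 2 ≤ d) [NeZero d] (hK : IsKernel K) :
    ∃ c : ℝ, 0 < c ∧ ∃ ξ0 : ℝ, 0 < ξ0 ∧ ∀ ξ : ℝ, 0 < ξ → ξ < ξ0 →
      ∀ {Ω : Type*} [MeasurableSpace Ω] (P : Measure Ω) (h : ℕ → Pt d → Ω → ℝ), IsField K P h →
      ∀ Q : ℝ, IsExponent P h ξ Q → c * ξ ^ (4 / 3 : ℝ) ≤ 1 - ξ * Q := by
  have hlog : 0 < Real.log 2 := Real.log_pos (by norm_num)
  obtain ⟨c4, hc4, δ, hδ, H⟩ := decay hd hK
  refine ⟨c4 / Real.log 2, by positivity, δ ^ (3 / 2 : ℝ), by positivity, ?_⟩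
  intro ξ hξ hξ0 Ω _ P h hh Q hQ
  set y : ℝ := ξ ^ (1 / 3 : ℝ) with hy
  have hyp : 0 < y := by positivity
  have hy3 : y ^ 3 = ξ := by
    rw [hy, ← Real.rpow_natCast, ← Real.rpow_mul hξ.le]; norm_num
  have hy4 : y ^ 4 = ξ ^ (4 / 3 : ℝ) := by
    rw [hy, ← Real.rpow_natCast, ← Real.rpow_mul hξ.le]; norm_num
  have hy2 : y ^ 2 < δ := by
    have h1 : y ^ 2 = ξ ^ (2 / 3 : ℝ) := by
      rw [hy, ← Real.rpow_natCast, ← Real.rpow_mul hξ.le]; norm_num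
    rw [h1]
    calc ξ ^ (2 / 3 : ℝ) < (δ ^ (3 / 2 : ℝ)) ^ (2 / 3 : ℝ) :=
          Real.rpow_lt_rpow hξ.le hξ0 (by norm_num)
      _ = δ := by rw [← Real.rpow_mul hδ.le]; norm_num
  obtain ⟨C, s, hC⟩ := H y hyp hy2
  rw [hy3] at hC
  obtain ⟨lam, hlam, o, ho, hexp⟩ := hQ
  have key : ∀ n : ℕ, max s 1 ≤ n → -(1 - ξ * Q) + o n / n ≤
      C / Real.log 2 * (1 / n) - c4 / Real.log 2 * y ^ 4 := by
    intro n hn
    have hn1 : 1 ≤ n := (le_max_right _ _).trans hn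
    have hns : s ≤ n := (le_max_left _ _).trans hn
    have hn0 : (0 : ℝ) < n := by exact_mod_cast hn1
    have h1 := hC P h hh n hns _ (hlam n hn1)
    rw [hexp n hn1, Real.rpow_def_of_pos (by norm_num), Real.exp_le_exp] at h1
    have h2 : (-(1 - ξ * Q) + o n / n) * (Real.log 2 * n) ≤
        (C / Real.log 2 * (1 / n) - c4 / Real.log 2 * y ^ 4) * (Real.log 2 * n) := by
      have e1 : (-(1 - ξ * Q) + o n / n) * (Real.log 2 * n) =
          Real.log 2 * (-(1 - ξ * Q) * n + o n) := by field_simp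
      have e2 : (C / Real.log 2 * (1 / n) - c4 / Real.log 2 * y ^ 4) * (Real.log 2 * n) =
          C - c4 * y ^ 4 * n := by field_simp
      rw [e1, e2]; exact h1
    exact le_of_mul_le_mul_right h2 (by positivity)
  have l1 : Tendsto (fun n : ℕ => -(1 - ξ * Q) + o n / n) atTop (𝓝 (-(1 - ξ * Q) + 0)) :=
    tendsto_const_nhds.add ho
  have l2 : Tendsto (fun n : ℕ => C / Real.log 2 * (1 / (n : ℝ)) - c4 / Real.log 2 * y ^ 4) atTop
      (𝓝 (C / Real.log 2 * 0 - c4 / Real.log 2 * y ^ 4)) :=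
    (tendsto_const_nhds.mul tendsto_one_div_atTop_nhds_zero_nat).sub tendsto_const_nhds
  have h3 := le_of_tendsto_of_tendsto l1 l2
    (Filter.eventually_atTop.2 ⟨max s 1, fun n hn => key n hn⟩)
  rw [← hy4]
  linarith

end Pool.Agent.Helper97.LogFPP
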