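import Pool.Agent.Helper97.LogFPP.Pathwise

set_option autoImplicit false
set_option maxHeartbeats 400000

open MeasureTheory ProbabilityTheory Set Filter Topology
open scoped NNReal ENNReal RealInnerProductSpace

namespace Pool.Agent.Helper97.LogFPP

variable {d : ℕ} {K : Pt d → ℝ} {Ω : Type*} {mΩ : MeasurableSpace Ω} {P : Measure Ω}
  {h : ℕ → Pt d → Ω → ℝ} {π : Par} {c : Cst K} {σ V : ℝ}

theorem Isc_zero (hK : IsKernel K) (n : ℕ) : Isc K n 0 = n * Real.log 2 := by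
  have h1 : Isc K n 0 = Kb K 0 n 0 := by unfold Isc Kb; rw [pow_zero]
  rw [h1, Kb_zero hK (Nat.zero_le n)]
  simp

theorem var_init (hh : IsField K P h) (hK : IsKernel K) {s N n : ℕ} (hsN : s ≤ N) (hNn : N ≤ n)
    (x : Pt d) : Var[h s x + bnd h N n x; P] = ((s : ℝ) + ((n : ℝ) - N)) * Real.log 2 := by
  have := hh.gaussian.isProbabilityMeasure
  have m1 := LS_memLp hh.gaussian (h_mem (h := h) s x)
  have m2 := LS_memLp hh.gaussian (bnd_mem (h := h) N n x)
  rw [variance_add m1 m2, hh.cov_h_bnd, min_eq_left hsN, min_eq_left (hsN.trans hNn), sub_self,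
    hh.var_bnd hK hNn, ← covariance_self m1.aemeasurable, hh.cov_eq, min_self, sub_self,
    Isc_zero hK]
  ring

/-- the distance of the endpoints is at most the cost -/
theorem fdist_le_cost [NeZero d] (G : Good π c σ V) (hh : IsField K P h) (hd : 2 ≤ d)
    (hs1 : 2 * c.H * π.u 0 ≤ 1 / 2) (hs2 : π.ℓ * π.u 0 ≤ 1) (J n : ℕ) (ω : Ω) :
    ENNReal.ofReal (fdist π.ξ (fun x => h n x ω) (Box 2 0) 0 (e1 d)) ≤
      cost π hd c h J 0 0 (e1 d) (fun x ω => ENNReal.ofReal (Real.exp (π.ξ * (h (π.sc 0) x +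
        bnd h (π.sc J) n x) ω))) ω := by
  have he : ‖e1 d‖ = 1 := by
    unfold e1
    rw [EuclideanSpace.norm_single]
    simp
  obtain ⟨L, hL, hL2⟩ := cost_path G hh hd ω J 0 0 (e1 d)
    (fun x ω => ENNReal.ofReal (Real.exp (π.ξ * (h (π.sc 0) x + bnd h (π.sc J) n x) ω)))
    (fun x => Real.exp (π.ξ * (h (π.sc 0) x ω + bnd h (π.sc J) n x ω)))
    (by rw [sub_zero, he]; exact hs2)
    (by
      apply Real.continuous_exp.comp
      apply continuous_const.mul
      apply (hh.smooth _ ω).continuous.add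
      exact (hh.smooth _ ω).continuous.sub (hh.smooth _ ω).continuous)
    (fun x => (Real.exp_pos _).le) (fun x => rfl)
  refine le_trans (ENNReal.ofReal_le_ofReal ?_) hL2
  apply fdist_le
  have e0 : (fun x => Real.exp (π.ξ * h n x ω)) = fun x =>
      Real.exp (π.ξ * (h (π.sc 0) x ω + bnd h (π.sc J) n x ω)) *
        Real.exp (π.ξ * bnd h (π.sc 0) (π.sc (0 + J)) x ω) := by
    funext x
    rw [← Real.exp_add, zero_add]
    congr 1
    unfold bnd
    ring
  rw [e0]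
  apply hL.mono
  rintro x ⟨t, ht, hx⟩ i
  rw [sub_zero, zero_add] at hx
  have h1 : |x i - t * (e1 d) i| ≤ ‖x - t • e1 d‖ := by
    have := PiLp.norm_apply_le (x - t • e1 d) i
    simpa [Real.norm_eq_abs] using this
  have h2 : |(e1 d) i| ≤ 1 := by
    have := PiLp.norm_apply_le (e1 d) i
    rwa [he, Real.norm_eq_abs] at this
  have h3 : |t * (e1 d) i| ≤ 1 := by
    rw [abs_mul, abs_of_nonneg ht.1]
    calc t * |(e1 d) i| ≤ 1 * 1 := mul_le_mul ht.2 h2 (abs_nonneg _) zero_le_one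
      _ = 1 := one_mul 1
  have h4 : |x i| ≤ |x i - t * (e1 d) i| + |t * (e1 d) i| := by
    have := abs_add_le (x i - t * (e1 d) i) (t * (e1 d) i)
    rwa [sub_add_cancel] at this
  simp only [PiLp.zero_apply, sub_zero]
  linarith

/-- bound of a median -/
theorem median_le [NeZero d] (G : Good π c σ V) (hh : IsField K P h) (hK : IsKernel K)
    (hd : 2 ≤ d) (hs1 : 2 * c.H * π.u 0 ≤ 1 / 2) (hs2 : π.ℓ * π.u 0 ≤ 1) {J n : ℕ}
    (hJ : π.sc J ≤ n) (hJ2 : n ≤ π.sc J + π.k0) {m : ℝ}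
    (hm : IsMedian P (fun ω => fdist π.ξ (fun x => h n x ω) (Box 2 0) 0 (e1 d)) m) :
    m ≤ 2 * (π.Θ c.H σ ^ J * Real.exp (π.ξ ^ 2 * ((π.s + π.k0) * Real.log 2) / 2)) := by
  have := hh.gaussian.isProbabilityMeasure
  have hlog : 0 < Real.log 2 := Real.log_pos (by norm_num)
  have he : ‖e1 d‖ = 1 := by
    unfold e1
    rw [EuclideanSpace.norm_single]
    simp
  have hΘ0 : 0 ≤ π.Θ c.H σ := by
    unfold Par.Θ
    apply mul_nonneg π.E_pos.le
    have h1 : 0 ≤ 2 * (c.H / π.ℓ) ^ 2 := by positivity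
    have := p1_le
    have := p1_pos
    have := G.hσ0
    have := G.hσ1
    nlinarith
  set W : Pt d → Ω → ℝ≥0∞ := fun x ω => ENNReal.ofReal (Real.exp (π.ξ * (h (π.sc 0) x +
        bnd h (π.sc J) n x) ω)) with hW
  have hmem : ∀ x, h (π.sc 0) x + bnd h (π.sc J) n x ∈ HS h := fun x =>
    Submodule.add_mem _ (h_mem _ _) (bnd_mem _ _ _)
  have hsc : π.sc 0 ≤ π.sc J := by unfold Par.sc; simp
  have hAd : Ad h (π.sc 0) (π.sc J) n W := by
    constructor
    · intro x
      apply ENNReal.measurable_ofReal.comp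
      apply Real.measurable_exp.comp
      apply Measurable.const_mul
      exact Measurable.add (meas_past_h le_rfl x) (meas_past_rem x)
    · apply ENNReal.measurable_ofReal.comp
      apply Real.measurable_exp.comp
      apply Measurable.const_mul
      exact (hh.joint_h _).add (hh.joint_bnd _ _)
  have hB : ∀ x ∈ Nb 0 (e1 d) (2 * c.H * π.u 0), ∫⁻ ω, W x ω ∂P ≤
      ENNReal.ofReal (Real.exp (π.ξ ^ 2 * ((π.s + π.k0) * Real.log 2) / 2)) := by
    intro x _
    have h1 := LS_lexp hh.gaussian (fun t => hh.mean t.1 t.2) (hmem x) π.ξ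
    have h2 := var_init hh hK hsc hJ x
    rw [h2] at h1
    rw [h1]
    apply ENNReal.ofReal_le_ofReal
    apply Real.exp_le_exp.2
    have h3 : (n : ℝ) ≤ π.sc J + π.k0 := by exact_mod_cast hJ2
    have h4 : ((π.sc 0 : ℕ) : ℝ) = π.s := by unfold Par.sc; simp
    rw [h4]
    have h5 : ((π.s : ℝ) + ((n : ℝ) - (π.sc J : ℕ))) * Real.log 2 ≤
        (π.s + π.k0) * Real.log 2 := by
      apply mul_le_mul_of_nonneg_right _ hlog.le
      linarith
    have h6 : 0 ≤ π.ξ ^ 2 := sq_nonneg _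
    have := mul_le_mul_of_nonneg_left h5 h6
    linarith
  have h1 := cost_exp G hh hK hd hJ J 0 0 (e1 d) W _ (by rw [zero_add]) hAd hB
  rw [sub_zero, he, ENNReal.ofReal_one, mul_one, ← ENNReal.ofReal_pow hΘ0,
    ← ENNReal.ofReal_mul (pow_nonneg hΘ0 _)] at h1
  have hmeas := cost_meas π hd c hh J 0 0 (e1 d) W hAd.2
  have h2 : ENNReal.ofReal m * P {ω | ENNReal.ofReal m ≤ cost π hd c h J 0 0 (e1 d) W ω} ≤
      ∫⁻ ω, cost π hd c h J 0 0 (e1 d) W ω ∂P := mul_meas_ge_le_lintegral hmeas _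
  have h3 : (1 / 2 : ℝ≥0∞) ≤ P {ω | ENNReal.ofReal m ≤ cost π hd c h J 0 0 (e1 d) W ω} := by
    refine hm.2.trans (measure_mono ?_)
    intro ω hω
    exact (ENNReal.ofReal_le_ofReal hω).trans (fdist_le_cost G hh hd hs1 hs2 J n ω)
  have h4 : ENNReal.ofReal m * (1 / 2) ≤ ENNReal.ofReal (π.Θ c.H σ ^ J *
      Real.exp (π.ξ ^ 2 * ((π.s + π.k0) * Real.log 2) / 2)) :=
    (mul_le_mul_right h3 _).trans (h2.trans h1)
  rcases le_total m 0 with hm0 | hm0
  · refine hm0.trans ?_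
    have := pow_nonneg hΘ0 J
    positivity
  · have h5 : (1 / 2 : ℝ≥0∞) = ENNReal.ofReal (1 / 2) := by
      rw [ENNReal.ofReal_div_of_pos (by norm_num)]
      simp
    rw [h5, ← ENNReal.ofReal_mul hm0, ENNReal.ofReal_le_ofReal_iff (by
      have := pow_nonneg hΘ0 J
      positivity)] at h4
    linarith

end Pool.Agent.Helper97.LogFPP
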