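import Pool.Agent.Helper97.LogFPP.Defs

set_option autoImplicit false
set_option maxHeartbeats 400000

open MeasureTheory ProbabilityTheory Set Filter Topology
open scoped NNReal ENNReal RealInnerProductSpace

namespace Pool.Agent.Helper97.LogFPP

variable {d : ℕ}

theorem mono_of_lt {N : ℕ} {t : ℕ → ℝ} (h : ∀ i < N, t i < t (i + 1)) {i j : ℕ} (hij : i ≤ j)
    (hj : j ≤ N) : t i ≤ t j := by
  induction j, hij using Nat.le_induction with
  | base => exact le_rfl
  | succ k hk ih => exact (ih (by omega)).trans (h k (by omega)).le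

/-- on a smooth piece the derivative is a.e. continuous -/
theorem piece_deriv {γ : ℝ → Pt d} {a b : ℝ} (hab : a < b) (hγ : ContDiffOn ℝ 1 γ (Icc a b)) :
    ContinuousOn (derivWithin γ (Icc a b)) (Icc a b) ∧
    ∀ s ∈ Ioo a b, deriv γ s = derivWithin γ (Icc a b) s ∧ DifferentiableAt ℝ γ s := by
  have hu := uniqueDiffOn_Icc hab
  refine ⟨hγ.continuousOn_derivWithin hu le_rfl, fun s hs => ?_⟩
  have hn : Icc a b ∈ 𝓝 s := Icc_mem_nhds hs.1 hs.2
  refine ⟨(derivWithin_of_mem_nhds hn).symm, ?_⟩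
  exact ((hγ.differentiableOn one_ne_zero) s ⟨hs.1.le, hs.2.le⟩).differentiableAt hn

theorem piece_integrable {g : Pt d → ℝ} (hg : Continuous g) {γ : ℝ → Pt d} {a b : ℝ} (hab : a < b)
    (hγ : ContDiffOn ℝ 1 γ (Icc a b)) :
    IntervalIntegrable (fun s => g (γ s) * ‖deriv γ s‖) volume a b := by
  obtain ⟨h1, h2⟩ := piece_deriv hab hγ
  have h3 : ContinuousOn (fun s => g (γ s) * ‖derivWithin γ (Icc a b) s‖) (uIcc a b) := by
    rw [uIcc_of_le hab.le]
    exact (hg.comp_continuousOn hγ.continuousOn).mul h1.norm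
  refine h3.intervalIntegrable.congr_ae ?_
  rw [uIoc_of_le hab.le]
  rw [← restrict_Ioo_eq_restrict_Ioc]
  refine (ae_restrict_iff' measurableSet_Ioo).2 (ae_of_all _ fun s hs => ?_)
  simp only
  rw [(h2 s hs).1]

theorem IsPath.intervalIntegrable {U : Set (Pt d)} {z w : Pt d} {γ : ℝ → Pt d}
    (h : IsPath U z w γ) {g : Pt d → ℝ} (hg : Continuous g) :
    IntervalIntegrable (fun s => g (γ s) * ‖deriv γ s‖) volume 0 1 := by
  obtain ⟨N, t, h0, h1, h2, h3⟩ := h.piecewise
  have := IntervalIntegrable.trans_iterate (a := t) (n := N) (μ := volume)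
    (f := fun s => g (γ s) * ‖deriv γ s‖) fun k hk => piece_integrable hg (h2 k hk) (h3 k hk)
  rwa [h0, h1] at this

/-- there is a path from `a` to `b` in `U` of `g`-length `L` -/
def Conn (g : Pt d → ℝ) (U : Set (Pt d)) (a b : Pt d) (L : ℝ) : Prop :=
  ∃ γ, IsPath U a b γ ∧ L = ∫ s in (0 : ℝ)..1, g (γ s) * ‖deriv γ s‖

theorem Conn.mono {g : Pt d → ℝ} {U U' : Set (Pt d)} {a b : Pt d} {L : ℝ} (h : Conn g U a b L)
    (hU : U ⊆ U') : Conn g U' a b L := by
  obtain ⟨γ, h1, h2⟩ := h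
  exact ⟨γ, ⟨h1.cont, h1.piecewise, fun s hs => hU (h1.mem s hs), h1.start, h1.finish⟩, h2⟩

theorem conn_segment (g : Pt d → ℝ) {U : Set (Pt d)} {a b : Pt d}
    (hU : ∀ t ∈ Icc (0 : ℝ) 1, a + t • (b - a) ∈ U) :
    Conn g U a b (∫ t in (0 : ℝ)..1, g (a + t • (b - a)) * ‖b - a‖) := by
  have hd : ∀ s : ℝ, deriv (fun t : ℝ => a + t • (b - a)) s = b - a := by
    intro s
    have h1 : HasDerivAt (fun t : ℝ => a + t • (b - a)) ((1 : ℝ) • (b - a)) s :=
      ((hasDerivAt_id s).smul_const (b - a)).const_add a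
    rw [one_smul] at h1
    exact h1.deriv
  refine ⟨fun t => a + t • (b - a), ⟨?_, ⟨1, fun i => i, ?_, ?_, ?_, ?_⟩, hU, ?_, ?_⟩, ?_⟩
  · fun_prop
  · simp
  · simp
  · intro i hi; simp
  · intro i hi; fun_prop
  · simp
  · simp
  · simp only [hd]

theorem Conn.trans {g : Pt d → ℝ} (hg : Continuous g) {U : Set (Pt d)} {a b c : Pt d} {L1 L2 : ℝ}
    (h1 : Conn g U a b L1) (h2 : Conn g U b c L2) : Conn g U a c (L1 + L2) := by
  obtain ⟨γ1, p1, e1⟩ := h1
  obtain ⟨γ2, p2, e2⟩ := h2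
  obtain ⟨N1, t1, a0, a1, a2, a3⟩ := p1.piecewise
  obtain ⟨N2, t2, b0, b1, b2, b3⟩ := p2.piecewise
  set γ : ℝ → Pt d := fun s => if s ≤ 1 / 2 then γ1 (2 * s) else γ2 (2 * s - 1) with hγ
  have hγ1 : ∀ s, s ≤ 1 / 2 → γ s = γ1 (2 * s) := fun s hs => by rw [hγ]; simp only; rw [if_pos hs]
  have hγ2 : ∀ s, 1 / 2 ≤ s → γ s = γ2 (2 * s - 1) := by
    intro s hs
    rcases eq_or_lt_of_le hs with h | h
    · rw [hγ1 s h.ge, ← h]
      norm_num
      rw [p1.finish, p2.start]
    · rw [hγ]; simp only; rw [if_neg (not_le.2 h)]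
  have hs1 : ∀ i ≤ N1, t1 i ∈ Icc (0 : ℝ) 1 := fun i hi =>
    ⟨a0 ▸ mono_of_lt a2 (Nat.zero_le i) hi, a1 ▸ mono_of_lt a2 hi le_rfl⟩
  have hs2 : ∀ i ≤ N2, t2 i ∈ Icc (0 : ℝ) 1 := fun i hi =>
    ⟨b0 ▸ mono_of_lt b2 (Nat.zero_le i) hi, b1 ▸ mono_of_lt b2 hi le_rfl⟩
  refine ⟨γ, ⟨?_, ?_, ?_, ?_, ?_⟩, ?_⟩
  · have e : Icc (0 : ℝ) 1 = Icc 0 (1 / 2) ∪ Icc (1 / 2) 1 := by
      rw [Icc_union_Icc_eq_Icc] <;> norm_num
    rw [e]
    apply ContinuousOn.union_of_isClosed _ _ isClosed_Icc isClosed_Icc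
    · have h1 : ContinuousOn (fun s => γ1 (2 * s)) (Icc 0 (1 / 2)) := by
        apply p1.cont.comp (by fun_prop)
        intro s hs
        exact ⟨by linarith [hs.1], by linarith [hs.2]⟩
      exact h1.congr fun s hs => hγ1 s hs.2
    · have h1 : ContinuousOn (fun s => γ2 (2 * s - 1)) (Icc (1 / 2) 1) := by
        apply p2.cont.comp (by fun_prop)
        intro s hs
        exact ⟨by linarith [hs.1], by linarith [hs.2]⟩
      exact h1.congr fun s hs => hγ2 s hs.1
  · refine ⟨N1 + N2, fun i => if i ≤ N1 then t1 i / 2 else 1 / 2 + t2 (i - N1) / 2, ?_, ?_, ?_, ?_⟩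
    · simp [a0]
    · rcases Nat.eq_zero_or_pos N2 with h | h
      · exfalso
        rw [h] at b1
        rw [b0] at b1
        exact zero_ne_one b1
      · have : ¬ (N1 + N2 ≤ N1) := by omega
        simp only [this, if_false, Nat.add_sub_cancel_left, b1]
        norm_num
    · intro i hi
      by_cases h1 : i + 1 ≤ N1
      · simp only [h1, if_true, (by omega : i ≤ N1)]
        linarith [a2 i (by omega)]
      · by_cases h2 : i ≤ N1
        · have h3 : i = N1 := by omega
          have h4 := b2 0 (by omega)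
          rw [b0] at h4
          beta_reduce
          rw [if_neg h1, if_pos h2, h3, a1, show N1 + 1 - N1 = 0 + 1 by omega]
          linarith
        · simp only [h1, if_false, h2]
          have h4 := b2 (i - N1) (by omega)
          rw [show i + 1 - N1 = i - N1 + 1 by omega]
          linarith
    · intro i hi
      by_cases h1 : i + 1 ≤ N1
      · simp only [h1, if_true, (by omega : i ≤ N1)]
        have h2 : ContDiffOn ℝ 1 (fun s => γ1 (2 * s)) (Icc (t1 i / 2) (t1 (i + 1) / 2)) := by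
          apply (a3 i (by omega)).comp (by fun_prop)
          intro s hs
          exact ⟨by linarith [hs.1], by linarith [hs.2]⟩
        apply h2.congr
        intro s hs
        apply hγ1
        have := (hs1 (i + 1) h1).2
        linarith [hs.2]
      · have h3 : (if i ≤ N1 then t1 i / 2 else 1 / 2 + t2 (i - N1) / 2) =
            1 / 2 + t2 (i - N1) / 2 := by
          by_cases h2 : i ≤ N1
          · have h3 : i = N1 := by omega
            simp only [h2, if_true, h3, a1, Nat.sub_self, b0]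
            norm_num
          · simp only [h2, if_false]
        simp only [h1, if_false, h3]
        rw [show i + 1 - N1 = i - N1 + 1 by omega]
        have h2 : ContDiffOn ℝ 1 (fun s => γ2 (2 * s - 1))
            (Icc (1 / 2 + t2 (i - N1) / 2) (1 / 2 + t2 (i - N1 + 1) / 2)) := by
          apply (b3 (i - N1) (by omega)).comp (by fun_prop)
          intro s hs
          exact ⟨by linarith [hs.1], by linarith [hs.2]⟩
        apply h2.congr
        intro s hs
        apply hγ2
        have := (hs2 (i - N1) (by omega)).1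
        linarith [hs.1]
  · intro s hs
    rcases le_total s (1 / 2) with h | h
    · rw [hγ1 s h]
      exact p1.mem _ ⟨by linarith [hs.1], by linarith⟩
    · rw [hγ2 s h]
      exact p2.mem _ ⟨by linarith, by linarith [hs.2]⟩
  · rw [hγ1 0 (by norm_num), mul_zero, p1.start]
  · rw [hγ2 1 (by norm_num), ← p2.finish]; norm_num
  · have i1 := p1.intervalIntegrable hg
    have i2 := p2.intervalIntegrable hg
    have d1 : ∀ s < 1 / 2, deriv γ s = (2 : ℝ) • deriv γ1 (2 * s) := by
      intro s hs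
      rw [← deriv_comp_mul_left]
      apply Filter.EventuallyEq.deriv_eq
      filter_upwards [Iio_mem_nhds hs] with x hx
      exact hγ1 x (mem_Iio.1 hx).le
    have d2 : ∀ s, 1 / 2 < s → deriv γ s = (2 : ℝ) • deriv γ2 (2 * s - 1) := by
      intro s hs
      have h5 : deriv γ s = deriv (fun x => (fun y => γ2 (y - 1)) (2 * x)) s := by
        apply Filter.EventuallyEq.deriv_eq
        filter_upwards [Ioi_mem_nhds hs] with x hx
        exact hγ2 x (mem_Ioi.1 hx).le
      rw [h5, deriv_comp_mul_left 2 (fun y => γ2 (y - 1)) s, deriv_comp_sub_const]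
    have e3 : ∀ s ∈ Ioo (0 : ℝ) (1 / 2), g (γ s) * ‖deriv γ s‖ =
        2 * (g (γ1 (2 * s)) * ‖deriv γ1 (2 * s)‖) := by
      intro s hs
      rw [d1 s hs.2, hγ1 s hs.2.le, norm_smul]
      norm_num
      ring
    have e4 : ∀ s ∈ Ioo (1 / 2 : ℝ) 1, g (γ s) * ‖deriv γ s‖ =
        2 * (g (γ2 (2 * s - 1)) * ‖deriv γ2 (2 * s - 1)‖) := by
      intro s hs
      rw [d2 s hs.1, hγ2 s hs.1.le, norm_smul]
      norm_num
      ring
    have ae3 : ∀ᵐ s ∂(volume.restrict (uIoc (0 : ℝ) (1 / 2))), g (γ s) * ‖deriv γ s‖ =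
        2 * (g (γ1 (2 * s)) * ‖deriv γ1 (2 * s)‖) := by
      rw [uIoc_of_le (by norm_num), ← restrict_Ioo_eq_restrict_Ioc]
      exact (ae_restrict_iff' measurableSet_Ioo).2 (ae_of_all _ e3)
    have ae4 : ∀ᵐ s ∂(volume.restrict (uIoc (1 / 2 : ℝ) 1)), g (γ s) * ‖deriv γ s‖ =
        2 * (g (γ2 (2 * s - 1)) * ‖deriv γ2 (2 * s - 1)‖) := by
      rw [uIoc_of_le (by norm_num), ← restrict_Ioo_eq_restrict_Ioc]
      exact (ae_restrict_iff' measurableSet_Ioo).2 (ae_of_all _ e4)
    have j1 : IntervalIntegrable (fun s => 2 * (g (γ1 (2 * s)) * ‖deriv γ1 (2 * s)‖)) volume 0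
        (1 / 2) := by
      have := (i1.comp_mul_left (c := 2)).const_mul 2
      norm_num at this
      convert this using 2
    have j2 : IntervalIntegrable (fun s => 2 * (g (γ2 (2 * s - 1)) * ‖deriv γ2 (2 * s - 1)‖))
        volume (1 / 2) 1 := by
      have h6 := (i2.comp_sub_right 1)
      have h7 := (h6.comp_mul_left (c := 2)).const_mul 2
      norm_num at h7
      convert h7 using 2
    have k1 : IntervalIntegrable (fun s => g (γ s) * ‖deriv γ s‖) volume 0 (1 / 2) :=
      j1.congr_ae (ae3.mono fun s hs => hs.symm)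
    have k2 : IntervalIntegrable (fun s => g (γ s) * ‖deriv γ s‖) volume (1 / 2) 1 :=
      j2.congr_ae (ae4.mono fun s hs => hs.symm)
    rw [← intervalIntegral.integral_add_adjacent_intervals k1 k2,
      intervalIntegral.integral_congr_ae_restrict ae3,
      intervalIntegral.integral_congr_ae_restrict ae4,
      intervalIntegral.integral_const_mul, intervalIntegral.integral_const_mul,
      intervalIntegral.integral_comp_mul_left (fun s => g (γ1 s) * ‖deriv γ1 s‖) two_ne_zero,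
      intervalIntegral.integral_comp_mul_sub (fun s => g (γ2 s) * ‖deriv γ2 s‖) two_ne_zero, e1, e2]
    norm_num
    ring

theorem Conn.nonneg {g : Pt d → ℝ} (hg0 : ∀ x, 0 ≤ g x) {U : Set (Pt d)} {a b : Pt d} {L : ℝ}
    (h : Conn g U a b L) : 0 ≤ L := by
  obtain ⟨γ, _, rfl⟩ := h
  exact intervalIntegral.integral_nonneg zero_le_one fun s _ => mul_nonneg (hg0 _) (norm_nonneg _)

/-- concatenating many paths -/
theorem conn_chain {g : Pt d → ℝ} (hg : Continuous g) {U : Set (Pt d)} (p : ℕ → Pt d)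
    (L : ℕ → ℝ) (q : ℕ) (hq : 0 < q) (h : ∀ i < q, Conn g U (p i) (p (i + 1)) (L i)) :
    Conn g U (p 0) (p q) (∑ i ∈ Finset.range q, L i) := by
  induction q with
  | zero => omega
  | succ q ih =>
    rcases Nat.eq_zero_or_pos q with h0 | h0
    · subst h0
      simpa using h 0 (by norm_num)
    · rw [Finset.sum_range_succ]
      exact (ih h0 fun i hi => h i (by omega)).trans hg (h q (by omega))

theorem fdist_le {ξ : ℝ} {f : Pt d → ℝ} {U : Set (Pt d)} {a b : Pt d} {L : ℝ}
    (h : Conn (fun x => Real.exp (ξ * f x)) U a b L) : fdist ξ f U a b ≤ L := by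
  apply csInf_le
  · refine ⟨0, ?_⟩
    rintro _ ⟨γ, _, rfl⟩
    exact intervalIntegral.integral_nonneg zero_le_one fun s _ =>
      mul_nonneg (Real.exp_pos _).le (norm_nonneg _)
  · obtain ⟨γ, h1, h2⟩ := h
    exact ⟨γ, h1, h2⟩

end Pool.Agent.Helper97.LogFPP
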