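import Pool.Agent.Helper97.LogFPP.Expect
import Pool.Agent.Helper97.LogFPP.Path

set_option autoImplicit false
set_option maxHeartbeats 400000

open MeasureTheory ProbabilityTheory Set Filter Topology
open scoped NNReal ENNReal RealInnerProductSpace

namespace Pool.Agent.Helper97.LogFPP

variable {d : ℕ} {K : Pt d → ℝ} {Ω : Type*} {mΩ : MeasurableSpace Ω} {P : Measure Ω}
  {h : ℕ → Pt d → Ω → ℝ} {π : Par} {c : Cst K} {σ V : ℝ}

theorem Nb_bump (G : Good π c σ V) (hd : 2 ≤ d) {j : ℕ} {a b : Pt d} {i : ℕ}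
    (hi : i < π.q j a b) {t1 t2 s1 s2 : ℝ} (ht1 : t1 ∈ Icc (0 : ℝ) 1) (ht2 : t2 ∈ Icc (0 : ℝ) 1)
    (hs1 : s1 ∈ Icc (0 : ℝ) 1) (hs2 : s2 ∈ Icc (0 : ℝ) 1) {A B : Pt d}
    (hA : A = π.p j a b i + t1 • π.v j a b + s1 • π.N hd c j a b)
    (hB : B = π.p j a b i + t2 • π.v j a b + s2 • π.N hd c j a b) :
    Nb A B (2 * c.H * π.u (j + 1)) ⊆ Nb a b (2 * c.H * π.u j) := by
  rintro x ⟨t, ht, hx⟩
  have h1 : t1 + t * (t2 - t1) ∈ Icc (0 : ℝ) 1 := by
    constructor
    · nlinarith [ht.1, ht.2, ht1.1, ht2.1]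
    · nlinarith [ht.1, ht.2, ht1.2, ht2.2]
  have h2 : s1 + t * (s2 - s1) ∈ Icc (0 : ℝ) 1 := by
    constructor
    · nlinarith [ht.1, ht.2, hs1.1, hs2.1]
    · nlinarith [ht.1, ht.2, hs1.2, hs2.2]
  apply G.nb hd hi h1 h2
  convert hx using 3
  rw [hA, hB]; module

theorem ramp_ge (G : Good π c σ V) (hd : 2 ≤ d) (j : ℕ) {a b : Pt d}
    (ε : ℝ) : 1 / 4 * ‖π.v j a b‖ ≤ ‖(1 / 4 : ℝ) • π.v j a b + ε • π.N hd c j a b‖ := by
  apply (sq_le_sq₀ (by positivity) (norm_nonneg _)).1
  have h3 : ⟪π.v j a b, π.N hd c j a b⟫ = 0 := by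
    unfold Par.N
    rw [inner_smul_right, nrm_inner, mul_zero]
  rw [norm_add_sq_real, norm_smul, inner_smul_left, inner_smul_right, h3,
    Real.norm_of_nonneg (by norm_num : (0:ℝ) ≤ 1 / 4)]
  have := sq_nonneg ‖ε • π.N hd c j a b‖
  simp only [mul_zero, add_zero]
  linarith

theorem cost_path (G : Good π c σ V) (hh : IsField K P h) (hd : 2 ≤ d) (ω : Ω) (k : ℕ) :
    ∀ (j : ℕ) (a b : Pt d) (w : Pt d → Ω → ℝ≥0∞) (g : Pt d → ℝ), π.ℓ * π.u j ≤ ‖b - a‖ →
      Continuous g → (∀ x, 0 ≤ g x) → (∀ x, w x ω = ENNReal.ofReal (g x)) →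
      ∃ L : ℝ, Conn (fun x => g x * Real.exp (π.ξ * bnd h (π.sc j) (π.sc (j + k)) x ω))
        (Nb a b (2 * c.H * π.u j)) a b L ∧ ENNReal.ofReal L ≤ cost π hd c h k j a b w ω := by
  have hH := c.H_pos
  induction k with
  | zero =>
    intro j a b w g hab hg hg0 hw
    refine ⟨_, conn_segment _ (fun t ht => ⟨t, ht, ?_⟩), ?_⟩
    · rw [sub_self, norm_zero]
      have := π.u_pos j
      positivity
    · simp only [cost, add_zero, bnd, sub_self, mul_zero, Real.exp_zero, mul_one]
      rw [intervalIntegral.integral_mul_const, mul_comm, ENNReal.ofReal_mul (norm_nonneg _)]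
      gcongr
      rw [intervalIntegral.integral_of_le zero_le_one, ← integral_Icc_eq_integral_Ioc]
      rw [ofReal_integral_eq_lintegral_ofReal]
      · apply le_of_eq
        apply lintegral_congr
        intro t
        rw [hw]
      · have : Continuous (fun t : ℝ => g (a + t • (b - a))) := by fun_prop
        exact this.continuousOn.integrableOn_Icc
      · exact ae_of_all _ fun _ => hg0 _
  | succ k ih =>
    intro j a b w g hab hg hg0 hw
    have hup := π.u_pos j
    have hℓ := G.ℓ_pos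
    have hq : 0 < π.q j a b := by
      unfold Par.q
      rw [Nat.floor_pos, le_div_iff₀ (mul_pos hℓ hup), one_mul]
      exact hab
    have hq' : (0 : ℝ) < π.q j a b := by exact_mod_cast hq
    have hv := G.v_ge j hq
    have hhalf := G.half j
    have hu1 := π.u_pos (j + 1)
    set F : Pt d → ℝ := fun x => bnd h (π.sc j) (π.sc (j + 1)) x ω with hF
    have hFc : Continuous F := (hh.smooth _ ω).continuous.sub (hh.smooth _ ω).continuous
    set g' : Pt d → ℝ := fun x => g x * Real.exp (π.ξ * F x) with hg'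
    have hgc' : Continuous g' := hg.mul (Real.continuous_exp.comp (continuous_const.mul hFc))
    have hg0' : ∀ x, 0 ≤ g' x := fun x => mul_nonneg (hg0 x) (Real.exp_pos _).le
    set g2 : Pt d → ℝ := fun x => g x * Real.exp (π.ξ * bnd h (π.sc j) (π.sc (j + (k + 1))) x ω)
      with hg2
    have hg2c : Continuous g2 := by
      apply hg.mul
      apply Real.continuous_exp.comp
      exact continuous_const.mul ((hh.smooth _ ω).continuous.sub (hh.smooth _ ω).continuous)
    have e0 : ∀ x, g' x * Real.exp (π.ξ * bnd h (π.sc (j + 1)) (π.sc (j + 1 + k)) x ω) = g2 x := by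
      intro x
      simp only [hg', hg2, hF, bnd]
      rw [mul_assoc, ← Real.exp_add, show j + 1 + k = j + (k + 1) by ring]
      congr 2; ring
    have e0' : (fun x => g' x * Real.exp (π.ξ * bnd h (π.sc (j + 1)) (π.sc (j + 1 + k)) x ω)) =
        g2 := funext e0
    have hg20 : ∀ x, 0 ≤ g2 x := fun x => mul_nonneg (hg0 x) (Real.exp_pos _).le
    set U := Nb a b (2 * c.H * π.u j) with hU
    have hlen : ∀ r : ℝ, 1 / 4 ≤ r → π.ℓ * π.u (j + 1) ≤ ‖r • π.v j a b‖ := by
      intro r hr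
      rw [norm_smul, Real.norm_of_nonneg (by linarith)]
      have := norm_nonneg (π.v j a b)
      nlinarith
    have hlen2 : ∀ ε : ℝ, π.ℓ * π.u (j + 1) ≤ ‖(1 / 4 : ℝ) • π.v j a b + ε • π.N hd c j a b‖ := by
      intro ε
      refine le_trans ?_ (ramp_ge G hd j ε)
      nlinarith
    set v := π.v j a b with hvdef
    set Nv := π.N hd c j a b with hNdef
    have z0 : (0 : ℝ) ∈ Icc (0 : ℝ) 1 := ⟨le_rfl, zero_le_one⟩
    have z1 : (1 : ℝ) ∈ Icc (0 : ℝ) 1 := ⟨zero_le_one, le_rfl⟩
    have z4 : (1 / 4 : ℝ) ∈ Icc (0 : ℝ) 1 := ⟨by norm_num, by norm_num⟩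
    have z34 : (3 / 4 : ℝ) ∈ Icc (0 : ℝ) 1 := ⟨by norm_num, by norm_num⟩
    have main : ∀ i < π.q j a b, ∃ L : ℝ, Conn g2 U (π.p j a b i) (π.p j a b i + v) L ∧
        ENNReal.ofReal L ≤
        ((cost π hd c h k (j + 1) (π.p j a b i) (π.p j a b i + (1 / 4 : ℝ) • v)
          (π.wS hd c h j a b i w) ω +
        cost π hd c h k (j + 1) (π.p j a b i + (1 / 4 : ℝ) • v)
          (π.p j a b i + (3 / 4 : ℝ) • v) (π.wS hd c h j a b i w) ω +
        cost π hd c h k (j + 1) (π.p j a b i + (3 / 4 : ℝ) • v)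
          (π.p j a b i + v) (π.wS hd c h j a b i w) ω) +
       (cost π hd c h k (j + 1) (π.p j a b i)
          (π.p j a b i + (1 / 4 : ℝ) • v + Nv)
          (π.wB hd c h j a b i w) ω +
        cost π hd c h k (j + 1) (π.p j a b i + (1 / 4 : ℝ) • v + Nv)
          (π.p j a b i + (3 / 4 : ℝ) • v + Nv) (π.wB hd c h j a b i w) ω +
        cost π hd c h k (j + 1) (π.p j a b i + (3 / 4 : ℝ) • v + Nv)
          (π.p j a b i + v) (π.wB hd c h j a b i w) ω)) := by
      intro i hi
      by_cases hC : π.C hd c h j a b i ω ≤ 0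
      · have hwS : ∀ x, π.wS hd c h j a b i w x ω = ENNReal.ofReal (g' x) := by
          intro x
          unfold Par.wS
          rw [if_pos hC, one_mul, hw, ← ENNReal.ofReal_mul (hg0 x)]
        obtain ⟨L1, c1, l1⟩ := ih (j + 1) (π.p j a b i) (π.p j a b i + (1 / 4 : ℝ) • v)
          (π.wS hd c h j a b i w) g' (by rw [add_sub_cancel_left]; exact hlen _ le_rfl)
          hgc' hg0' hwS
        obtain ⟨L2, c2, l2⟩ := ih (j + 1) (π.p j a b i + (1 / 4 : ℝ) • v)
          (π.p j a b i + (3 / 4 : ℝ) • v)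
          (π.wS hd c h j a b i w) g' (by
            have : π.p j a b i + (3 / 4 : ℝ) • v - (π.p j a b i + (1 / 4 : ℝ) • v) =
              (1 / 2 : ℝ) • v := by module
            rw [this]; exact hlen _ (by norm_num))
          hgc' hg0' hwS
        obtain ⟨L3, c3, l3⟩ := ih (j + 1) (π.p j a b i + (3 / 4 : ℝ) • v)
          (π.p j a b i + v)
          (π.wS hd c h j a b i w) g' (by
            have : π.p j a b i + v - (π.p j a b i + (3 / 4 : ℝ) • v) =
              (1 / 4 : ℝ) • v := by module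
            rw [this]; exact hlen _ le_rfl)
          hgc' hg0' hwS
        rw [e0'] at c1 c2 c3
        have i1 : Nb (π.p j a b i) (π.p j a b i + (1 / 4 : ℝ) • v) (2 * c.H * π.u (j + 1)) ⊆ U :=
          Nb_bump G hd hi z0 z4 z0 z0 (by simp) (by simp [hvdef])
        have i2 : Nb (π.p j a b i + (1 / 4 : ℝ) • v) (π.p j a b i + (3 / 4 : ℝ) • v)
            (2 * c.H * π.u (j + 1)) ⊆ U :=
          Nb_bump G hd hi z4 z34 z0 z0 (by simp [hvdef]) (by simp [hvdef])
        have i3 : Nb (π.p j a b i + (3 / 4 : ℝ) • v) (π.p j a b i + v)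
            (2 * c.H * π.u (j + 1)) ⊆ U :=
          Nb_bump G hd hi z34 z1 z0 z0 (by simp [hvdef]) (by simp [hvdef])
        refine ⟨L1 + L2 + L3, ((c1.mono i1).trans hg2c (c2.mono i2)).trans hg2c (c3.mono i3), ?_⟩
        have n1 := c1.nonneg hg20
        have n2 := c2.nonneg hg20
        have n3 := c3.nonneg hg20
        rw [ENNReal.ofReal_add (add_nonneg n1 n2) n3, ENNReal.ofReal_add n1 n2]
        exact (add_le_add (add_le_add l1 l2) l3).trans le_self_add
      · have hwB : ∀ x, π.wB hd c h j a b i w x ω = ENNReal.ofReal (g' x) := by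
          intro x
          unfold Par.wB
          rw [if_neg hC, one_mul, hw, ← ENNReal.ofReal_mul (hg0 x)]
        obtain ⟨L1, c1, l1⟩ := ih (j + 1) (π.p j a b i) (π.p j a b i + (1 / 4 : ℝ) • v + Nv)
          (π.wB hd c h j a b i w) g' (by
            have : π.p j a b i + (1 / 4 : ℝ) • v + Nv - π.p j a b i =
              (1 / 4 : ℝ) • v + (1 : ℝ) • Nv := by module
            rw [this]; exact hlen2 _)
          hgc' hg0' hwB
        obtain ⟨L2, c2, l2⟩ := ih (j + 1) (π.p j a b i + (1 / 4 : ℝ) • v + Nv)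
          (π.p j a b i + (3 / 4 : ℝ) • v + Nv)
          (π.wB hd c h j a b i w) g' (by
            have : π.p j a b i + (3 / 4 : ℝ) • v + Nv - (π.p j a b i + (1 / 4 : ℝ) • v + Nv) =
              (1 / 2 : ℝ) • v := by module
            rw [this]; exact hlen _ (by norm_num))
          hgc' hg0' hwB
        obtain ⟨L3, c3, l3⟩ := ih (j + 1) (π.p j a b i + (3 / 4 : ℝ) • v + Nv)
          (π.p j a b i + v)
          (π.wB hd c h j a b i w) g' (by
            have : π.p j a b i + v - (π.p j a b i + (3 / 4 : ℝ) • v + Nv) =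
              (1 / 4 : ℝ) • v + (-1 : ℝ) • Nv := by module
            rw [this]; exact hlen2 _)
          hgc' hg0' hwB
        rw [e0'] at c1 c2 c3
        have i1 : Nb (π.p j a b i) (π.p j a b i + (1 / 4 : ℝ) • v + Nv)
            (2 * c.H * π.u (j + 1)) ⊆ U :=
          Nb_bump G hd hi z0 z4 z0 z1 (by simp) (by simp [hvdef, hNdef])
        have i2 : Nb (π.p j a b i + (1 / 4 : ℝ) • v + Nv) (π.p j a b i + (3 / 4 : ℝ) • v + Nv)
            (2 * c.H * π.u (j + 1)) ⊆ U :=
          Nb_bump G hd hi z4 z34 z1 z1 (by simp [hvdef, hNdef]) (by simp [hvdef, hNdef])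
        have i3 : Nb (π.p j a b i + (3 / 4 : ℝ) • v + Nv) (π.p j a b i + v)
            (2 * c.H * π.u (j + 1)) ⊆ U :=
          Nb_bump G hd hi z34 z1 z1 z0 (by simp [hvdef, hNdef]) (by simp [hvdef])
        refine ⟨L1 + L2 + L3, ((c1.mono i1).trans hg2c (c2.mono i2)).trans hg2c (c3.mono i3), ?_⟩
        have n1 := c1.nonneg hg20
        have n2 := c2.nonneg hg20
        have n3 := c3.nonneg hg20
        rw [ENNReal.ofReal_add (add_nonneg n1 n2) n3, ENNReal.ofReal_add n1 n2]
        exact (add_le_add (add_le_add l1 l2) l3).trans le_add_self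
    choose! L hL hL2 using main
    have hp : ∀ i, π.p j a b i + v = π.p j a b (i + 1) := by
      intro i
      unfold Par.p
      rw [← hvdef]
      push_cast
      module
    have hchain := conn_chain hg2c (π.p j a b) L (π.q j a b) hq (by
      intro i hi
      rw [← hp]
      exact hL i hi)
    have hp0 : π.p j a b 0 = a := by simp [Par.p]
    have hpq : π.p j a b (π.q j a b) = b := by
      unfold Par.p Par.v
      rw [smul_smul, mul_inv_cancel₀ hq'.ne', one_smul]
      abel
    rw [hp0, hpq] at hchain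
    refine ⟨_, hchain, ?_⟩
    simp only [cost]
    rw [ENNReal.ofReal_sum_of_nonneg]
    · apply Finset.sum_le_sum
      intro i hi
      exact hL2 i (Finset.mem_range.1 hi)
    · intro i hi
      exact (hL i (Finset.mem_range.1 hi)).nonneg hg20

end Pool.Agent.Helper97.LogFPP
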