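import Pool.Agent.Helper97.LogFPP.Geom

set_option autoImplicit false
set_option maxHeartbeats 400000

open MeasureTheory ProbabilityTheory Set Filter Topology
open scoped NNReal ENNReal RealInnerProductSpace

namespace Pool.Agent.Helper97.LogFPP

variable {d : ℕ} {K : Pt d → ℝ} {Ω : Type*} {mΩ : MeasurableSpace Ω} {P : Measure Ω}
  {h : ℕ → Pt d → Ω → ℝ}

/-- comparison variable -/
noncomputable def cmp (h : ℕ → Pt d → Ω → ℝ) (a b : ℕ) (p v N : Pt d) (I : ℕ) : Ω → ℝ :=
  ∑ i ∈ Finset.range (I + 1), (bnd h a b (pt p v I i) - bnd h a b (pt p v I i + N))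

omit mΩ in
theorem cmp_mem (a b : ℕ) (p v N : Pt d) (I : ℕ) : cmp h a b p v N I ∈ HS h :=
  Submodule.sum_mem _ fun _ _ => Submodule.sub_mem _ (bnd_mem _ _ _) (bnd_mem _ _ _)

theorem cov_cmp (hh : IsField K P h) (hK : IsKernel K) {a b : ℕ} (hab : a ≤ b)
    (p v N : Pt d) (I : ℕ) (x : Pt d) :
    cov[cmp h a b p v N I, bnd h a b x; P] = cc K a b p v N I x := by
  have := hh.gaussian.isProbabilityMeasure
  unfold cmp cc
  rw [covariance_sum_left']
  · apply Finset.sum_congr rfl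
    intro i _
    rw [covariance_sub_left (LS_memLp hh.gaussian (bnd_mem a b _))
      (LS_memLp hh.gaussian (bnd_mem a b _)) (LS_memLp hh.gaussian (bnd_mem a b x)),
      hh.cov_bnd_same hK hab, hh.cov_bnd_same hK hab]
  · intro i _
    exact LS_memLp hh.gaussian (Submodule.sub_mem _ (bnd_mem a b _) (bnd_mem a b _))
  · exact LS_memLp hh.gaussian (bnd_mem a b x)

theorem var_cmp_eq (hh : IsField K P h) (hK : IsKernel K) {a b : ℕ} (hab : a ≤ b)
    (p v N : Pt d) (I : ℕ) :
    Var[cmp h a b p v N I; P] =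
      ∑ i ∈ Finset.range (I + 1), (cc K a b p v N I (pt p v I i) - cc K a b p v N I (pt p v I i + N)) := by
  have := hh.gaussian.isProbabilityMeasure
  have mC := LS_memLp hh.gaussian (cmp_mem (h := h) a b p v N I)
  rw [← covariance_self mC.aemeasurable]
  nth_rewrite 2 [cmp]
  rw [covariance_sum_right']
  · apply Finset.sum_congr rfl
    intro i _
    rw [covariance_sub_right mC (LS_memLp hh.gaussian (bnd_mem a b _))
      (LS_memLp hh.gaussian (bnd_mem a b _)), cov_cmp hh hK hab, cov_cmp hh hK hab]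
  · intro i _
    exact LS_memLp hh.gaussian (Submodule.sub_mem _ (bnd_mem a b _) (bnd_mem a b _))
  · exact mC

section
variable {c : Cst K} {a b : ℕ} {ℓ w : ℝ} {I : ℕ} {p v n : Pt d}

theorem Piece.shift_sum_le (hP : Piece c a ℓ w I p v n) (hK : IsKernel K) (hab : a ≤ b)
    (N x : Pt d) :
    ∑ i ∈ Finset.range (I + 1), Kb K a b (pt p v I i + N - x) ≤
      (((b : ℝ) - a) * Real.log 2) * (4 * c.D * I / ℓ + 1) := by
  have h1 := hP.sum_le hK hab (x - N)
  have h2 : ∀ i, pt p v I i + N - x = pt p v I i - (x - N) := fun i => by abel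
  simp_rw [h2]
  exact h1

theorem Piece.var_le (hP : Piece c a ℓ w I p v n) (hh : IsField K P h) (hK : IsKernel K)
    (hab : a ≤ b) (N : Pt d) :
    Var[cmp h a b p v N I; P] ≤
      (I + 1) * (2 * ((((b : ℝ) - a) * Real.log 2) * (4 * c.D * I / ℓ + 1))) := by
  rw [var_cmp_eq hh hK hab]
  set S := (((b : ℝ) - a) * Real.log 2) * (4 * c.D * I / ℓ + 1) with hS
  have h1 : ∀ x, cc K a b p v N I x ≤ S := by
    intro x
    unfold cc
    rw [Finset.sum_sub_distrib]
    have h2 := hP.sum_le hK hab x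
    have h3 : 0 ≤ ∑ i ∈ Finset.range (I + 1), Kb K a b (pt p v I i + N - x) :=
      Finset.sum_nonneg fun i _ => Kb_nonneg hK _ _ _
    linarith
  have h1' : ∀ x, -S ≤ cc K a b p v N I x := by
    intro x
    unfold cc
    rw [Finset.sum_sub_distrib]
    have h2 := hP.shift_sum_le hK hab N x
    have h3 : 0 ≤ ∑ i ∈ Finset.range (I + 1), Kb K a b (pt p v I i - x) :=
      Finset.sum_nonneg fun i _ => Kb_nonneg hK _ _ _
    linarith
  calc _ ≤ ∑ _i ∈ Finset.range (I + 1), (2 * S) := by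
        apply Finset.sum_le_sum
        intro i _
        have := h1 (pt p v I i)
        have := h1' (pt p v I i + N)
        linarith
    _ = _ := by
        rw [Finset.sum_const, Finset.card_range, nsmul_eq_mul]; push_cast; ring

theorem Piece.var_pos (hP : Piece c a ℓ w I p v n) (hh : IsField K P h) (hK : IsKernel K)
    (hab : a + 1 ≤ b) :
    0 < Var[cmp h a b p v ((c.H * (1 / 2) ^ a) • n) I; P] := by
  have := hh.gaussian.isProbabilityMeasure
  have hlog : 0 < Real.log 2 := Real.log_pos (by norm_num)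
  rw [var_cmp_eq hh hK (by omega)]
  have hI : (0 : ℝ) < I := by exact_mod_cast hP.hI0
  have hu0 : 0 < (1 / 2 : ℝ) ^ a := half_pow_pos a
  have key : ∀ i ∈ Finset.range (I + 1),
      0 < cc K a b p v ((c.H * (1 / 2) ^ a) • n) I (pt p v I i) -
        cc K a b p v ((c.H * (1 / 2) ^ a) • n) I (pt p v I i + (c.H * (1 / 2) ^ a) • n) := by
    intro i hi
    have hi' : (i : ℝ) / I ∈ Icc (0 : ℝ) 1 := by
      constructor
      · positivity
      · rw [div_le_one hI]
        have := Finset.mem_range.1 hi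
        exact_mod_cast Nat.lt_succ_iff.1 this
    have h1 := hP.cc_mid (b := b) hK hab (x := pt p v I i) hi' (by
      unfold pt
      rw [sub_self, norm_zero]
      exact mul_nonneg hP.hw0 hu0.le)
    have h2 := hP.cc_top (b := b) hK hab (x := pt p v I i + (c.H * (1 / 2) ^ a) • n) hi' (by
      unfold pt
      rw [sub_self, norm_zero]
      exact mul_nonneg hP.hw0 hu0.le)
    linarith
  apply Finset.sum_pos key
  exact ⟨0, by simp⟩

/-- straight option: factor -/
theorem Piece.fac_straight (hP : Piece c a ℓ w I p v n) (hh : IsField K P h) (hK : IsKernel K)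
    (hab : a + 1 ≤ b) {ξ s : ℝ} (hξ : 0 ≤ ξ) (hs0 : 0 ≤ s) (hs1 : s ≤ 1) {x : Pt d}
    (hs : s * √(Var[cmp h a b p v ((c.H * (1 / 2) ^ a) • n) I; P]) ≤
      ξ * cc K a b p v ((c.H * (1 / 2) ^ a) • n) I x)
    (h0 : 0 ≤ cc K a b p v ((c.H * (1 / 2) ^ a) • n) I x) :
    ∫⁻ ω, ENNReal.ofReal ((if cmp h a b p v ((c.H * (1 / 2) ^ a) • n) I ω ≤ 0 then 1 else 0) *
      Real.exp (ξ * bnd h a b x ω)) ∂P ≤
      ENNReal.ofReal (Real.exp (ξ ^ 2 * (((b : ℝ) - a) * Real.log 2) / 2) * ((1 - p1 * s) / 2)) := by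
  have h1 := gauss_two hh.gaussian (fun t => hh.mean t.1 t.2) (fun t => hh.meas t.1 t.2)
    (cmp_mem (h := h) a b p v ((c.H * (1 / 2) ^ a) • n) I) (bnd_mem a b x) (hP.var_pos hh hK hab)
    (by rw [cov_cmp hh hK (by omega)]; exact h0) hξ hs0 hs1
    (by rw [cov_cmp hh hK (by omega)]; exact hs)
  rwa [hh.var_bnd hK (by omega)] at h1

/-- bump option: factor -/
theorem Piece.fac_bump (hP : Piece c a ℓ w I p v n) (hh : IsField K P h) (hK : IsKernel K)
    (hab : a + 1 ≤ b) {ξ s : ℝ} (hξ : 0 ≤ ξ) (hs0 : 0 ≤ s) (hs1 : s ≤ 1) {x : Pt d}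
    (hs : s * √(Var[cmp h a b p v ((c.H * (1 / 2) ^ a) • n) I; P]) ≤
      ξ * (-cc K a b p v ((c.H * (1 / 2) ^ a) • n) I x))
    (h0 : cc K a b p v ((c.H * (1 / 2) ^ a) • n) I x ≤ 0) :
    ∫⁻ ω, ENNReal.ofReal ((if cmp h a b p v ((c.H * (1 / 2) ^ a) • n) I ω ≤ 0 then 0 else 1) *
      Real.exp (ξ * bnd h a b x ω)) ∂P ≤
      ENNReal.ofReal (Real.exp (ξ ^ 2 * (((b : ℝ) - a) * Real.log 2) / 2) * ((1 - p1 * s) / 2)) := by
  have := hh.gaussian.isProbabilityMeasure
  set C := cmp h a b p v ((c.H * (1 / 2) ^ a) • n) I with hC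
  have hvar : Var[-C; P] = Var[C; P] := variance_neg
  have hcov : cov[-C, bnd h a b x; P] = -cc K a b p v ((c.H * (1 / 2) ^ a) • n) I x := by
    rw [covariance_neg_left, hC, cov_cmp hh hK (by omega)]
  have h1 := gauss_two hh.gaussian (fun t => hh.mean t.1 t.2) (fun t => hh.meas t.1 t.2)
    (Submodule.neg_mem _ (cmp_mem (h := h) a b p v ((c.H * (1 / 2) ^ a) • n) I)) (bnd_mem a b x)
    (by rw [← hC, hvar]; exact hP.var_pos hh hK hab)
    (by rw [← hC, hcov]; linarith) hξ hs0 hs1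
    (by rw [← hC, hvar, hcov]; exact hs)
  rw [hh.var_bnd hK (by omega)] at h1
  refine le_trans ?_ h1
  apply lintegral_mono
  intro ω
  apply ENNReal.ofReal_le_ofReal
  apply mul_le_mul_of_nonneg_right _ (Real.exp_pos _).le
  rw [← hC]
  simp only [Pi.neg_apply]
  by_cases h2 : C ω ≤ 0
  · rw [if_pos h2]
    split_ifs <;> norm_num
  · have h3 : -C ω ≤ 0 := by push Not at h2; linarith
    rw [if_neg h2, if_pos h3]

end

end Pool.Agent.Helper97.LogFPP
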